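import Pool.Agent.Lib.MP_43d240_ag.TameCore

/-!
# Quaternion symbols over a field of transcendence degree two
-/

set_option autoImplicit false

open scoped TensorProduct

universe u v w x

namespace Pool.Agent.Lib.MP_43d240_ag

section Quaternion

variable {L : Type u} [Field L]

theorem hasRep_norm (a x y : L) : Symb.HasRep 2 (-1 : L) a (x ^ 2 - a * y ^ 2) := by
  refine ⟨!![0, a; 1, 0], !![x, -(a * y); y, -x], ⟨?_, ?_, ?_⟩⟩
  · ext i j
    fin_cases i <;> fin_cases j <;>
      simp [pow_two, Matrix.mul_apply, Fin.sum_univ_two, Matrix.algebraMap_matrix_apply]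
  · ext i j
    fin_cases i <;> fin_cases j <;>
      simp [pow_two, Matrix.mul_apply, Fin.sum_univ_two, Matrix.algebraMap_matrix_apply] <;> ring
  · ext i j
    fin_cases i <;> fin_cases j <;>
      simp [Matrix.mul_apply, Fin.sum_univ_two] <;> ring

variable (hζ : IsPrimitiveRoot (-1 : L) 2)

include hζ in
theorem beta_norm {a N : Lˣ} {x y : L} (h : (N : L) = x ^ 2 - a * y ^ 2) :
    beta hζ two_ne_zero a N = 1 := by
  apply beta_eq_one
  rw [h]
  exact hasRep_norm _ _ _

theorem beta_neg_self {a b : Lˣ} (h : (b : L) = - a) : beta hζ two_ne_zero a b = 1 :=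
  beta_norm hζ (x := 0) (y := 1) (by rw [h]; ring)

theorem beta_steinberg {a b : Lˣ} (h : (a : L) + b = 1) : beta hζ two_ne_zero a b = 1 :=
  beta_norm hζ (x := 1) (y := 1) (by linear_combination h)

theorem beta_sq_left {a b : Lˣ} {x : L} (h : (a : L) = x ^ 2) : beta hζ two_ne_zero a b = 1 := by
  have hx : x ≠ 0 := by
    rintro rfl
    exact a.ne_zero (by rw [h]; ring)
  have h1 : a = (Units.mk0 x hx) ^ 2 := Units.ext (by simpa using h)
  rw [h1]
  exact beta_pow_left hζ two_ne_zero _ _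

/-- Elements represented by the pure part of the quaternion norm form. -/
theorem beta_pure_ne_zero (a b : Lˣ) (x₁ x₂ x₃ : L) (t : Lˣ)
    (ht : (t : L) = a * x₁ ^ 2 + b * x₂ ^ 2 - a * b * x₃ ^ 2) :
    ∃ s : Lˣ, beta hζ two_ne_zero a b = beta hζ two_ne_zero t s := by
  set β := beta hζ two_ne_zero with hβ
  have hsw : ∀ u v, β u v = (β v u)⁻¹ := fun u v =>
    eq_inv_of_mul_eq_one_left (beta_skew hζ two_ne_zero u v)
  by_cases hN : x₂ ^ 2 - a * x₃ ^ 2 = 0
  · by_cases hx₃ : x₃ = 0
    · have hx₂ : x₂ = 0 := by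
        rw [hx₃] at hN
        simpa using hN
      have ht' : (t : L) = a * x₁ ^ 2 := by rw [ht, hx₂, hx₃]; ring
      have hx₁ : x₁ ≠ 0 := by
        rintro rfl
        exact t.ne_zero (by rw [ht']; ring)
      refine ⟨b, ?_⟩
      have h1 : t = a * (Units.mk0 x₁ hx₁) ^ 2 := Units.ext (by simpa using ht')
      rw [h1, map_mul, MonoidHom.mul_apply, hβ, beta_pow_left, mul_one]
    · have ha : (a : L) = (x₂ / x₃) ^ 2 := by
        field_simp
        linear_combination -hN
      refine ⟨1, ?_⟩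
      rw [map_one, hβ, beta_sq_left hζ ha]
  · let N : Lˣ := Units.mk0 _ hN
    have hN1 : β a N = 1 := beta_norm hζ (x := x₂) (y := x₃) rfl
    have hab : β a b = β a (b * N) := by rw [map_mul, hN1, mul_one]
    have ht' : (t : L) = a * x₁ ^ 2 + b * N := by
      rw [ht]
      change _ = (a : L) * x₁ ^ 2 + b * (x₂ ^ 2 - a * x₃ ^ 2)
      ring
    by_cases hx₁ : x₁ = 0
    · have h1 : t = b * N := Units.ext (by rw [ht', hx₁]; simp)
      refine ⟨a⁻¹, ?_⟩
      rw [hab, ← h1, hsw, ← map_inv]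
    · let y : Lˣ := Units.mk0 x₁ hx₁
      have h1 : β a (b * N) = β (a * y ^ 2) (b * N) := by
        rw [map_mul β a, MonoidHom.mul_apply, hβ, beta_pow_left, mul_one]
      set a' := a * y ^ 2 with ha'
      set b' := b * N with hb'
      have h2 : β (a' * t⁻¹) (b' * t⁻¹) = 1 := by
        apply beta_steinberg hζ
        have : (a' : L) + b' = t := by
          rw [ht', ha', hb']
          simp [y]
        have h4 : ((a' * t⁻¹ : Lˣ) : L) + ((b' * t⁻¹ : Lˣ) : L) = ((a' : L) + b') * (t⁻¹ : Lˣ) := by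
          push_cast; ring
        rw [h4, this, Units.mul_inv]
      refine ⟨a'⁻¹ * b' * t⁻¹, ?_⟩
      rw [hab, h1]
      have h5 : β a' b' * (β t a' * (β t b')⁻¹ * β t t) = 1 := by
        rw [← h2]
        simp only [map_mul, map_inv, MonoidHom.mul_apply, MonoidHom.inv_apply]
        rw [hsw a' t]
        generalize (β a') b' = p
        generalize (β t) a' = q
        generalize (β t) b' = r
        generalize (β t) t = z
        simp only [mul_inv, inv_inv, mul_assoc, mul_left_comm, mul_comm]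
      have h6 := eq_inv_of_mul_eq_one_left h5
      rw [h6]
      simp only [map_mul, map_inv, mul_inv, inv_inv]

theorem beta_pure_eq_zero (a b : Lˣ) (x₁ x₂ x₃ : L)
    (ht : a * x₁ ^ 2 + b * x₂ ^ 2 - a * b * x₃ ^ 2 = (0 : L))
    (hx : ¬ (x₁ = 0 ∧ x₂ = 0 ∧ x₃ = 0)) :
    beta hζ two_ne_zero a b = 1 := by
  set β := beta hζ two_ne_zero with hβ
  by_cases hN : x₂ ^ 2 - a * x₃ ^ 2 = 0
  · by_cases hx₃ : x₃ = 0
    · exfalso
      have hx₂ : x₂ = 0 := by
        rw [hx₃] at hN
        simpa using hN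
      have hx₁ : x₁ = 0 := by
        rw [hx₂, hx₃] at ht
        simpa using ht
      exact hx ⟨hx₁, hx₂, hx₃⟩
    · have ha : (a : L) = (x₂ / x₃) ^ 2 := by
        field_simp
        linear_combination -hN
      exact beta_sq_left hζ ha
  · let N : Lˣ := Units.mk0 _ hN
    have hN1 : β a N = 1 := beta_norm hζ (x := x₂) (y := x₃) rfl
    have hab : β a b = β a (b * N) := by rw [map_mul, hN1, mul_one]
    have ht' : (a : L) * x₁ ^ 2 + b * N = 0 := by
      rw [← ht]
      change (a : L) * x₁ ^ 2 + b * (x₂ ^ 2 - a * x₃ ^ 2) = _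
      ring
    have hx₁ : x₁ ≠ 0 := by
      rintro rfl
      have : (b : L) * N = 0 := by simpa using ht'
      exact (b * N).ne_zero this
    let y : Lˣ := Units.mk0 x₁ hx₁
    have h1 : β a (b * N) = β (a * y ^ 2) (b * N) := by
      rw [map_mul β a, MonoidHom.mul_apply, hβ, beta_pow_left, mul_one]
    rw [hab, h1]
    apply beta_neg_self hζ
    simp only [Units.val_mul, Units.val_pow_eq_pow_val, y, Units.val_mk0]
    linear_combination ht'

/-- Albert forms: over a field where quadratic forms in six variables are isotropic, the product of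
two quaternion symbols is a quaternion symbol. -/
theorem beta_mul_beta (hTL : TL 4 2 L) (a b c d : Lˣ) :
    ∃ t s : Lˣ, beta hζ two_ne_zero a b * beta hζ two_ne_zero c d = beta hζ two_ne_zero t s := by
  let w : Fin 6 → L := ![a, b, -(a * b), -c, -d, c * d]
  let Q : MultilinearMap L (fun _ : Fin 2 => Fin 6 → L) L :=
    ∑ i : Fin 6, w i • (MultilinearMap.mkPiAlgebra L (Fin 2) L).compLinearMap
      (fun _ => LinearMap.proj i)
  have hQ : ∀ v : Fin 6 → L, Q (fun _ => v) = ∑ i, w i * v i ^ 2 := by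
    intro v
    simp [Q]
  obtain ⟨v, hv, hv0⟩ := hTL (Fin 6 → L) L Q (by simp)
  rw [hQ, Fin.sum_univ_six] at hv0
  have e0 : w 0 = a := rfl
  have e1 : w 1 = b := rfl
  have e2 : w 2 = -(a * b) := rfl
  have e3 : w 3 = -c := rfl
  have e4 : w 4 = -d := rfl
  have e5 : w 5 = c * d := rfl
  rw [e0, e1, e2, e3, e4, e5] at hv0
  by_cases ht : (a : L) * v 0 ^ 2 + b * v 1 ^ 2 - a * b * v 2 ^ 2 = 0
  · have ht' : (c : L) * v 3 ^ 2 + d * v 4 ^ 2 - c * d * v 5 ^ 2 = 0 := by
      linear_combination ht - hv0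
    by_cases h1 : v 0 = 0 ∧ v 1 = 0 ∧ v 2 = 0
    · by_cases h2 : v 3 = 0 ∧ v 4 = 0 ∧ v 5 = 0
      · exfalso
        apply hv
        funext i
        fin_cases i
        · exact h1.1
        · exact h1.2.1
        · exact h1.2.2
        · exact h2.1
        · exact h2.2.1
        · exact h2.2.2
      · exact ⟨a, b, by rw [beta_pure_eq_zero hζ c d _ _ _ ht' h2, mul_one]⟩
    · exact ⟨c, d, by rw [beta_pure_eq_zero hζ a b _ _ _ ht h1, one_mul]⟩
  · let t : Lˣ := Units.mk0 _ ht
    obtain ⟨s, hs⟩ := beta_pure_ne_zero hζ a b (v 0) (v 1) (v 2) t rfl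
    obtain ⟨s', hs'⟩ := beta_pure_ne_zero hζ c d (v 3) (v 4) (v 5) t (by
      change (a : L) * v 0 ^ 2 + b * v 1 ^ 2 - a * b * v 2 ^ 2 = _
      linear_combination hv0)
    exact ⟨t, s * s', by rw [hs, hs', map_mul]⟩

end Quaternion

end Pool.Agent.Lib.MP_43d240_ag
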