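import Pool.Agent.Lib.MP_43d240_ag.TameMain

/-!
# Base change
-/

set_option autoImplicit false

open scoped TensorProduct

universe u v w x

namespace Pool.Agent.Lib.MP_43d240_ag

section BC

variable {F : Type u} {K : Type v} [Field F] [Field K] [Algebra F K]

/-- `K ≃ M₁(K)`. -/
noncomputable def oneEquiv (K : Type v) [Field K] : K ≃ₐ[K] Matrix (Fin 1) (Fin 1) K :=
  AlgEquiv.ofBijective (Algebra.ofId K _) ⟨(algebraMap K (Matrix (Fin 1) (Fin 1) K)).injective, by
    intro M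
    refine ⟨M 0 0, ?_⟩
    ext i j
    rw [Algebra.ofId_apply, Matrix.algebraMap_matrix_apply, Subsingleton.elim i 0,
      Subsingleton.elim j 0]
    simp⟩

theorem nonempty_baseChange_matrix (F : Type u) (K : Type v) [Field F] [Field K] [Algebra F K]
    (m : ℕ) [NeZero m] (A : Type w) [Ring A] [Algebra F A] :
    Nonempty (K ⊗[F] (Matrix (Fin m) (Fin m) A) ≃ₐ[K]
      Matrix (Fin 1 × Fin m) (Fin 1 × Fin m) (K ⊗[F] A)) := by
  refine ⟨(Algebra.TensorProduct.congr (oneEquiv K)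
    (AlgEquiv.refl : Matrix (Fin m) (Fin m) A ≃ₐ[F] _)).trans ?_⟩
  exact Matrix.kroneckerTMulAlgEquiv (Fin 1) (Fin m) F K K A

theorem BE.baseChange {A : Type w} {B : Type x} [Ring A] [Algebra F A] [Ring B] [Algebra F B]
    (h : BE F A B) : BE K (K ⊗[F] A) (K ⊗[F] B) := by
  obtain ⟨m, n, hm, hn, ⟨e⟩⟩ := h
  have : NeZero m := ⟨hm⟩
  have : NeZero n := ⟨hn⟩
  obtain ⟨e1⟩ := nonempty_baseChange_matrix F K m A
  obtain ⟨e2⟩ := nonempty_baseChange_matrix F K n B
  refine BE.of_equiv_index (ι := Fin 1 × Fin m) (κ := Fin 1 × Fin n) ?_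
  exact (e1.symm.trans (Algebra.TensorProduct.congr AlgEquiv.refl e)).trans e2

/-- `A ⊗[K] (K ⊗[F] B) ≃ₐ[K] A ⊗[F] B`, for noncommutative algebras. -/
noncomputable def cancelBC (F : Type u) (K : Type v) [Field F] [Field K] [Algebra F K]
    (A : Type w) (B : Type x) [Ring A] [Ring B] [Algebra F A] [Algebra K A] [IsScalarTower F K A]
    [Algebra F B] : A ⊗[K] (K ⊗[F] B) ≃ₐ[K] A ⊗[F] B :=
  AlgEquiv.symm <| AlgEquiv.ofLinearEquiv
    (TensorProduct.AlgebraTensorModule.cancelBaseChange F K K A B).symm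
    (by simp [Algebra.TensorProduct.one_def]) <|
      LinearMap.map_mul_of_map_mul_tmul (fun _ _ _ _ ↦ by simp)

end BC

section Hom

variable (F K : Type u) [Field F] [Field K] [Algebra F K]

/-- Base change of classes. -/
noncomputable def bc : BrM F →* BrM K where
  toFun := Quotient.map (fun A => ⟨K ⊗[F] A.carrier⟩) (fun _ _ h => BE.baseChange h)
  map_one' := by
    change cls K (K ⊗[F] F) = 1
    rw [← cls_one]
    exact cls_congr K (Algebra.TensorProduct.rid F K K)
  map_mul' := by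
    rintro ⟨A⟩ ⟨B⟩
    change cls K (K ⊗[F] (A.carrier ⊗[F] B.carrier)) =
      cls K ((K ⊗[F] A.carrier) ⊗[K] (K ⊗[F] B.carrier))
    refine cls_congr K ?_
    exact ((cancelBC F K (K ⊗[F] A.carrier) B.carrier).trans
      (Algebra.TensorProduct.assoc F F K K A.carrier B.carrier)).symm

theorem bc_cls (A : Type u) [Ring A] [Algebra F A] : bc F K (cls F A) = cls K (K ⊗[F] A) := rfl

theorem bc_symb {n : ℕ} {ζ : F} (hζ : IsPrimitiveRoot ζ n) (hn : n ≠ 0) {a b : F} (ha : a ≠ 0)
    (hb : b ≠ 0) : bc F K (cls F (Symb n ζ a b)) =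
      cls K (Symb n (algebraMap F K ζ) (algebraMap F K a) (algebraMap F K b)) := by
  rw [bc_cls]
  have hζK : IsPrimitiveRoot (algebraMap F K ζ) n :=
    hζ.map_of_injective (algebraMap F K).injective
  have h1 := Symb.isPair_gen (n := n) (ζ := ζ) (a := a) (b := b)
  have hfin := Symb.finiteDimensional hζ hn ha hb
  have hnt := Symb.nontrivial (a := a) (b := b) hζ hn
  have hmap : ∀ c : F, (1 : K) ⊗ₜ[F] (algebraMap F (Symb n ζ a b) c) =
      algebraMap K (K ⊗[F] Symb n ζ a b) (algebraMap F K c) := by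
    intro c
    rw [Algebra.TensorProduct.algebraMap_apply, Algebra.algebraMap_eq_smul_one,
      ← TensorProduct.smul_tmul, Algebra.smul_def, mul_one]
    rfl
  have hp : Symb.IsPair (B := K ⊗[F] Symb n ζ a b) n (algebraMap F K ζ) (algebraMap F K a)
      (algebraMap F K b) ((1 : K) ⊗ₜ[F] Symb.gx n ζ a b) ((1 : K) ⊗ₜ[F] Symb.gy n ζ a b) := by
    refine ⟨?_, ?_, ?_⟩
    · rw [Algebra.TensorProduct.tmul_pow, h1.powX, one_pow, hmap]
    · rw [Algebra.TensorProduct.tmul_pow, h1.powY, one_pow, hmap]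
    · rw [Algebra.TensorProduct.tmul_mul_tmul, Algebra.TensorProduct.tmul_mul_tmul, h1.comm,
        mul_one, TensorProduct.tmul_smul, algebraMap_smul]
  obtain ⟨e⟩ := Symb.nonempty_algEquiv_of_finrank hζK hn
    ((map_ne_zero_iff _ (algebraMap F K).injective).2 ha)
    ((map_ne_zero_iff _ (algebraMap F K).injective).2 hb) hp (by
      rw [Module.finrank_baseChange, Symb.finrank_eq hζ hn ha hb])
  exact (cls_congr K e).symm

end Hom

end Pool.Agent.Lib.MP_43d240_ag
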