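import Mathlib

/-!
# Matrix equivalence of algebras and the commutative monoid of classes
-/

set_option autoImplicit false

open scoped TensorProduct

universe u v w x

namespace Pool.Agent.Lib.MP_43d240_ag

section BE

variable (K : Type u) [Field K]

/-- Matrix (Brauer) equivalence of `K`-algebras. -/
def BE (A : Type v) (B : Type w) [Ring A] [Algebra K A] [Ring B] [Algebra K B] : Prop :=
  ∃ m n : ℕ, m ≠ 0 ∧ n ≠ 0 ∧
    Nonempty (Matrix (Fin m) (Fin m) A ≃ₐ[K] Matrix (Fin n) (Fin n) B)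

variable {K}
variable {A : Type v} {B : Type w} [Ring A] [Algebra K A] [Ring B] [Algebra K B]

theorem BE.of_equiv_index {ι κ : Type*} [Fintype ι] [DecidableEq ι] [Nonempty ι]
    [Fintype κ] [DecidableEq κ] [Nonempty κ]
    (e : Matrix ι ι A ≃ₐ[K] Matrix κ κ B) : BE K A B := by
  refine ⟨Fintype.card ι, Fintype.card κ, Fintype.card_ne_zero, Fintype.card_ne_zero, ⟨?_⟩⟩
  exact ((Matrix.reindexAlgEquiv K A (Fintype.equivFin ι)).symm.trans e).trans
    (Matrix.reindexAlgEquiv K B (Fintype.equivFin κ))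

theorem BE.of_equiv (e : A ≃ₐ[K] B) : BE K A B :=
  BE.of_equiv_index (ι := Fin 1) (κ := Fin 1) e.mapMatrix

variable (K A) in
theorem BE.refl : BE K A A := BE.of_equiv AlgEquiv.refl

theorem BE.symm (h : BE K A B) : BE K B A := by
  obtain ⟨m, n, hm, hn, ⟨e⟩⟩ := h
  exact ⟨n, m, hn, hm, ⟨e.symm⟩⟩

theorem BE.trans {C : Type x} [Ring C] [Algebra K C] (h₁ : BE K A B) (h₂ : BE K B C) :
    BE K A C := by
  obtain ⟨n, m, hn, hm, ⟨iso1⟩⟩ := h₁
  obtain ⟨p, q, hp, hq, ⟨iso2⟩⟩ := h₂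
  have : NeZero n := ⟨hn⟩
  have : NeZero m := ⟨hm⟩
  have : NeZero p := ⟨hp⟩
  have : NeZero q := ⟨hq⟩
  refine BE.of_equiv_index (ι := Fin p × Fin n) (κ := Fin m × Fin q) ?_
  exact (Matrix.compAlgEquiv _ _ _ _).symm.trans <|
    iso1.mapMatrix (m := Fin p) |>.trans <| (Matrix.compAlgEquiv _ _ _ _).trans <|
    (Matrix.reindexAlgEquiv K B (.prodComm (Fin p) (Fin m))).trans <|
    (Matrix.compAlgEquiv _ _ _ _).symm.trans <|
    iso2.mapMatrix.trans <| Matrix.compAlgEquiv _ _ _ _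

theorem BE.matrix {ι : Type*} [Fintype ι] [DecidableEq ι] [Nonempty ι] :
    BE K (Matrix ι ι A) A :=
  BE.of_equiv_index (ι := Fin 1) (κ := Fin 1 × ι) (Matrix.compAlgEquiv _ _ _ _)

theorem BE.tensor {A' : Type*} {B' : Type*} [Ring A'] [Algebra K A'] [Ring B'] [Algebra K B']
    (h₁ : BE K A A') (h₂ : BE K B B') : BE K (A ⊗[K] B) (A' ⊗[K] B') := by
  obtain ⟨n, m, hn, hm, ⟨e₁⟩⟩ := h₁
  obtain ⟨p, q, hp, hq, ⟨e₂⟩⟩ := h₂
  have : NeZero n := ⟨hn⟩
  have : NeZero m := ⟨hm⟩
  have : NeZero p := ⟨hp⟩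
  have : NeZero q := ⟨hq⟩
  refine BE.of_equiv_index (ι := Fin n × Fin p) (κ := Fin m × Fin q) ?_
  exact (Matrix.kroneckerTMulAlgEquiv (Fin n) (Fin p) K K A B).symm.trans <|
    (Algebra.TensorProduct.congr e₁ e₂).trans <|
    Matrix.kroneckerTMulAlgEquiv (Fin m) (Fin q) K K A' B'

end BE

/-! ### The commutative monoid of classes -/

/-- Bundled `K`-algebras in the universe of `K`. -/
structure BAlg (K : Type u) [Field K] : Type (u + 1) where
  /-- the underlying type -/
  carrier : Type u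
  [ring : Ring carrier]
  [algebra : Algebra K carrier]

attribute [instance] BAlg.ring BAlg.algebra

variable (K : Type u) [Field K]

/-- The setoid of matrix equivalence. -/
def bSetoid : Setoid (BAlg K) where
  r A B := BE K A.carrier B.carrier
  iseqv := ⟨fun _ => BE.refl K _, fun h => h.symm, fun h₁ h₂ => h₁.trans h₂⟩

/-- The monoid of classes of `K`-algebras modulo matrix equivalence. -/
def BrM : Type (u + 1) := Quotient (bSetoid K)

/-- The class of an algebra. -/
def cls (A : Type u) [Ring A] [Algebra K A] : BrM K :=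
  Quotient.mk (bSetoid K) ⟨A⟩

theorem cls_eq_iff (A B : Type u) [Ring A] [Algebra K A] [Ring B] [Algebra K B] :
    cls K A = cls K B ↔ BE K A B :=
  Quotient.eq (r := bSetoid K)

noncomputable instance : CommMonoid (BrM K) where
  mul := Quotient.map₂ (fun A B => ⟨A.carrier ⊗[K] B.carrier⟩)
    (fun _ _ h₁ _ _ h₂ => BE.tensor h₁ h₂)
  one := cls K K
  mul_assoc := by
    rintro ⟨A⟩ ⟨B⟩ ⟨C⟩
    exact Quotient.sound (BE.of_equiv (Algebra.TensorProduct.assoc K K K A.carrier B.carrier C.carrier))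
  one_mul := by
    rintro ⟨A⟩
    exact Quotient.sound (BE.of_equiv (Algebra.TensorProduct.lid K A.carrier))
  mul_one := by
    rintro ⟨A⟩
    exact Quotient.sound (BE.of_equiv (Algebra.TensorProduct.rid K K A.carrier))
  mul_comm := by
    rintro ⟨A⟩ ⟨B⟩
    exact Quotient.sound (BE.of_equiv (Algebra.TensorProduct.comm K A.carrier B.carrier))

theorem cls_tensor (A B : Type u) [Ring A] [Algebra K A] [Ring B] [Algebra K B] :
    cls K (A ⊗[K] B) = cls K A * cls K B := rfl

theorem cls_one : cls K K = 1 := rfl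

theorem cls_congr {A B : Type u} [Ring A] [Algebra K A] [Ring B] [Algebra K B]
    (e : A ≃ₐ[K] B) : cls K A = cls K B :=
  (cls_eq_iff K A B).2 (BE.of_equiv e)

theorem cls_matrix (ι : Type) [Fintype ι] [DecidableEq ι] [Nonempty ι]
    (A : Type u) [Ring A] [Algebra K A] (e : A ≃ₐ[K] Matrix ι ι K) : cls K A = 1 := by
  rw [← cls_one, cls_eq_iff]
  exact (BE.of_equiv e).trans BE.matrix

end Pool.Agent.Lib.MP_43d240_ag
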