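import Mathlib

/-!
# The group theoretic reduction

`β : A →* A →* G` is a skew-symmetric bimultiplicative pairing.
-/

set_option autoImplicit false

namespace Pool.Agent.Lib.MP_43d240_ag

section GroupLemma

variable {A G : Type*} [CommGroup A] [CommGroup G] (β : A →* A →* G)

/-- The subgroup generated by the values of `β` on `H × H`, together with `S`. -/
def PP (S : Subgroup G) (H : Subgroup A) : Subgroup G :=
  Subgroup.closure {g | ∃ u ∈ H, ∃ v ∈ H, g = β u v} ⊔ S

variable {β}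

theorem le_PP (S : Subgroup G) (H : Subgroup A) : S ≤ PP β S H := le_sup_right

theorem apply_mem_PP (S : Subgroup G) {H : Subgroup A} {u v : A} (hu : u ∈ H) (hv : v ∈ H) :
    β u v ∈ PP β S H :=
  (le_sup_left : _ ≤ PP β S H) (Subgroup.subset_closure ⟨u, hu, v, hv, rfl⟩)

theorem PP_le {S : Subgroup G} {H : Subgroup A} {T : Subgroup G} (hS : S ≤ T)
    (hT : ∀ u ∈ H, ∀ v ∈ H, β u v ∈ T) : PP β S H ≤ T := by
  refine sup_le ?_ hS
  rw [Subgroup.closure_le]
  rintro _ ⟨u, hu, v, hv, rfl⟩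
  exact hT u hu v hv

theorem PP_mono {S : Subgroup G} {H H' : Subgroup A} (h : H ≤ H') : PP β S H ≤ PP β S H' :=
  PP_le (le_PP S H') (fun _ hu _ hv => apply_mem_PP S (h hu) (h hv))

/-- The elements of the shape `β f b * β g c * α'`. -/
def QQ (β : A →* A →* G) (S : Subgroup G) (H : Subgroup A) (f g : A) : Subgroup G where
  carrier := {x | ∃ b ∈ H, ∃ c ∈ H, ∃ a ∈ PP β S H, x = β f b * β g c * a}
  mul_mem' := by
    rintro _ _ ⟨b, hb, c, hc, a, ha, rfl⟩ ⟨b', hb', c', hc', a', ha', rfl⟩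
    refine ⟨b * b', H.mul_mem hb hb', c * c', H.mul_mem hc hc', a * a',
      (PP β S H).mul_mem ha ha', ?_⟩
    simp only [map_mul]
    simp only [mul_assoc, mul_left_comm, mul_comm]
  one_mem' := ⟨1, H.one_mem, 1, H.one_mem, 1, (PP β S H).one_mem, by simp⟩
  inv_mem' := by
    rintro _ ⟨b, hb, c, hc, a, ha, rfl⟩
    refine ⟨b⁻¹, H.inv_mem hb, c⁻¹, H.inv_mem hc, a⁻¹, (PP β S H).inv_mem ha, ?_⟩
    simp only [map_inv, mul_inv]

theorem PP_le_QQ (S : Subgroup G) (H : Subgroup A) (f g : A) : PP β S H ≤ QQ β S H f g := by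
  intro a ha
  exact ⟨1, H.one_mem, 1, H.one_mem, a, ha, by simp⟩

theorem PP_sup_le_QQ (hsk : ∀ u v, β u v * β v u = 1) {S : Subgroup G} {H : Subgroup A} {f g : A}
    (hff : β f f ∈ S) (hfg : β f g ∈ S) (hgg : β g g ∈ S) :
    PP β S (H ⊔ Subgroup.closure {f, g}) ≤ QQ β S H f g := by
  have hinv : ∀ u v, β v u = (β u v)⁻¹ := fun u v => eq_inv_of_mul_eq_one_right (hsk u v)
  refine PP_le ((le_PP S H).trans (PP_le_QQ S H f g)) ?_
  intro u hu v hv
  rw [Subgroup.mem_sup] at hu hv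
  obtain ⟨h, hh, w, hw, rfl⟩ := hu
  obtain ⟨h', hh', w', hw', rfl⟩ := hv
  rw [Subgroup.mem_closure_pair] at hw hw'
  obtain ⟨i, j, rfl⟩ := hw
  obtain ⟨k, l, rfl⟩ := hw'
  have hS : S ≤ PP β S H := le_PP S H
  refine ⟨h' ^ i * (h ^ k)⁻¹, H.mul_mem (H.zpow_mem hh' i) (H.inv_mem (H.zpow_mem hh k)),
    h' ^ j * (h ^ l)⁻¹, H.mul_mem (H.zpow_mem hh' j) (H.inv_mem (H.zpow_mem hh l)),
    β h h' * (β f f) ^ (i * k) * (β f g) ^ (i * l) * ((β f g) ^ (j * k))⁻¹ * (β g g) ^ (j * l),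
    ?_, ?_⟩
  · refine mul_mem (mul_mem (mul_mem (mul_mem ?_ ?_) ?_) ?_) ?_
    · exact apply_mem_PP S hh hh'
    · exact zpow_mem (hS hff) _
    · exact zpow_mem (hS hfg) _
    · exact inv_mem (zpow_mem (hS hfg) _)
    · exact zpow_mem (hS hgg) _
  · have hz : ∀ (u : A) (i : ℤ) (v : A), (β u ^ i) v = (β u v) ^ i := fun u i v =>
      map_zpow (MonoidHom.eval v) (β u) i
    simp only [map_mul, map_zpow, map_inv, MonoidHom.mul_apply, hz]
    rw [hinv f h, hinv g h, hinv f g]
    simp only [inv_zpow', zpow_neg, ← zpow_mul, mul_inv, inv_inv, mul_zpow]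
    generalize (β f) f ^ (i * k) = t1
    generalize (β f) g ^ (i * l) = t2
    generalize (β f) g ^ (j * k) = t3
    generalize (β g) g ^ (j * l) = t4
    generalize (β f) h' ^ i = t5
    generalize (β f) h ^ k = t6
    generalize (β g) h' ^ j = t7
    generalize (β g) h ^ l = t8
    generalize (β h) h' = t9
    simp only [mul_assoc, mul_left_comm, mul_comm]

/-- One pair `f, g` contributes one symbol. -/
theorem exists_of_mem_PP_sup (hsk : ∀ u v, β u v * β v u = 1) {S : Subgroup G} {H : Subgroup A}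
    {f g : A} (hff : β f f ∈ S) (hfg : β f g ∈ S) (hgg : β g g ∈ S) {α : G}
    (hα : α ∈ PP β S (H ⊔ Subgroup.closure {f, g})) :
    ∃ x y : A, ∃ α' ∈ PP β S H, α = β x y * α' := by
  have hinv : ∀ u v, β v u = (β u v)⁻¹ := fun u v => eq_inv_of_mul_eq_one_right (hsk u v)
  obtain ⟨b, hb, c, hc, a, ha, rfl⟩ := PP_sup_le_QQ hsk hff hfg hgg hα
  refine ⟨f * c, b * g⁻¹, β b c * β f g * a, ?_, ?_⟩
  · exact mul_mem (mul_mem (apply_mem_PP S hb hc) (le_PP S H hfg)) ha
  · simp only [map_mul, map_inv, MonoidHom.mul_apply]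
    rw [hinv b c, hinv g c]
    generalize (β f) b = t1
    generalize (β f) g = t2
    generalize (β b) c = t3
    generalize (β g) c = t4
    rw [mul_inv, inv_inv]
    have : t1 * t3⁻¹ * (t2⁻¹ * t4) * (t3 * t2 * a) = t1 * t4 * (t3⁻¹ * t3) * (t2⁻¹ * t2) * a := by
      simp only [mul_assoc, mul_left_comm, mul_comm]
    rw [this, inv_mul_cancel, inv_mul_cancel, mul_one, mul_one]

/-- `r` pairs contribute `r` symbols. -/
theorem exists_prod_of_mem_PP_sup (hsk : ∀ u v, β u v * β v u = 1) {S : Subgroup G}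
    {H : Subgroup A} {r : ℕ} (f g : Fin r → A) (hff : ∀ i, β (f i) (f i) ∈ S)
    (hfg : ∀ i, β (f i) (g i) ∈ S) (hgg : ∀ i, β (g i) (g i) ∈ S) {α : G}
    (hα : α ∈ PP β S (H ⊔ Subgroup.closure (Set.range f ∪ Set.range g))) :
    ∃ x y : Fin r → A, ∃ α' ∈ PP β S H, α = (∏ i, β (x i) (y i)) * α' := by
  induction r generalizing α with
  | zero =>
    refine ⟨f, g, α, ?_, by simp⟩
    have h1 : Set.range f ∪ Set.range g = ∅ := by
      simp
    rwa [h1, Subgroup.closure_empty, sup_bot_eq] at hα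
  | succ r ih =>
    have hle : H ⊔ Subgroup.closure (Set.range f ∪ Set.range g) ≤
        (H ⊔ Subgroup.closure (Set.range (fun i : Fin r => f i.succ) ∪
          Set.range (fun i : Fin r => g i.succ))) ⊔ Subgroup.closure {f 0, g 0} := by
      refine sup_le (le_sup_left.trans le_sup_left) ?_
      rw [Subgroup.closure_le]
      rintro _ (⟨i, rfl⟩ | ⟨i, rfl⟩)
      · refine Fin.cases ?_ (fun i => ?_) i
        · exact (le_sup_right : _ ≤ (H ⊔ Subgroup.closure (Set.range (fun i : Fin r => f i.succ) ∪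
          Set.range (fun i : Fin r => g i.succ))) ⊔ Subgroup.closure {f 0, g 0})
            (Subgroup.subset_closure (by simp))
        · exact (le_sup_left : _ ≤ (H ⊔ Subgroup.closure (Set.range (fun i : Fin r => f i.succ) ∪
          Set.range (fun i : Fin r => g i.succ))) ⊔ Subgroup.closure {f 0, g 0})
            ((le_sup_right : _ ≤ H ⊔ Subgroup.closure (Set.range (fun i : Fin r => f i.succ) ∪
          Set.range (fun i : Fin r => g i.succ)))
            (Subgroup.subset_closure (Or.inl ⟨i, rfl⟩)))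
      · refine Fin.cases ?_ (fun i => ?_) i
        · exact (le_sup_right : _ ≤ (H ⊔ Subgroup.closure (Set.range (fun i : Fin r => f i.succ) ∪
          Set.range (fun i : Fin r => g i.succ))) ⊔ Subgroup.closure {f 0, g 0})
            (Subgroup.subset_closure (by simp))
        · exact (le_sup_left : _ ≤ (H ⊔ Subgroup.closure (Set.range (fun i : Fin r => f i.succ) ∪
          Set.range (fun i : Fin r => g i.succ))) ⊔ Subgroup.closure {f 0, g 0})
            ((le_sup_right : _ ≤ H ⊔ Subgroup.closure (Set.range (fun i : Fin r => f i.succ) ∪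
          Set.range (fun i : Fin r => g i.succ)))
            (Subgroup.subset_closure (Or.inr ⟨i, rfl⟩)))
    obtain ⟨x, y, α₁, hα₁, rfl⟩ := exists_of_mem_PP_sup hsk (hff 0) (hfg 0) (hgg 0)
      (PP_mono hle hα)
    obtain ⟨xs, ys, α₂, hα₂, rfl⟩ := ih (fun i => f i.succ) (fun i => g i.succ)
      (fun i => hff _) (fun i => hfg _) (fun i => hgg _) hα₁
    refine ⟨Fin.cons x xs, Fin.cons y ys, α₂, hα₂, ?_⟩
    rw [Fin.prod_univ_succ]
    simp [mul_assoc]

end GroupLemma

end Pool.Agent.Lib.MP_43d240_ag
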