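import Pool.Agent.Lib.MP_43d240_ag.Basic

/-!
# Dimension of modules over a matrix algebra over a division algebra, and the index
-/

set_option autoImplicit false

open scoped TensorProduct

universe u v w x

namespace Pool.Agent.Lib.MP_43d240_ag

section Corner

variable {K : Type u} [Field K] {D : Type v} [DivisionRing D] [Algebra K D]
variable {ι : Type x} [Fintype ι] [DecidableEq ι]
variable (V : Type w) [AddCommGroup V] [Module K V] [Module (Matrix ι ι D) V]
  [IsScalarTower K (Matrix ι ι D) V]

theorem single_smul_smul (i j k : ι) (d d' : D) (v : V) :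
    Matrix.single i j d • (Matrix.single j k d' • v) = Matrix.single i k (d * d') • v := by
  rw [smul_smul, Matrix.single_mul_single_same]

theorem single_smul_smul_of_ne (i j j' k : ι) (h : j ≠ j') (d d' : D) (v : V) :
    Matrix.single i j d • (Matrix.single j' k d' • v) = 0 := by
  rw [smul_smul, Matrix.single_mul_single_of_ne (h := h), zero_smul]

/-- The corner `e V`. -/
def corner (K : Type u) [Field K] (D : Type v) [DivisionRing D] [Algebra K D]
    (V : Type w) [AddCommGroup V] [Module K V] [Module (Matrix ι ι D) V]
    [IsScalarTower K (Matrix ι ι D) V] (i : ι) : Submodule K V where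
  carrier := {v | Matrix.single i i (1 : D) • v = v}
  add_mem' := by
    intro a b ha hb
    simp only [Set.mem_setOf_eq] at *
    rw [smul_add, ha, hb]
  zero_mem' := by simp
  smul_mem' := by
    intro c v hv
    simp only [Set.mem_setOf_eq] at *
    have : SMulCommClass K (Matrix ι ι D) V := IsScalarTower.to_smulCommClass
    rw [smul_comm, hv]

variable {V}

theorem mem_corner {i : ι} {v : V} : v ∈ corner K D V i ↔ Matrix.single i i (1 : D) • v = v :=
  Iff.rfl

theorem single_smul_mem_corner (i j : ι) (d : D) (v : V) :
    Matrix.single i j d • v ∈ corner K D V i := by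
  rw [mem_corner, single_smul_smul, one_mul]

instance cornerModule (i : ι) : Module D (corner K D V i) where
  smul d w := ⟨Matrix.single i i d • (w : V), single_smul_mem_corner i i d _⟩
  one_smul w := Subtype.ext w.2
  mul_smul d d' w := Subtype.ext (by
    change Matrix.single i i (d * d') • (w : V) =
      Matrix.single i i d • (Matrix.single i i d' • (w : V))
    rw [single_smul_smul])
  smul_zero d := Subtype.ext (by
    change Matrix.single i i d • ((0 : corner K D V i) : V) = _
    simp)
  smul_add d w w' := Subtype.ext (by
    change Matrix.single i i d • ((w + w' : corner K D V i) : V) =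
      Matrix.single i i d • (w : V) + Matrix.single i i d • (w' : V)
    rw [Submodule.coe_add, smul_add])
  add_smul d d' w := Subtype.ext (by
    change Matrix.single i i (d + d') • (w : V) =
      Matrix.single i i d • (w : V) + Matrix.single i i d' • (w : V)
    rw [Matrix.single_add, add_smul])
  zero_smul w := Subtype.ext (by
    change Matrix.single i i (0 : D) • (w : V) = _
    rw [Matrix.single_zero, zero_smul]
    rfl)

theorem corner_smul_coe (i : ι) (d : D) (w : corner K D V i) :
    ((d • w : corner K D V i) : V) = Matrix.single i i d • (w : V) := rfl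

instance (i : ι) : IsScalarTower K D (corner K D V i) where
  smul_assoc c d w := Subtype.ext (by
    rw [corner_smul_coe, Submodule.coe_smul, corner_smul_coe, ← Matrix.smul_single,
      smul_assoc])

/-- `V ≅ (e V)^ι`. -/
noncomputable def cornerEquiv (i : ι) : V ≃ₗ[K] (ι → corner K D V i) where
  toFun v j := ⟨Matrix.single i j (1 : D) • v, single_smul_mem_corner i j 1 v⟩
  map_add' v v' := by
    funext j; apply Subtype.ext; simp
  map_smul' c v := by
    have : SMulCommClass K (Matrix ι ι D) V := IsScalarTower.to_smulCommClass
    funext j; apply Subtype.ext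
    change Matrix.single i j (1 : D) • (c • v) = c • (Matrix.single i j (1 : D) • v)
    rw [smul_comm]
  invFun w := ∑ j, Matrix.single j i (1 : D) • (w j : V)
  left_inv v := by
    change ∑ j, Matrix.single j i (1 : D) • (Matrix.single i j (1 : D) • v) = v
    simp only [single_smul_smul, mul_one]
    rw [← Finset.sum_smul, Matrix.sum_single_one, one_smul]
  right_inv w := by
    funext k
    apply Subtype.ext
    change Matrix.single i k (1 : D) • (∑ j, Matrix.single j i (1 : D) • (w j : V)) = w k
    rw [Finset.smul_sum, Finset.sum_eq_single k]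
    · rw [single_smul_smul, one_mul]
      exact (w k).2
    · intro j _ hj
      rw [single_smul_smul_of_ne _ _ _ _ _ hj.symm]
    · intro h
      exact absurd (Finset.mem_univ k) h

theorem card_mul_finrank_dvd (K : Type u) [Field K] (D : Type v) [DivisionRing D] [Algebra K D]
    (ι : Type x) [Fintype ι] [DecidableEq ι] [Nonempty ι]
    (V : Type w) [AddCommGroup V] [Module K V] [Module (Matrix ι ι D) V]
    [IsScalarTower K (Matrix ι ι D) V] [FiniteDimensional K V] [FiniteDimensional K D] :
    Fintype.card ι * Module.finrank K D ∣ Module.finrank K V := by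
  obtain ⟨i⟩ := ‹Nonempty ι›
  have h := Module.finrank_mul_finrank K D (corner K D V i)
  rw [(cornerEquiv (K := K) (D := D) (V := V) i).finrank_eq, Module.finrank_pi_fintype,
    Finset.sum_const, smul_eq_mul, Finset.card_univ, ← h]
  exact ⟨Module.finrank D (corner K D V i), by ring⟩

end Corner

section Index

variable {K : Type u} [Field K] {D : Type v} [DivisionRing D] [Algebra K D]
  [FiniteDimensional K D] {A : Type w} [Ring A] [Algebra K A]

theorem index_dvd_of_BE {N : ℕ} (hN : N ≠ 0) (hA : Module.finrank K A = N * N)
    (h : BE K D A) : Nat.sqrt (Module.finrank K D) ∣ N := by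
  obtain ⟨s, t, hs, ht, ⟨e⟩⟩ := h
  have : NeZero s := ⟨hs⟩
  have : NeZero t := ⟨ht⟩
  have hfA : FiniteDimensional K A := Module.finite_of_finrank_pos (by rw [hA]; positivity)
  set d := Module.finrank K D with hd
  have h1 : s * s * d = t * t * (N * N) := by
    have := e.toLinearEquiv.finrank_eq
    rw [Module.finrank_matrix, Module.finrank_matrix, hA] at this
    simpa using this
  -- the module of column vectors
  let V := Fin t → A
  letI modV : Module (Matrix (Fin s) (Fin s) D) V :=
    { smul := fun m v => Matrix.mulVec (e m) v
      one_smul := fun v => by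
        change Matrix.mulVec (e 1) v = v
        rw [map_one, Matrix.one_mulVec]
      mul_smul := fun m m' v => by
        change Matrix.mulVec (e (m * m')) v = Matrix.mulVec (e m) (Matrix.mulVec (e m') v)
        rw [map_mul, Matrix.mulVec_mulVec]
      smul_zero := fun m => by
        change Matrix.mulVec (e m) 0 = 0
        rw [Matrix.mulVec_zero]
      smul_add := fun m v v' => by
        change Matrix.mulVec (e m) (v + v') = Matrix.mulVec (e m) v + Matrix.mulVec (e m) v'
        rw [Matrix.mulVec_add]
      add_smul := fun m m' v => by
        change Matrix.mulVec (e (m + m')) v = Matrix.mulVec (e m) v + Matrix.mulVec (e m') v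
        rw [map_add, Matrix.add_mulVec]
      zero_smul := fun v => by
        change Matrix.mulVec (e 0) v = 0
        rw [map_zero, Matrix.zero_mulVec] }
  have hst : IsScalarTower K (Matrix (Fin s) (Fin s) D) V := ⟨fun c m v => by
    change Matrix.mulVec (e (c • m)) v = c • Matrix.mulVec (e m) v
    rw [map_smul, Matrix.smul_mulVec]⟩
  have h2 := card_mul_finrank_dvd K D (Fin s) V
  have h3 : Module.finrank K V = t * (N * N) := by
    rw [Module.finrank_pi_fintype, Finset.sum_const, hA]
    simp
  rw [h3, Fintype.card_fin, ← hd] at h2
  have h4 : s ∣ t * N := by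
    have : s ^ 2 ∣ (t * N) ^ 2 := ⟨d, by nlinarith [h1]⟩
    exact (Nat.pow_dvd_pow_iff two_ne_zero).1 this
  obtain ⟨f, hf⟩ := h4
  have h5 : d = f * f := by
    have h6 : s * s * d = s * s * (f * f) := by
      calc s * s * d = (t * N) * (t * N) := by rw [h1]; ring
        _ = s * s * (f * f) := by rw [hf]; ring
    exact Nat.eq_of_mul_eq_mul_left (Nat.mul_pos (Nat.pos_of_ne_zero hs) (Nat.pos_of_ne_zero hs)) h6
  have h7 : Nat.sqrt d = f := by rw [h5]; exact Nat.sqrt_eq f
  rw [h7]
  have h8 : (s * f) * f ∣ (s * f) * N := by
    have : t * (N * N) = (s * f) * N := by rw [← hf]; ring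
    rw [← this]
    have h9 : s * f * f = s * d := by rw [h5]; ring
    rw [h9]; exact h2
  have hsf : 0 < s * f := by
    rw [← hf]; exact Nat.mul_pos (Nat.pos_of_ne_zero ht) (Nat.pos_of_ne_zero hN)
  exact Nat.dvd_of_mul_dvd_mul_left hsf h8

end Index

end Pool.Agent.Lib.MP_43d240_ag
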