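import Pool.Agent.Lib.MP_43d240_ag.Rep
import Pool.Agent.Lib.MP_43d240_ag.Index
import Pool.Agent.Lib.MP_43d240_ag.GroupLemma

/-!
# The symbol pairing with values in the group of classes
-/

set_option autoImplicit false

open scoped TensorProduct

universe u v w x

namespace Pool.Agent.Lib.MP_43d240_ag

section Beta

variable {K : Type u} [Field K] {n : ℕ} {ζ : K}

/-- The class of the symbol algebra `(a,b)`, as a unit of the monoid of classes. -/
noncomputable def sy (hζ : IsPrimitiveRoot ζ n) (hn : n ≠ 0) (a b : Kˣ) : (BrM K)ˣ where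
  val := cls K (Symb n ζ (a : K) (b : K))
  inv := cls K (Symb n ζ (b : K) (a : K))
  val_inv := Symb.cls_mul_swap hζ hn a.ne_zero b.ne_zero
  inv_val := Symb.cls_mul_swap hζ hn b.ne_zero a.ne_zero

theorem sy_val (hζ : IsPrimitiveRoot ζ n) (hn : n ≠ 0) (a b : Kˣ) :
    (sy hζ hn a b : BrM K) = cls K (Symb n ζ (a : K) (b : K)) := rfl

theorem sy_swap (hζ : IsPrimitiveRoot ζ n) (hn : n ≠ 0) (a b : Kˣ) :
    sy hζ hn b a = (sy hζ hn a b)⁻¹ := rfl

theorem sy_mul_right (hζ : IsPrimitiveRoot ζ n) (hn : n ≠ 0) (a b c : Kˣ) :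
    sy hζ hn a (b * c) = sy hζ hn a b * sy hζ hn a c := by
  apply Units.ext
  rw [Units.val_mul, sy_val, sy_val, sy_val,
    Symb.cls_mul_right hζ hn a.ne_zero b.ne_zero c.ne_zero, Units.val_mul]

theorem sy_mul_left (hζ : IsPrimitiveRoot ζ n) (hn : n ≠ 0) (a b c : Kˣ) :
    sy hζ hn (a * b) c = sy hζ hn a c * sy hζ hn b c := by
  rw [sy_swap hζ hn c (a * b), sy_mul_right, mul_inv, ← sy_swap, ← sy_swap]

/-- The symbol pairing. -/
noncomputable def beta (hζ : IsPrimitiveRoot ζ n) (hn : n ≠ 0) : Kˣ →* Kˣ →* (BrM K)ˣ :=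
  MonoidHom.mk' (fun a => MonoidHom.mk' (fun b => sy hζ hn a b) (fun b c => sy_mul_right hζ hn a b c))
    (fun a b => MonoidHom.ext fun c => sy_mul_left hζ hn a b c)

theorem beta_val (hζ : IsPrimitiveRoot ζ n) (hn : n ≠ 0) (a b : Kˣ) :
    (beta hζ hn a b : BrM K) = cls K (Symb n ζ (a : K) (b : K)) := rfl

theorem beta_skew (hζ : IsPrimitiveRoot ζ n) (hn : n ≠ 0) (a b : Kˣ) :
    beta hζ hn a b * beta hζ hn b a = 1 := by
  change sy hζ hn a b * sy hζ hn b a = 1
  rw [sy_swap hζ hn a b, mul_inv_cancel]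

theorem beta_eq_one (hζ : IsPrimitiveRoot ζ n) (hn : n ≠ 0) {a b : Kˣ}
    (h : Symb.HasRep n ζ (a : K) (b : K)) : beta hζ hn a b = 1 := by
  apply Units.ext
  rw [beta_val, h.cls_eq_one hζ hn a.ne_zero b.ne_zero, Units.val_one]

theorem beta_pow_left (hζ : IsPrimitiveRoot ζ n) (hn : n ≠ 0) (a b : Kˣ) :
    beta hζ hn (a ^ n) b = 1 := by
  apply beta_eq_one
  have h := (Symb.hasRep_one hζ.pow_eq_one hn (b : K)).smul (a : K) 1
  simpa using h

theorem beta_pow_right (hζ : IsPrimitiveRoot ζ n) (hn : n ≠ 0) (a b : Kˣ) :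
    beta hζ hn a (b ^ n) = 1 := by
  have h := beta_skew hζ hn (b ^ n) a
  rwa [beta_pow_left, one_mul] at h

/-- The tensor product of a list of symbol algebras. -/
noncomputable def SymbTensor (n : ℕ) (ζ : K) : List (Kˣ × Kˣ) → BAlg K
  | [] => ⟨K⟩
  | p :: l => ⟨Symb n ζ (p.1 : K) (p.2 : K) ⊗[K] (SymbTensor n ζ l).carrier⟩

theorem cls_symbTensor (hζ : IsPrimitiveRoot ζ n) (hn : n ≠ 0) (l : List (Kˣ × Kˣ)) :
    cls K (SymbTensor n ζ l).carrier =
      (((l.map (fun p => beta hζ hn p.1 p.2)).prod : (BrM K)ˣ) : BrM K) := by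
  induction l with
  | nil =>
    simp only [List.map_nil, List.prod_nil, Units.val_one]
    rfl
  | cons p l ih =>
    rw [List.map_cons, List.prod_cons, Units.val_mul, ← ih, beta_val, ← cls_tensor]
    rfl

theorem finiteDimensional_symbTensor (hζ : IsPrimitiveRoot ζ n) (hn : n ≠ 0)
    (l : List (Kˣ × Kˣ)) : FiniteDimensional K (SymbTensor n ζ l).carrier := by
  induction l with
  | nil => exact inferInstanceAs (FiniteDimensional K K)
  | cons p l ih =>
    have := Symb.finiteDimensional (a := (p.1 : K)) (b := (p.2 : K)) hζ hn p.1.ne_zero p.2.ne_zero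
    exact inferInstanceAs (FiniteDimensional K
      (Symb n ζ (p.1 : K) (p.2 : K) ⊗[K] (SymbTensor n ζ l).carrier))

theorem finrank_symbTensor (hζ : IsPrimitiveRoot ζ n) (hn : n ≠ 0) (l : List (Kˣ × Kˣ)) :
    Module.finrank K (SymbTensor n ζ l).carrier = n ^ l.length * n ^ l.length := by
  induction l with
  | nil =>
    change Module.finrank K K = _
    simp
  | cons p l ih =>
    have h1 := Symb.finiteDimensional (a := (p.1 : K)) (b := (p.2 : K)) hζ hn p.1.ne_zero
      p.2.ne_zero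
    have h2 := finiteDimensional_symbTensor hζ hn l
    change Module.finrank K (Symb n ζ (p.1 : K) (p.2 : K) ⊗[K] (SymbTensor n ζ l).carrier) = _
    rw [Module.finrank_tensorProduct, ih, Symb.finrank_eq hζ hn p.1.ne_zero p.2.ne_zero,
      List.length_cons]
    ring

end Beta

end Pool.Agent.Lib.MP_43d240_ag
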