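import Pool.Agent.Lib.MP_43d240_ag.SymplecticInt

/-!
# The block step

`β : A →+ A →+ G` is skew-symmetric and killed by `n`.  A block of `2 g` elements with a
nondegenerate relation contributes `g` symbols.
-/

set_option autoImplicit false

namespace Pool.Agent.Lib.MP_43d240_ag

section Additive

variable {A G : Type*} [AddCommGroup A] [AddCommGroup G] (β : A →+ A →+ G)

/-- The subgroup generated by the values of `β` on `H × H`, together with `S`. -/
def AP (S : AddSubgroup G) (H : AddSubgroup A) : AddSubgroup G :=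
  AddSubgroup.closure {g | ∃ u ∈ H, ∃ v ∈ H, g = β u v} ⊔ S

variable {β}

theorem le_AP (S : AddSubgroup G) (H : AddSubgroup A) : S ≤ AP β S H := le_sup_right

theorem apply_mem_AP (S : AddSubgroup G) {H : AddSubgroup A} {u v : A} (hu : u ∈ H) (hv : v ∈ H) :
    β u v ∈ AP β S H :=
  (le_sup_left : _ ≤ AP β S H) (AddSubgroup.subset_closure ⟨u, hu, v, hv, rfl⟩)

theorem AP_le {S : AddSubgroup G} {H : AddSubgroup A} {T : AddSubgroup G} (hS : S ≤ T)
    (hT : ∀ u ∈ H, ∀ v ∈ H, β u v ∈ T) : AP β S H ≤ T := by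
  refine sup_le ?_ hS
  rw [AddSubgroup.closure_le]
  rintro _ ⟨u, hu, v, hv, rfl⟩
  exact hT u hu v hv

theorem AP_mono {S : AddSubgroup G} {H H' : AddSubgroup A} (h : H ≤ H') :
    AP β S H ≤ AP β S H' :=
  AP_le (le_AP S H') (fun _ hu _ hv => apply_mem_AP S (h hu) (h hv))

section Block

variable {N : ℕ} (f : Fin N → A)

/-- The quadratic part. -/
def Phi (β : A →+ A →+ G) (f : Fin N → A) (c : Fin N → Fin N → ℤ) : G :=
  ∑ i, ∑ j, c i j • β (f i) (f j)

theorem Phi_add (c d : Fin N → Fin N → ℤ) :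
    Phi β f (fun i j => c i j + d i j) = Phi β f c + Phi β f d := by
  simp only [Phi, add_smul, Finset.sum_add_distrib]

theorem Phi_smul (m : ℤ) (c : Fin N → Fin N → ℤ) :
    Phi β f (fun i j => m * c i j) = m • Phi β f c := by
  simp only [Phi, mul_smul, Finset.smul_sum]

theorem Phi_neg (c : Fin N → Fin N → ℤ) :
    Phi β f (fun i j => - c i j) = - Phi β f c := by
  simp only [Phi, neg_smul, Finset.sum_neg_distrib]

theorem Phi_mem_of_symm {n : ℕ} (hsk : ∀ u v, β u v + β v u = 0) (hn : ∀ u v, n • β u v = 0)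
    {S : AddSubgroup G} (hff : ∀ i, β (f i) (f i) ∈ S) (c : Fin N → Fin N → ℤ)
    (hc : ∀ i j, ((c i j - c j i : ℤ) : ZMod n) = 0) : Phi β f c ∈ S := by
  have h1 : Phi β f c = ∑ i, c i i • β (f i) (f i) +
      ∑ i, ∑ j ∈ {i}ᶜ, c j i • β (f j) (f i) := by
    unfold Phi
    rw [Finset.sum_comm, ← Finset.sum_add_distrib]
    refine Finset.sum_congr rfl (fun i _ => ?_)
    rw [← Finset.sum_add_sum_compl {i}, Finset.sum_singleton]
  have h2 : ∑ i, ∑ j ∈ {i}ᶜ, c j i • β (f j) (f i) = 0 := by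
    rw [← Finset.sum_sum_Ioi_add_eq_sum_sum_off_diag (fun j i => c j i • β (f j) (f i))]
    refine Finset.sum_eq_zero (fun i _ => Finset.sum_eq_zero (fun j _ => ?_))
    obtain ⟨z, hz⟩ := (ZMod.intCast_zmod_eq_zero_iff_dvd _ n).1 (hc i j)
    have h3 : c i j = c j i + n * z := by linarith
    have h4 : β (f i) (f j) = - β (f j) (f i) := eq_neg_of_add_eq_zero_left (hsk _ _)
    rw [h3, add_smul, h4, mul_comm, mul_smul, smul_neg, smul_neg, natCast_zsmul, hn]
    simp
  rw [h1, h2, add_zero]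
  exact AddSubgroup.sum_mem _ (fun i _ => AddSubgroup.zsmul_mem _ (hff i) _)

/-- The elements of the shape `Φ(a) + ∑ β (f i) (c i) + s`. -/
def BQ (β : A →+ A →+ G) (S : AddSubgroup G) (H : AddSubgroup A) (f : Fin N → A) :
    AddSubgroup G where
  carrier := {x | ∃ (a : Fin N → Fin N → ℤ) (c : Fin N → A) (_ : ∀ i, c i ∈ H),
    ∃ s ∈ AP β S H, x = Phi β f a + ∑ i, β (f i) (c i) + s}
  add_mem' := by
    rintro _ _ ⟨a, c, hc, s, hs, rfl⟩ ⟨a', c', hc', s', hs', rfl⟩
    refine ⟨fun i j => a i j + a' i j, fun i => c i + c' i, fun i => H.add_mem (hc i) (hc' i),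
      s + s', (AP β S H).add_mem hs hs', ?_⟩
    simp only [Phi_add, map_add, Finset.sum_add_distrib]
    abel
  zero_mem' := ⟨fun _ _ => 0, fun _ => 0, fun _ => H.zero_mem, 0, (AP β S H).zero_mem, by
    simp [Phi]⟩
  neg_mem' := by
    rintro _ ⟨a, c, hc, s, hs, rfl⟩
    refine ⟨fun i j => - a i j, fun i => - c i, fun i => H.neg_mem (hc i), -s,
      (AP β S H).neg_mem hs, ?_⟩
    simp only [Phi_neg, map_neg, Finset.sum_neg_distrib]
    abel

theorem exists_of_mem_closure_range {z : A} (hz : z ∈ AddSubgroup.closure (Set.range f)) :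
    ∃ x : Fin N → ℤ, z = ∑ i, x i • f i := by
  induction hz using AddSubgroup.closure_induction with
  | mem z hz =>
    obtain ⟨i, rfl⟩ := hz
    refine ⟨Pi.single i 1, ?_⟩
    rw [Finset.sum_eq_single i]
    · simp
    · intro j _ hj
      rw [Pi.single_eq_of_ne hj, zero_smul]
    · intro h; exact absurd (Finset.mem_univ i) h
  | zero => exact ⟨0, by simp⟩
  | add y z _ _ hy hz =>
    obtain ⟨x, rfl⟩ := hy
    obtain ⟨x', rfl⟩ := hz
    exact ⟨x + x', by simp [add_smul, Finset.sum_add_distrib]⟩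
  | neg y _ hy =>
    obtain ⟨x, rfl⟩ := hy
    exact ⟨-x, by simp⟩

theorem apply_sum_sum (x y : Fin N → ℤ) (f' : Fin N → A) :
    β (∑ i, x i • f i) (∑ j, y j • f' j) = ∑ i, ∑ j, (x i * y j) • β (f i) (f' j) := by
  rw [map_sum β, AddMonoidHom.finset_sum_apply]
  refine Finset.sum_congr rfl (fun i _ => ?_)
  rw [map_zsmul, AddMonoidHom.smul_apply, map_sum, Finset.smul_sum]
  refine Finset.sum_congr rfl (fun j _ => ?_)
  rw [map_zsmul, mul_smul]

theorem AP_sup_le_BQ (hsk : ∀ u v, β u v + β v u = 0) {S : AddSubgroup G} {H : AddSubgroup A} :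
    AP β S (H ⊔ AddSubgroup.closure (Set.range f)) ≤ BQ β S H f := by
  have hneg : ∀ u v, β u v = - β v u := fun u v => eq_neg_of_add_eq_zero_left (hsk u v)
  refine AP_le ?_ ?_
  · intro s hs
    exact ⟨fun _ _ => 0, fun _ => 0, fun _ => H.zero_mem, s, le_AP S H hs, by simp [Phi]⟩
  · intro u hu v hv
    rw [AddSubgroup.mem_sup] at hu hv
    obtain ⟨h, hh, w, hw, rfl⟩ := hu
    obtain ⟨h', hh', w', hw', rfl⟩ := hv
    obtain ⟨x, rfl⟩ := exists_of_mem_closure_range f hw
    obtain ⟨y, rfl⟩ := exists_of_mem_closure_range f hw'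
    refine ⟨fun i j => x i * y j, fun i => x i • h' - y i • h,
      fun i => H.sub_mem (H.zsmul_mem hh' _) (H.zsmul_mem hh _), β h h', apply_mem_AP S hh hh', ?_⟩
    have h1 : β h (∑ i, y i • f i) = - ∑ i, y i • β (f i) h := by
      rw [map_sum, ← Finset.sum_neg_distrib]
      refine Finset.sum_congr rfl (fun i _ => ?_)
      rw [map_zsmul, hneg h (f i), smul_neg]
    have h2 : β (∑ i, x i • f i) h' = ∑ i, x i • β (f i) h' := by
      rw [map_sum, AddMonoidHom.finset_sum_apply]
      refine Finset.sum_congr rfl (fun i _ => ?_)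
      rw [map_zsmul, AddMonoidHom.smul_apply]
    have h3 : β (∑ i, x i • f i) (∑ i, y i • f i) = Phi β f (fun i j => x i * y j) :=
      apply_sum_sum f x y f
    rw [map_add, map_add, AddMonoidHom.add_apply, AddMonoidHom.add_apply, h1, h2, h3]
    simp only [map_sub, map_zsmul, Finset.sum_sub_distrib]
    abel

end Block

theorem block_step {n g : ℕ} (hn0 : n ≠ 0) (hsk : ∀ u v, β u v + β v u = 0)
    (hn : ∀ u v, n • β u v = 0) {S : AddSubgroup G} {H : AddSubgroup A} (f : Fin (2 * g) → A)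
    (hff : ∀ i, β (f i) (f i) ∈ S) (t : Matrix (Fin (2 * g)) (Fin (2 * g)) ℤ)
    (ht : ∑ i, ∑ j, t i j • β (f i) (f j) ∈ S) (hdet : IsCoprime (t - t.transpose).det (n : ℤ))
    (hp : ∀ p : ℕ, p.Prime → p ∣ n → g < p) {α : G}
    (hα : α ∈ AP β S (H ⊔ AddSubgroup.closure (Set.range f))) :
    ∃ x y : Fin g → A, ∃ α' ∈ AP β S H, α = ∑ k, β (x k) (y k) + α' := by
  have hneg : ∀ u v, β u v = - β v u := fun u v => eq_neg_of_add_eq_zero_left (hsk u v)
  have hnz : ∀ (z : ℤ) u v, ((n : ℤ) * z) • β u v = 0 := by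
    intro z u v
    rw [mul_comm, mul_smul, natCast_zsmul, hn, smul_zero]
  obtain ⟨a, c, hc, s, hs, rfl⟩ := AP_sup_le_BQ f hsk hα
  obtain ⟨m, Q, Q', P, P', hQP, hdec⟩ := exists_int_data hn0 (by simp) hp a t hdet
  let b : Fin (2 * g) → Fin (2 * g) → ℤ := fun i j => ∑ k, Q i k * Q' j k
  let u : Fin g → A := fun k => ∑ i, Q i k • f i
  let v : Fin g → A := fun k => ∑ i, Q' i k • f i
  let d : Fin g → A := fun k => ∑ i, P k i • c i
  let d' : Fin g → A := fun k => ∑ i, P' k i • c i
  have hd : ∀ k, d k ∈ H := fun k => H.sum_mem (fun i _ => H.zsmul_mem (hc i) _)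
  have hd' : ∀ k, d' k ∈ H := fun k => H.sum_mem (fun i _ => H.zsmul_mem (hc i) _)
  -- the quadratic part
  have hb : Phi β f b = ∑ k, β (u k) (v k) := by
    have h1 : ∀ k, β (u k) (v k) = ∑ i, ∑ j, (Q i k * Q' j k) • β (f i) (f j) := fun k =>
      apply_sum_sum f _ _ f
    simp only [h1, Phi, b, Finset.sum_smul]
    rw [Finset.sum_comm]
    calc ∑ j, ∑ i, ∑ k, (Q i k * Q' j k) • β (f i) (f j)
        = ∑ j, ∑ k, ∑ i, (Q i k * Q' j k) • β (f i) (f j) :=
          Finset.sum_congr rfl (fun j _ => Finset.sum_comm)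
      _ = ∑ k, ∑ j, ∑ i, (Q i k * Q' j k) • β (f i) (f j) := Finset.sum_comm
      _ = ∑ k, ∑ i, ∑ j, (Q i k * Q' j k) • β (f i) (f j) :=
          Finset.sum_congr rfl (fun k _ => Finset.sum_comm)
  have hquad : ∃ s' ∈ AP β S H, Phi β f a = ∑ k, β (u k) (v k) + s' := by
    refine ⟨Phi β f (fun i j => (a i j + m * t i j) - b i j) - m • Phi β f t, ?_, ?_⟩
    · refine (AP β S H).sub_mem (le_AP S H ?_) (le_AP S H (S.zsmul_mem ht m))
      refine Phi_mem_of_symm f hsk hn hff _ (fun i j => ?_)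
      have h1 := hdec i j
      push_cast at h1 ⊢
      simp only [b]
      push_cast
      rw [Finset.sum_sub_distrib] at h1
      have h2 : ∑ k, ((Q' i k : ZMod n) * Q j k) = ∑ k, ((Q j k : ZMod n) * Q' i k) :=
        Finset.sum_congr rfl (fun k _ => mul_comm _ _)
      rw [h2] at h1
      linear_combination h1
    · have h1 : Phi β f (fun i j => (a i j + m * t i j) - b i j) =
          Phi β f a + m • Phi β f t - Phi β f b := by
        have h2 := Phi_add (β := β) f (fun i j => a i j + m * t i j) (fun i j => - b i j)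
        have h3 := Phi_neg (β := β) f b
        have h4 := Phi_add (β := β) f a (fun i j => m * t i j)
        have h5 := Phi_smul (β := β) f m t
        rw [h3, h4, h5, ← sub_eq_add_neg] at h2
        exact h2
      rw [h1, hb]
      abel
  -- the cross terms
  have hcross : ∑ i, β (f i) (c i) = ∑ k, (β (u k) (d k) + β (v k) (d' k)) := by
    have h1 : ∀ k, β (u k) (d k) + β (v k) (d' k) =
        ∑ i, ∑ j, (Q i k * P k j + Q' i k * P' k j) • β (f i) (c j) := by
      intro k
      simp only [add_smul, Finset.sum_add_distrib]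
      congr 1
      · exact apply_sum_sum f _ _ c
      · exact apply_sum_sum f _ _ c
    simp only [h1]
    have h2 : ∀ i j, ∑ k, (Q i k * P k j + Q' i k * P' k j) • β (f i) (c j) =
        if i = j then β (f i) (c j) else 0 := by
      intro i j
      rw [← Finset.sum_smul]
      have h3 := hQP i j
      have h4 : ((∑ k, (Q i k * P k j + Q' i k * P' k j) - (if i = j then 1 else 0) : ℤ) :
          ZMod n) = 0 := by
        rw [Int.cast_sub, h3]
        split_ifs <;> simp
      obtain ⟨z, hz⟩ := (ZMod.intCast_zmod_eq_zero_iff_dvd _ n).1 h4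
      have h5 : ∑ k, (Q i k * P k j + Q' i k * P' k j) = (if i = j then 1 else 0) + n * z := by
        linarith
      rw [h5, add_smul, hnz, add_zero]
      split_ifs <;> simp
    calc ∑ i, β (f i) (c i) = ∑ i, ∑ j, (if i = j then β (f i) (c j) else 0) := by
          refine Finset.sum_congr rfl (fun i _ => ?_)
          rw [Finset.sum_ite_eq Finset.univ i (fun j => β (f i) (c j))]
          simp
      _ = ∑ i, ∑ j, ∑ k, (Q i k * P k j + Q' i k * P' k j) • β (f i) (c j) := by
          simp only [h2]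
      _ = ∑ i, ∑ k, ∑ j, (Q i k * P k j + Q' i k * P' k j) • β (f i) (c j) :=
          Finset.sum_congr rfl (fun i _ => Finset.sum_comm)
      _ = ∑ k, ∑ i, ∑ j, (Q i k * P k j + Q' i k * P' k j) • β (f i) (c j) := Finset.sum_comm
  obtain ⟨s', hs', hq⟩ := hquad
  refine ⟨fun k => u k - d' k, fun k => v k + d k, ∑ k, β (d' k) (d k) + s' + s, ?_, ?_⟩
  · refine (AP β S H).add_mem ((AP β S H).add_mem ?_ hs') hs
    exact (AP β S H).sum_mem (fun k _ => apply_mem_AP S (hd' k) (hd k))
  · rw [hq, hcross]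
    have h1 : ∀ k, β (u k - d' k) (v k + d k) =
        β (u k) (v k) + (β (u k) (d k) + β (v k) (d' k)) - β (d' k) (d k) := by
      intro k
      rw [map_sub, AddMonoidHom.sub_apply, map_add, map_add, hneg (d' k) (v k)]
      abel
    simp only [h1, Finset.sum_sub_distrib, Finset.sum_add_distrib]
    abel

end Additive

end Pool.Agent.Lib.MP_43d240_ag
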