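import Pool.Agent.Lib.MP_43d240_ag.BlockLemma
import Pool.Agent.Lib.MP_43d240_ag.BaseChange

/-!
# Several blocks
-/

set_option autoImplicit false

universe u v w x

namespace Pool.Agent.Lib.MP_43d240_ag

section Iterate

variable {A G : Type*} [AddCommGroup A] [AddCommGroup G] {β : A →+ A →+ G}

theorem blocks_step {n : ℕ} (hn0 : n ≠ 0) (hsk : ∀ u v, β u v + β v u = 0)
    (hn : ∀ u v, n • β u v = 0) {S : AddSubgroup G} {H : AddSubgroup A} {s : ℕ} (g : Fin s → ℕ)
    (f : ∀ j, Fin (2 * g j) → A)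
    (hff : ∀ j i, β (f j i) (f j i) ∈ S) (t : ∀ j, Matrix (Fin (2 * g j)) (Fin (2 * g j)) ℤ)
    (ht : ∀ j, ∑ a, ∑ b, t j a b • β (f j a) (f j b) ∈ S)
    (hdet : ∀ j, IsCoprime (t j - (t j).transpose).det (n : ℤ))
    (hp : ∀ j, ∀ p : ℕ, p.Prime → p ∣ n → g j < p) {α : G}
    (hα : α ∈ AP β S (H ⊔ AddSubgroup.closure (⋃ j, Set.range (f j)))) :
    ∃ l : List (A × A), l.length = ∑ j, g j ∧
      ∃ α' ∈ AP β S H, α = (l.map (fun p => β p.1 p.2)).sum + α' := by
  induction s generalizing α with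
  | zero =>
    refine ⟨[], by simp, α, ?_, by simp⟩
    have h1 : (⋃ j : Fin 0, Set.range (f j)) = ∅ := by simp
    rwa [h1, AddSubgroup.closure_empty, sup_bot_eq] at hα
  | succ s ih =>
    set H' := H ⊔ AddSubgroup.closure (⋃ j : Fin s, Set.range (f j.succ)) with hH'
    have hle : H ⊔ AddSubgroup.closure (⋃ j, Set.range (f j)) ≤
        H' ⊔ AddSubgroup.closure (Set.range (f 0)) := by
      refine sup_le (le_sup_left.trans le_sup_left) ?_
      rw [AddSubgroup.closure_le]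
      intro z hz
      obtain ⟨j, hj⟩ := Set.mem_iUnion.1 hz
      refine Fin.cases (fun hj => ?_) (fun j hj => ?_) j hj
      · exact (le_sup_right : _ ≤ H' ⊔ AddSubgroup.closure (Set.range (f 0)))
          (AddSubgroup.subset_closure hj)
      · exact (le_sup_left : _ ≤ H' ⊔ AddSubgroup.closure (Set.range (f 0)))
          ((le_sup_right : _ ≤ H') (AddSubgroup.subset_closure (Set.mem_iUnion.2 ⟨j, hj⟩)))
    obtain ⟨x, y, α₁, hα₁, rfl⟩ := block_step hn0 hsk hn (f 0) (hff 0) (t 0) (ht 0) (hdet 0) (hp 0)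
      (AP_mono hle hα)
    obtain ⟨l, hl, α₂, hα₂, rfl⟩ := ih (fun j => g j.succ) (fun j => f j.succ)
      (fun j => hff j.succ) (fun j => t j.succ) (fun j => ht j.succ) (fun j => hdet j.succ)
      (fun j => hp j.succ) hα₁
    refine ⟨List.ofFn (fun k => (x k, y k)) ++ l, ?_, α₂, hα₂, ?_⟩
    · rw [List.length_append, List.length_ofFn, hl, Fin.sum_univ_succ]
    · rw [List.map_append, List.sum_append, List.map_ofFn, List.sum_ofFn, add_assoc]
      rfl

end Iterate

section Alternating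

variable {K : Type u} [Field K] {n : ℕ} {ζ : K}

namespace Symb

theorem IsPair.mul_left_pow {B : Type*} [Ring B] [Algebra K B] {a b : K} {X Y : B}
    (h : IsPair n ζ a b X Y) (m : ℕ) :
    ∃ e : ℕ, (Y * X) ^ m = ζ ^ e • (X ^ m * Y ^ m) := by
  induction m with
  | zero => exact ⟨0, by simp⟩
  | succ m ih =>
    obtain ⟨e, he⟩ := ih
    refine ⟨e + (m + 1), ?_⟩
    rw [pow_succ, he, smul_mul_assoc]
    have h1 : X ^ m * Y ^ m * (Y * X) = X ^ m * (Y ^ (m + 1) * X) := by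
      rw [pow_succ Y]
      simp only [mul_assoc]
    rw [h1, h.Y_pow_mul_X, mul_smul_comm, smul_smul, ← mul_assoc, ← pow_succ, ← pow_add]

/-- `(a, b) ≅ (a, ζ ^ e a b)` for some `e`. -/
theorem exists_nonempty_algEquiv_mul (hζ : IsPrimitiveRoot ζ n) (hn : n ≠ 0) {a b : K}
    (ha : a ≠ 0) (hb : b ≠ 0) :
    ∃ e : ℕ, Nonempty (Symb n ζ a (ζ ^ e * (a * b)) ≃ₐ[K] Symb n ζ a b) := by
  have h := isPair_gen (n := n) (ζ := ζ) (a := a) (b := b)
  have := nontrivial (a := a) (b := b) hζ hn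
  obtain ⟨e, he⟩ := h.mul_left_pow n
  have hp : IsPair n ζ a (ζ ^ e * (a * b)) (gx n ζ a b) (gy n ζ a b * gx n ζ a b) := by
    refine ⟨h.powX, ?_, ?_⟩
    · rw [he, h.powX, h.powY, ← map_mul, Algebra.smul_def, ← map_mul]
    · rw [h.comm, smul_mul_assoc, mul_assoc, h.comm]
  have hb' : ζ ^ e * (a * b) ≠ 0 := mul_ne_zero (pow_ne_zero _ (hζ.ne_zero hn)) (mul_ne_zero ha hb)
  exact ⟨e, nonempty_algEquiv_of_finrank hζ hn ha hb' hp (finrank_eq hζ hn ha hb)⟩

end Symb

theorem beta_self_eq_one {k : Type v} [Field k] [IsAlgClosed k] [Algebra k K] {ζ : k}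
    (hζ : IsPrimitiveRoot (algebraMap k K ζ) n) (hn : n ≠ 0) (a : Kˣ) : beta hζ hn a a = 1 := by
  obtain ⟨e, ⟨ψ⟩⟩ := Symb.exists_nonempty_algEquiv_mul hζ hn a.ne_zero (one_ne_zero (α := K))
  obtain ⟨η, hη⟩ := IsAlgClosed.exists_pow_nat_eq (ζ ^ e) (Nat.pos_of_ne_zero hn)
  have hη0 : algebraMap k K η ≠ 0 := by
    intro h0
    have h1 : (algebraMap k K ζ) ^ e = 0 := by
      rw [← map_pow, ← hη, map_pow, h0, zero_pow hn]
    exact pow_ne_zero _ (hζ.ne_zero hn) h1
  let u : Kˣ := Units.mk0 (algebraMap k K η) hη0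
  have h1 : beta hζ hn a (u ^ n * (a * 1)) = beta hζ hn a 1 := by
    apply Units.ext
    rw [beta_val, beta_val]
    have h2 : ((u ^ n * (a * 1) : Kˣ) : K) = algebraMap k K ζ ^ e * ((a : K) * 1) := by
      rw [Units.val_mul, Units.val_pow_eq_pow_val, Units.val_mul, Units.val_one]
      congr 1
      change (algebraMap k K η) ^ n = _
      rw [← map_pow, hη, map_pow]
    rw [h2]
    exact cls_congr K ψ
  rwa [map_mul, beta_pow_right, mul_one, one_mul, map_one] at h1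

end Alternating

section AdditiveBeta

variable {K : Type u} [Field K] {n : ℕ} {ζ : K}

/-- The symbol pairing, additively. -/
noncomputable def betaA (hζ : IsPrimitiveRoot ζ n) (hn : n ≠ 0) :
    Additive Kˣ →+ Additive Kˣ →+ Additive (BrM K)ˣ :=
  AddMonoidHom.mk' (fun a => AddMonoidHom.mk' (fun b =>
      Additive.ofMul (beta hζ hn a.toMul b.toMul))
    (fun b c => by simp))
    (fun a b => AddMonoidHom.ext fun c => by simp)

theorem betaA_apply (hζ : IsPrimitiveRoot ζ n) (hn : n ≠ 0) (a b : Additive Kˣ) :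
    betaA hζ hn a b = Additive.ofMul (beta hζ hn a.toMul b.toMul) := rfl

theorem betaA_skew (hζ : IsPrimitiveRoot ζ n) (hn : n ≠ 0) (a b : Additive Kˣ) :
    betaA hζ hn a b + betaA hζ hn b a = 0 := by
  rw [betaA_apply, betaA_apply, ← ofMul_mul, beta_skew, ofMul_one]

theorem betaA_nsmul (hζ : IsPrimitiveRoot ζ n) (hn : n ≠ 0) (a b : Additive Kˣ) :
    n • betaA hζ hn a b = 0 := by
  rw [← map_nsmul, betaA_apply]
  have h : (n • b).toMul = b.toMul ^ n := rfl
  rw [h, beta_pow_right, ofMul_one]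

end AdditiveBeta

end Pool.Agent.Lib.MP_43d240_ag
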