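import Pool.Agent.Lib.MP_43d240_ag.CubicPoints

/-!
# Every element of the group generated by point classes is a single symbol
-/

set_option autoImplicit false

open Polynomial

namespace Pool.Agent.Lib.MP_43d240_ag

namespace SymbolTwo

variable {M K V : Type*} [Field M] [Field K] [Algebra M K] [AddCommGroup V]
  (σ : SymbolTwo M K V)

variable {x : K} (hx : ∀ t : M, x ≠ algebraMap M K t) (f : M[X])

/-- The generating point classes. -/
def Gen (σ : SymbolTwo M K V) (x : K) (f : M[X]) : Set V :=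
  {v | ∃ t e : M, e ≠ 0 ∧ IsSquare (e * f.eval t) ∧
    v = σ.s (x - algebraMap M K t) (algebraMap M K e)}

theorem gen_cases {v : V} (hv : v ∈ Gen σ x f) :
    (∃ t, f.eval t ≠ 0 ∧ v = pt σ x f t) ∨
      ∃ t e : M, f.eval t = 0 ∧ e ≠ 0 ∧ v = σ.s (x - algebraMap M K t) (algebraMap M K e) := by
  obtain ⟨t, e, he, ⟨r, hr⟩, rfl⟩ := hv
  by_cases ht : f.eval t = 0
  · exact Or.inr ⟨t, e, ht, he, rfl⟩
  · refine Or.inl ⟨t, ht, ?_⟩
    have hr0 : r ≠ 0 := by
      rintro rfl
      rw [mul_zero] at hr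
      exact mul_ne_zero he ht hr
    have h1 : e = f.eval t * (r / f.eval t) ^ 2 := by
      field_simp
      linear_combination hr
    have h2 : algebraMap M K e = algebraMap M K (f.eval t) * (algebraMap M K (r / f.eval t)) ^ 2 := by
      rw [← map_pow, ← map_mul, ← h1]
    rw [h2, σ.mul_sq_right _ (am_ne ht) (am_ne (div_ne_zero hr0 ht))]
    rfl

theorem neg_eq_of_two {v : V} (h : v + v = 0) : -v = v := neg_eq_of_add_eq_zero_left h

section NoRoot

variable {a₂ a₁ a₀ : M} (hf : f = X ^ 3 + C a₂ * X ^ 2 + C a₁ * X + C a₀)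
    (hroot : ∀ t, f.eval t ≠ 0) {y : K} (hy : y ≠ 0) (hxy : y ^ 2 = aeval x f)

include hx hf hroot hy hxy in
theorem small_add_pt {v : V} (hv : Small σ x f v) (t : M) : Small σ x f (v + pt σ x f t) := by
  rcases hv with rfl | ⟨a, rfl⟩ | ⟨a, b, rfl⟩
  · exact Or.inr (Or.inl ⟨t, by rw [zero_add]⟩)
  · exact Or.inr (Or.inr ⟨a, t, rfl⟩)
  · exact small_three σ hx f hf hroot hy hxy a b t

include hx hf hroot hy hxy in
theorem small_of_closure {v : V} (hv : v ∈ AddSubgroup.closure (Gen σ x f)) : Small σ x f v := by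
  induction hv using AddSubgroup.closure_induction with
  | mem v hv =>
    rcases gen_cases σ f hv with ⟨t, _, rfl⟩ | ⟨t, e, h0, _⟩
    · exact Or.inr (Or.inl ⟨t, rfl⟩)
    · exact absurd h0 (hroot t)
  | zero => exact Or.inl rfl
  | add v w _ _ hv hw =>
    rcases hw with rfl | ⟨a, rfl⟩ | ⟨a, b, rfl⟩
    · rwa [add_zero]
    · exact small_add_pt σ hx f hf hroot hy hxy hv a
    · rw [← add_assoc]
      exact small_add_pt σ hx f hf hroot hy hxy (small_add_pt σ hx f hf hroot hy hxy hv a) b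
  | neg v _ hv =>
    have h2 : v + v = 0 := by
      rcases hv with rfl | ⟨a, rfl⟩ | ⟨a, b, rfl⟩
      · simp
      · exact pt_two σ f a
      · have h1 := pt_two σ (x := x) f a
        have h2 := pt_two σ (x := x) f b
        linear_combination (norm := module) h1 + h2
    rwa [neg_eq_of_two h2]

end NoRoot

section OneRoot

variable {κ : M} {g : M[X]} (hfg : f = (X - C κ) * g) {y : K} (hy : y ≠ 0)
  (hxy : y ^ 2 = aeval x f)

include hx hfg hy hxy in
/-- Relation in the presence of a root, `Q = g + w C`. -/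
theorem relation_root {lQ lC : List M} {w : M} (hw : w ≠ 0) (h : PP lQ = g + C w * PP lC)
    (hκQ : κ ∉ lQ) (hκC : κ ∉ lC) (hQC : ∀ t ∈ lQ, t ∉ lC) :
    S σ x lQ (fun t => f.eval t) =
      σ.s (x - algebraMap M K κ) (algebraMap M K (w * Pm lC κ * Pm lQ κ)) +
        S σ x lC (fun t => f.eval t) := by
  have hM : ∀ t, Pm lQ t = g.eval t + w * Pm lC t := by
    intro t
    have := congrArg (Polynomial.eval t) h
    simpa [eval_PP] using this
  have hK : Px M x lQ = aeval x g + algebraMap M K w * Px M x lC := by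
    have := congrArg (aeval x) h
    simpa [aeval_PP] using this
  have hXκ := X_ne hx κ
  have hg : aeval x g = (x - algebraMap M K κ) * (y / (x - algebraMap M K κ)) ^ 2 := by
    have h1 : y ^ 2 = (x - algebraMap M K κ) * aeval x g := by
      rw [hxy, hfg]
      simp
    field_simp
    rw [h1]
    ring
  have hCQ : ∀ t ∈ lC, t ∉ lQ := fun t h1 h2 => hQC t h2 h1
  have hwK := am_ne (K := K) hw
  have hev : ∀ t, f.eval t = (t - κ) * g.eval t := by
    intro t
    rw [hfg]
    simp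
  have hgQ : ∀ t ∈ lQ, g.eval t = (-w) * Pm lC t := by
    intro t ht
    have h := hM t
    rw [Pm_eq_zero ht] at h
    linear_combination -h
  have hgQ0 : ∀ t ∈ lQ, g.eval t ≠ 0 := by
    intro t ht
    rw [hgQ t ht]
    exact mul_ne_zero (neg_ne_zero.2 hw) (Pm_ne (hQC t ht))
  have hgC : ∀ t ∈ lC, g.eval t = Pm lQ t := by
    intro t ht
    rw [hM t, Pm_eq_zero ht, mul_zero, add_zero]
  have htκQ : ∀ t ∈ lQ, t - κ ≠ 0 := fun t ht => sub_ne_zero.2 (fun h => hκQ (h ▸ ht))
  have htκC : ∀ t ∈ lC, t - κ ≠ 0 := fun t ht => sub_ne_zero.2 (fun h => hκC (h ▸ ht))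
  -- the values
  have e1 : S σ x lQ (fun t => f.eval t) = S σ x lQ (fun t => t - κ) +
      (σ.s (Px M x lQ) (algebraMap M K (-w)) + S σ x lQ (Pm lC)) := by
    rw [← S_const σ hx, ← S_mul σ (fun _ _ => neg_ne_zero.2 hw) (fun t ht => Pm_ne (hQC t ht)),
      ← S_mul σ htκQ (fun t ht => mul_ne_zero (neg_ne_zero.2 hw) (Pm_ne (hQC t ht)))]
    exact S_congr σ (fun t ht => by rw [hev t, hgQ t ht])
  have r1 : S σ x lC (Pm lQ) + S σ x lQ (Pm lC) = σ.s (Px M x lC) (Px M x lQ) :=
    reciprocity σ hx hCQ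
  have r2 := s_X_Px σ hx hκQ
  have r3 := s_X_Px σ hx hκC
  have e3 : S σ x lC (fun t => f.eval t) = S σ x lC (fun b => b - κ) + S σ x lC (Pm lQ) := by
    rw [← S_mul σ htκC (fun t ht => Pm_ne (hCQ t ht))]
    exact S_congr σ (fun t ht => by rw [hev t, hgC t ht])
  have hQ0 := Px_ne hx lQ
  have hC0 := Px_ne hx lC
  have t1 := σ.three_term (A := Px M x lQ) (B := algebraMap M K w * Px M x lC)
    (C := x - algebraMap M K κ) (y / (x - algebraMap M K κ)) hQ0 (mul_ne_zero hwK hC0) hXκ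
    (by rw [hK, hg]; ring)
  have hneg : -(algebraMap M K w * Px M x lC * (x - algebraMap M K κ)) =
      algebraMap M K (-w) * (Px M x lC * (x - algebraMap M K κ)) := by
    rw [map_neg]; ring
  rw [hneg, σ.mul_right _ (am_ne (neg_ne_zero.2 hw)) (mul_ne_zero hC0 hXκ),
    σ.mul_right _ hC0 hXκ, σ.mul_left _ hwK hC0] at t1
  have e4 : σ.s (x - algebraMap M K κ) (algebraMap M K (w * Pm lC κ * Pm lQ κ)) =
      σ.s (x - algebraMap M K κ) (algebraMap M K w) +
        σ.s (x - algebraMap M K κ) (algebraMap M K (Pm lC κ)) +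
        σ.s (x - algebraMap M K κ) (algebraMap M K (Pm lQ κ)) := by
    rw [map_mul, map_mul, σ.mul_right _ (mul_ne_zero hwK (am_ne (Pm_ne hκC))) (am_ne (Pm_ne hκQ)),
      σ.mul_right _ hwK (am_ne (Pm_ne hκC))]
  rw [e4, e3, e1]
  have s1 := σ.symm (algebraMap M K w) (x - algebraMap M K κ)
  have s2 := σ.symm (Px M x lC) (x - algebraMap M K κ)
  have s3 := σ.symm (Px M x lC) (Px M x lQ)
  have s4 := σ.symm (Px M x lQ) (x - algebraMap M K κ)
  have d1 := S_two σ (x := x) lC (Pm lQ)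
  have d3 := σ.two (x - algebraMap M K κ) (algebraMap M K (Pm lQ κ))
  linear_combination (norm := module) r1 - r2 + t1 + s3 - s4 + s1 + s2 + r3 - d1 - d3

include hx hfg hy hxy in
/-- The degenerate relation `Q = g + w (X - κ)`. -/
theorem relation_root' {lQ : List M} {w : M} (hw : w ≠ 0) (h : PP lQ = g + C w * (X - C κ))
    (hκQ : κ ∉ lQ) :
    S σ x lQ (fun t => f.eval t) = σ.s (x - algebraMap M K κ) (algebraMap M K (-w)) := by
  have hM : ∀ t, Pm lQ t = g.eval t + w * (t - κ) := by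
    intro t
    have := congrArg (Polynomial.eval t) h
    simpa [eval_PP] using this
  have hK : Px M x lQ = aeval x g + algebraMap M K w * (x - algebraMap M K κ) := by
    have := congrArg (aeval x) h
    simpa [aeval_PP] using this
  have hXκ := X_ne hx κ
  set z : K := y / (x - algebraMap M K κ) with hz
  have hz0 : z ≠ 0 := div_ne_zero hy hXκ
  have hg : aeval x g = (x - algebraMap M K κ) * z ^ 2 := by
    have h1 : y ^ 2 = (x - algebraMap M K κ) * aeval x g := by
      rw [hxy, hfg]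
      simp
    rw [hz]
    field_simp
    rw [h1]
    ring
  have hw' : -w ≠ 0 := neg_ne_zero.2 hw
  have hwK := am_ne (K := K) hw
  have hwK' := am_ne (K := K) hw'
  have htκQ : ∀ t ∈ lQ, t - κ ≠ 0 := fun t ht => sub_ne_zero.2 (fun h => hκQ (h ▸ ht))
  have e1 : S σ x lQ (fun t => f.eval t) = S σ x lQ (fun _ => -w) := by
    have h1 : S σ x lQ (fun t => f.eval t) = S σ x lQ (fun t => (-w) * ((t - κ) * (t - κ))) := by
      refine S_congr σ (fun t ht => ?_)
      have h2 := hM t
      rw [Pm_eq_zero ht] at h2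
      rw [hfg]
      simp only [eval_mul, eval_sub, eval_X, eval_C]
      linear_combination -(t - κ) * h2
    rw [h1, S_mul σ (fun _ _ => hw') (fun t ht => mul_ne_zero (htκQ t ht) (htκQ t ht)),
      S_mul σ htκQ htκQ, S_two, add_zero]
  have hQ0 := Px_ne hx lQ
  have hA : Px M x lQ = (x - algebraMap M K κ) * (algebraMap M K w + 1 * z ^ 2) := by
    rw [hK, hg]; ring
  have hA0 : algebraMap M K w + 1 * z ^ 2 ≠ 0 := by
    intro h0
    rw [h0, mul_zero] at hA
    exact hQ0 hA
  have t1 := σ.three_term (A := algebraMap M K w + 1 * z ^ 2) (B := algebraMap M K w)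
    (C := 1) z hA0 hwK one_ne_zero rfl
  rw [mul_one, σ.one_right, ← map_neg] at t1
  rw [e1, S_const σ hx, hA, σ.mul_left _ hXκ hA0, t1, add_zero]

/-- The elements of the group in the case of one root. -/
def One (σ : SymbolTwo M K V) (x : K) (f : M[X]) (κ : M) (v : V) : Prop :=
  ∃ e : M, e ≠ 0 ∧ (v = σ.s (x - algebraMap M K κ) (algebraMap M K e) ∨
    ∃ c, c ≠ κ ∧ v = σ.s (x - algebraMap M K κ) (algebraMap M K e) + pt σ x f c)

include hx hfg hy hxy in
theorem one_two {g₁ g₀ : M} (hg : g = X ^ 2 + C g₁ * X + C g₀) (hgroot : ∀ t, g.eval t ≠ 0)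
    {c₁ c₂ : M} (h₁ : c₁ ≠ κ) (h₂ : c₂ ≠ κ) : One σ x f κ (pt σ x f c₁ + pt σ x f c₂) := by
  by_cases h12 : c₁ = c₂
  · subst h12
    exact ⟨1, one_ne_zero, Or.inl (by rw [pt_two, map_one, σ.one_right])⟩
  set v : M := -(c₁ + c₂) - g₁ with hv
  set r : M := c₁ * c₂ - g₀ with hr
  have hvC : C v = -(C c₁ + C c₂) - C g₁ := by rw [hv]; simp
  have hrC : C r = C c₁ * C c₂ - C g₀ := by rw [hr]; simp
  have hQ : PP [c₁, c₂] = g + C v * X + C r := by
    rw [hg, hvC, hrC]
    simp only [PP_cons, PP_nil]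
    ring
  have hκQ : κ ∉ [c₁, c₂] := by
    intro h
    rcases List.mem_cons.1 h with h | h
    · exact h₁ h.symm
    · exact h₂ (List.mem_singleton.1 h).symm
  have hev : ∀ t ∈ [c₁, c₂], g.eval t + v * t + r = 0 := by
    intro t ht
    have := congrArg (Polynomial.eval t) hQ
    rw [eval_PP, Pm_eq_zero ht] at this
    simpa using this.symm
  clear_value v r
  by_cases hv0 : v = 0
  · have hr0 : r ≠ 0 := by
      intro h0
      have := hev c₁ (by simp)
      rw [hv0, h0] at this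
      exact hgroot c₁ (by simpa using this)
    have h := relation_root σ hx f hfg hy hxy (lQ := [c₁, c₂]) (lC := []) hr0
      (by rw [hQ, hv0]; simp) hκQ (by simp) (by simp)
    refine ⟨r * Pm [] κ * Pm [c₁, c₂] κ, ?_, Or.inl ?_⟩
    · exact mul_ne_zero (mul_ne_zero hr0 (by simp)) (Pm_ne hκQ)
    · simp only [S_cons, S_nil, add_zero] at h
      exact h
  · set c : M := -r / v with hc
    have hcv : v * c = -r := by rw [hc]; field_simp
    have hcC : C v * C c = -C r := by rw [← C_mul, hcv, C_neg]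
    clear_value c
    by_cases hcκ : c = κ
    · have h := relation_root' σ hx f hfg hy hxy (lQ := [c₁, c₂]) hv0
        (by rw [hQ, ← hcκ]; linear_combination hcC) hκQ
      refine ⟨-v, neg_ne_zero.2 hv0, Or.inl ?_⟩
      simp only [S_cons, S_nil, add_zero] at h
      exact h
    · have hQC : ∀ t ∈ [c₁, c₂], t ∉ [c] := by
        intro t ht htc
        rw [List.mem_singleton] at htc
        have := hev t ht
        rw [htc] at this
        exact hgroot c (by linear_combination this - hcv)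
      have h := relation_root σ hx f hfg hy hxy (lQ := [c₁, c₂]) (lC := [c]) hv0
        (by
          rw [hQ]
          simp only [PP_cons, PP_nil]
          linear_combination hcC) hκQ
        (by rw [List.mem_singleton]; exact fun h => hcκ h.symm) hQC
      refine ⟨v * Pm [c] κ * Pm [c₁, c₂] κ, ?_, Or.inr ⟨c, hcκ, ?_⟩⟩
      · refine mul_ne_zero (mul_ne_zero hv0 (Pm_ne ?_)) (Pm_ne hκQ)
        rw [List.mem_singleton]
        exact fun h => hcκ h.symm
      · simp only [S_cons, S_nil, add_zero] at h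
        exact h

include hx hfg hy hxy in
theorem one_add {g₁ g₀ : M} (hg : g = X ^ 2 + C g₁ * X + C g₀) (hgroot : ∀ t, g.eval t ≠ 0)
    {v w : V} (hv : One σ x f κ v) (hw : One σ x f κ w) : One σ x f κ (v + w) := by
  have hs : ∀ e e' : M, e ≠ 0 → e' ≠ 0 →
      σ.s (x - algebraMap M K κ) (algebraMap M K e) + σ.s (x - algebraMap M K κ) (algebraMap M K e') =
      σ.s (x - algebraMap M K κ) (algebraMap M K (e * e')) := by
    intro e e' he he'
    rw [map_mul, σ.mul_right _ (am_ne he) (am_ne he')]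
  obtain ⟨e, he, rfl | ⟨c, hc, rfl⟩⟩ := hv
  · obtain ⟨e', he', rfl | ⟨c', hc', rfl⟩⟩ := hw
    · exact ⟨e * e', mul_ne_zero he he', Or.inl (hs e e' he he')⟩
    · exact ⟨e * e', mul_ne_zero he he', Or.inr ⟨c', hc', by rw [← hs e e' he he', add_assoc]⟩⟩
  · obtain ⟨e', he', rfl | ⟨c', hc', rfl⟩⟩ := hw
    · exact ⟨e * e', mul_ne_zero he he', Or.inr ⟨c, hc, by rw [← hs e e' he he']; abel⟩⟩
    · obtain ⟨d, hd, h | ⟨c'', hc'', h⟩⟩ := one_two σ hx f hfg hy hxy hg hgroot hc hc'
      · refine ⟨e * e' * d, mul_ne_zero (mul_ne_zero he he') hd, Or.inl ?_⟩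
        rw [← hs _ d (mul_ne_zero he he') hd, ← hs e e' he he', ← h]
        abel
      · refine ⟨e * e' * d, mul_ne_zero (mul_ne_zero he he') hd, Or.inr ⟨c'', hc'', ?_⟩⟩
        rw [← hs _ d (mul_ne_zero he he') hd, ← hs e e' he he', add_assoc _ _ (pt σ x f c''), ← h]
        abel

include hx hfg hy hxy in
theorem one_of_closure {g₁ g₀ : M} (hg : g = X ^ 2 + C g₁ * X + C g₀) (hgroot : ∀ t, g.eval t ≠ 0)
    {v : V} (hv : v ∈ AddSubgroup.closure (Gen σ x f)) : One σ x f κ v := by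
  have hfev : ∀ t, f.eval t = (t - κ) * g.eval t := by
    intro t
    rw [hfg]
    simp
  induction hv using AddSubgroup.closure_induction with
  | mem v hv =>
    rcases gen_cases σ f hv with ⟨t, ht, rfl⟩ | ⟨t, e, h0, he, rfl⟩
    · refine ⟨1, one_ne_zero, Or.inr ⟨t, ?_, ?_⟩⟩
      · rintro rfl
        exact ht (by rw [hfev]; ring)
      · rw [map_one, σ.one_right, zero_add]
    · have : t = κ := by
        rw [hfev] at h0
        exact sub_eq_zero.1 ((mul_eq_zero.1 h0).resolve_right (hgroot t))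
      subst this
      exact ⟨e, he, Or.inl rfl⟩
  | zero => exact ⟨1, one_ne_zero, Or.inl (by rw [map_one, σ.one_right])⟩
  | add v w _ _ hv hw => exact one_add σ hx f hfg hy hxy hg hgroot hv hw
  | neg v _ hv =>
    have h2 : v + v = 0 := by
      obtain ⟨e, he, rfl | ⟨c, hc, rfl⟩⟩ := hv
      · exact σ.two _ _
      · have h1 := pt_two σ (x := x) f c
        have h2 := σ.two (x - algebraMap M K κ) (algebraMap M K e)
        linear_combination (norm := module) h1 + h2
    rwa [neg_eq_of_two h2]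

end OneRoot

section ThreeRoots

variable {κ₁ κ₂ κ₃ : M} (hf : f = (X - C κ₁) * (X - C κ₂) * (X - C κ₃)) {y : K} (hy : y ≠ 0)
  (hxy : y ^ 2 = aeval x f)

/-- The elements of the group in the case of three roots. -/
def Two (σ : SymbolTwo M K V) (x : K) (κ₁ κ₂ : M) (v : V) : Prop :=
  ∃ e₁ e₂ : M, e₁ ≠ 0 ∧ e₂ ≠ 0 ∧ v = σ.s (x - algebraMap M K κ₁) (algebraMap M K e₁) +
    σ.s (x - algebraMap M K κ₂) (algebraMap M K e₂)

theorem two_add {v w : V} (hv : Two σ x κ₁ κ₂ v) (hw : Two σ x κ₁ κ₂ w) :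
    Two σ x κ₁ κ₂ (v + w) := by
  obtain ⟨e₁, e₂, h₁, h₂, rfl⟩ := hv
  obtain ⟨d₁, d₂, k₁, k₂, rfl⟩ := hw
  refine ⟨e₁ * d₁, e₂ * d₂, mul_ne_zero h₁ k₁, mul_ne_zero h₂ k₂, ?_⟩
  rw [map_mul, map_mul, σ.mul_right _ (am_ne h₁) (am_ne k₁), σ.mul_right _ (am_ne h₂) (am_ne k₂)]
  abel

include hx hf hy hxy in
theorem two_third {e : M} (he : e ≠ 0) :
    Two σ x κ₁ κ₂ (σ.s (x - algebraMap M K κ₃) (algebraMap M K e)) := by
  have h1 := X_ne hx κ₁
  have h2 := X_ne hx κ₂
  have h3 := X_ne hx κ₃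
  have hy2 : y ^ 2 = (x - algebraMap M K κ₁) * (x - algebraMap M K κ₂) * (x - algebraMap M K κ₃) := by
    rw [hxy, hf]
    simp
  refine ⟨e, e, he, he, ?_⟩
  have h4 := σ.sq_left (algebraMap M K e) hy
  rw [hy2, σ.mul_left _ (mul_ne_zero h1 h2) h3, σ.mul_left _ h1 h2] at h4
  have h5 := σ.two (x - algebraMap M K κ₃) (algebraMap M K e)
  linear_combination (norm := module) h5 - h4

include hx hf hy hxy in
theorem two_of_closure {v : V} (hv : v ∈ AddSubgroup.closure (Gen σ x f)) : Two σ x κ₁ κ₂ v := by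
  have hfev : ∀ t, f.eval t = (t - κ₁) * (t - κ₂) * (t - κ₃) := by
    intro t
    rw [hf]
    simp
  have h1 := X_ne hx κ₁
  have h2 := X_ne hx κ₂
  have h3 := X_ne hx κ₃
  have hy2 : y ^ 2 = (x - algebraMap M K κ₁) * (x - algebraMap M K κ₂) * (x - algebraMap M K κ₃) := by
    rw [hxy, hf]
    simp
  have t1 : ∀ {e : M}, e ≠ 0 → Two σ x κ₁ κ₂ (σ.s (x - algebraMap M K κ₁) (algebraMap M K e)) :=
    fun {e} he => ⟨e, 1, he, one_ne_zero, by rw [map_one, σ.one_right, add_zero]⟩
  have t2 : ∀ {e : M}, e ≠ 0 → Two σ x κ₁ κ₂ (σ.s (x - algebraMap M K κ₂) (algebraMap M K e)) :=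
    fun {e} he => ⟨1, e, one_ne_zero, he, by rw [map_one, σ.one_right, zero_add]⟩
  induction hv using AddSubgroup.closure_induction with
  | mem v hv =>
    rcases gen_cases σ f hv with ⟨t, ht, rfl⟩ | ⟨t, e, h0, he, rfl⟩
    · have ht1 : t ≠ κ₁ := fun h => ht (by rw [hfev, h]; ring)
      have ht2 : t ≠ κ₂ := fun h => ht (by rw [hfev, h]; ring)
      have ht3 : t ≠ κ₃ := fun h => ht (by rw [hfev, h]; ring)
      have hd : pt σ x f t = σ.s (x - algebraMap M K κ₁) (algebraMap M K (κ₁ - t)) +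
          σ.s (x - algebraMap M K κ₂) (algebraMap M K (κ₂ - t)) +
          σ.s (x - algebraMap M K κ₃) (algebraMap M K (κ₃ - t)) := by
        have hXt := X_ne hx t
        have w1 := am_ne (K := K) (sub_ne_zero.2 ht1)
        have w2 := am_ne (K := K) (sub_ne_zero.2 ht2)
        have w3 := am_ne (K := K) (sub_ne_zero.2 ht3)
        have e0 : pt σ x f t = σ.s (x - algebraMap M K t) (algebraMap M K (t - κ₁)) +
            σ.s (x - algebraMap M K t) (algebraMap M K (t - κ₂)) +
            σ.s (x - algebraMap M K t) (algebraMap M K (t - κ₃)) := by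
          rw [pt, hfev, map_mul, map_mul, σ.mul_right _ (mul_ne_zero w1 w2) w3,
            σ.mul_right _ w1 w2]
        have k1 := σ.two_term hx ht1
        have k2 := σ.two_term hx ht2
        have k3 := σ.two_term hx ht3
        have k4 := σ.sq_left (x - algebraMap M K t) hy
        rw [hy2, σ.symm, σ.mul_right _ (mul_ne_zero h1 h2) h3, σ.mul_right _ h1 h2] at k4
        have d1 := σ.two (x - algebraMap M K κ₁) (algebraMap M K (κ₁ - t))
        have d2 := σ.two (x - algebraMap M K κ₂) (algebraMap M K (κ₂ - t))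
        have d3 := σ.two (x - algebraMap M K κ₃) (algebraMap M K (κ₃ - t))
        rw [e0]
        linear_combination (norm := module) k4 - k1 - k2 - k3 - d1 - d2 - d3
      rw [hd]
      exact two_add σ (two_add σ (t1 (sub_ne_zero.2 (Ne.symm ht1))) (t2 (sub_ne_zero.2 (Ne.symm ht2))))
        (two_third σ hx f hf hy hxy (sub_ne_zero.2 (Ne.symm ht3)))
    · rw [hfev] at h0
      rcases mul_eq_zero.1 h0 with h0 | h0
      · rcases mul_eq_zero.1 h0 with h0 | h0
        · rw [sub_eq_zero.1 h0]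
          exact t1 he
        · rw [sub_eq_zero.1 h0]
          exact t2 he
      · rw [sub_eq_zero.1 h0]
        exact two_third σ hx f hf hy hxy he
  | zero => exact ⟨1, 1, one_ne_zero, one_ne_zero, by
      rw [map_one, σ.one_right, σ.one_right, add_zero]⟩
  | add v w _ _ hv hw => exact two_add σ hv hw
  | neg v _ hv =>
    have hvv : v + v = 0 := by
      obtain ⟨e₁, e₂, _, _, rfl⟩ := hv
      have k1 := σ.two (x - algebraMap M K κ₁) (algebraMap M K e₁)
      have k2 := σ.two (x - algebraMap M K κ₂) (algebraMap M K e₂)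
      linear_combination (norm := module) k1 + k2
    rwa [neg_eq_of_two hvv]

end ThreeRoots

include hx in
/-- Every element of the group generated by the point classes is a single symbol. -/
theorem exists_symbol_of_closure {a₂ a₁ a₀ : M}
    (hf : f = X ^ 3 + C a₂ * X ^ 2 + C a₁ * X + C a₀)
    {y : K} (hy : y ≠ 0) (hxy : y ^ 2 = aeval x f) {v : V}
    (hv : v ∈ AddSubgroup.closure (Gen σ x f)) : ∃ a b : K, a ≠ 0 ∧ b ≠ 0 ∧ v = σ.s a b := by
  have hzero : ∃ a b : K, a ≠ 0 ∧ b ≠ 0 ∧ (0 : V) = σ.s a b :=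
    ⟨1, 1, one_ne_zero, one_ne_zero, (σ.one_left 1).symm⟩
  by_cases hroot : ∀ t, f.eval t ≠ 0
  · rcases small_of_closure σ hx f hf hroot hy hxy hv with rfl | ⟨a, rfl⟩ | ⟨a, b, rfl⟩
    · exact hzero
    · exact ⟨_, _, X_ne hx a, am_ne (hroot a), rfl⟩
    · obtain ⟨c, d, hc, hd, h⟩ := exists_single σ hx a b (hroot a) (hroot b)
      exact ⟨c, d, hc, hd, h⟩
  · push_neg at hroot
    obtain ⟨κ, hκ⟩ := hroot
    set g₁ : M := a₂ + κ with hg₁
    set g₀ : M := a₁ + κ * (a₂ + κ) with hg₀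
    have hg1C : C g₁ = C a₂ + C κ := by rw [hg₁]; simp
    have hg0C : C g₀ = C a₁ + C κ * (C a₂ + C κ) := by rw [hg₀]; simp
    have ha0 : C a₀ = -(C κ * C g₀) := by
      rw [← C_mul, ← C_neg]
      congr 1
      rw [hf] at hκ
      simp only [eval_add, eval_mul, eval_pow, eval_X, eval_C] at hκ
      rw [hg₀]
      linear_combination hκ
    have hfg : f = (X - C κ) * (X ^ 2 + C g₁ * X + C g₀) := by
      rw [hf, ha0, hg1C, hg0C]
      ring
    clear_value g₁ g₀
    by_cases hgroot : ∀ t, (X ^ 2 + C g₁ * X + C g₀ : M[X]).eval t ≠ 0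
    · obtain ⟨e, he, rfl | ⟨c, hc, rfl⟩⟩ :=
        one_of_closure σ hx f hfg hy hxy rfl hgroot hv
      · exact ⟨_, _, X_ne hx κ, am_ne he, rfl⟩
      · have hfc : f.eval c ≠ 0 := by
          rw [hfg, eval_mul]
          refine mul_ne_zero ?_ (hgroot c)
          simpa [sub_eq_zero] using hc
        obtain ⟨a, b, ha, hb, h⟩ := exists_single σ hx κ c he hfc
        exact ⟨a, b, ha, hb, h⟩
    · push_neg at hgroot
      obtain ⟨l, hl⟩ := hgroot
      have hg0 : C g₀ = C l * (-C g₁ - C l) := by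
        rw [← C_neg, ← C_sub, ← C_mul]
        congr 1
        simp only [eval_add, eval_mul, eval_pow, eval_X, eval_C] at hl
        linear_combination hl
      have hf3 : f = (X - C κ) * (X - C l) * (X - C (-g₁ - l)) := by
        rw [hfg, hg0, C_sub, C_neg]
        ring
      obtain ⟨e₁, e₂, he₁, he₂, rfl⟩ := two_of_closure σ hx f hf3 hy hxy hv
      obtain ⟨a, b, ha, hb, h⟩ := exists_single σ hx κ l he₁ he₂
      exact ⟨a, b, ha, hb, h⟩

end SymbolTwo

end Pool.Agent.Lib.MP_43d240_ag
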