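import Pool.Agent.Lib.MP_43d240_ag.SymbolTwo

/-!
# The group generated by the point classes of a cubic double cover

On `y ^ 2 = f(x)`, `f` a monic cubic polynomial over `M`, the symbols `{x - t, e}` with
`e f(t)` a square generate a group all of whose elements are sums of two such symbols, and
every sum of two such symbols is a single symbol (modulo symbols of `M`).
-/

set_option autoImplicit false

open Polynomial

namespace Pool.Agent.Lib.MP_43d240_ag

namespace SymbolTwo

variable {M K V : Type*} [Field M] [Field K] [Algebra M K] [AddCommGroup V]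
  (σ : SymbolTwo M K V)

section Single

variable {x : K} (hx : ∀ t : M, x ≠ algebraMap M K t)

include hx in
/-- Two points give one symbol. -/
theorem exists_single (t₁ t₂ : M) {e₁ e₂ : M} (he₁ : e₁ ≠ 0) (he₂ : e₂ ≠ 0) :
    ∃ a b : K, a ≠ 0 ∧ b ≠ 0 ∧
      σ.s (x - algebraMap M K t₁) (algebraMap M K e₁) +
        σ.s (x - algebraMap M K t₂) (algebraMap M K e₂) = σ.s a b := by
  have hX1 := X_ne hx t₁
  have hX2 := X_ne hx t₂
  have hE1 := am_ne (K := K) he₁
  have hE2 := am_ne (K := K) he₂
  by_cases he : e₁ = e₂
  · subst he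
    exact ⟨_, _, mul_ne_zero hX1 hX2, hE1, (σ.mul_left _ hX1 hX2).symm⟩
  · by_cases ht : t₁ = t₂
    · subst ht
      exact ⟨_, _, hX1, mul_ne_zero hE1 hE2, (σ.mul_right _ hE1 hE2).symm⟩
    · have htn : t₂ - t₁ ≠ 0 := sub_ne_zero.2 (Ne.symm ht)
      set m : M := (e₂ - e₁) / (t₂ - t₁) with hm
      have hm0 : m ≠ 0 := div_ne_zero (sub_ne_zero.2 (Ne.symm he)) htn
      have hmK := am_ne (K := K) hm0
      have hmt : m * (t₂ - t₁) = e₂ - e₁ := div_mul_cancel₀ _ htn
      have hmtK : algebraMap M K m * (algebraMap M K t₂ - algebraMap M K t₁) =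
          algebraMap M K e₂ - algebraMap M K e₁ := by
        rw [← map_sub, ← map_sub, ← map_mul, hmt]
      set A : K := algebraMap M K m * (x - algebraMap M K t₁) + algebraMap M K e₁ with hA
      have hA2 : A = algebraMap M K m * (x - algebraMap M K t₂) + algebraMap M K e₂ := by
        rw [hA]
        linear_combination hmtK
      have hA0 : A ≠ 0 := by
        intro h0
        apply hx (t₁ - e₁ / m)
        rw [map_sub, map_div₀]
        rw [hA] at h0
        field_simp
        linear_combination h0
      have hU := mul_ne_zero hmK hX1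
      have hW := mul_ne_zero hmK hX2
      have h1 := σ.three_term (A := A) (B := algebraMap M K m * (x - algebraMap M K t₁))
        (C := algebraMap M K e₁) 1 hA0 hU hE1 (by rw [hA]; ring)
      have h2 := σ.three_term (A := A) (B := algebraMap M K m * (x - algebraMap M K t₂))
        (C := algebraMap M K e₂) 1 hA0 hW hE2 (by rw [hA2]; ring)
      have n1 := neg_ne_zero.2 (mul_ne_zero hU hE1)
      have n2 := neg_ne_zero.2 (mul_ne_zero hW hE2)
      refine ⟨A, _, hA0, mul_ne_zero n1 n2, ?_⟩
      rw [σ.mul_right _ n1 n2, h1, h2, σ.mul_left _ hmK hX1, σ.mul_left _ hmK hX2, σ.base, σ.base,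
        zero_add, zero_add]

end Single

section Poly

variable {x : K} (hx : ∀ t : M, x ≠ algebraMap M K t)

/-- The product of the `X - t`. -/
noncomputable def PP (l : List M) : M[X] := (l.map fun t => X - C t).prod

@[simp] theorem PP_nil : PP ([] : List M) = 1 := rfl
@[simp] theorem PP_cons (t : M) (l : List M) : PP (t :: l) = (X - C t) * PP l := by simp [PP]

theorem eval_PP (l : List M) (c : M) : (PP l).eval c = Pm l c := by
  induction l with
  | nil => simp
  | cons t l ih => simp [ih]

theorem aeval_PP (l : List M) (x : K) : aeval x (PP l) = Px M x l := by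
  induction l with
  | nil => simp
  | cons t l ih => simp [ih]

include hx in
theorem relation_poly (f : M[X]) {y : K} (hy : y ≠ 0) (hxy : y ^ 2 = aeval x f)
    {lQ lB lC : List M} {w : M} (hw : w ≠ 0)
    (h : PP lQ = f * PP lB + C w * PP lC)
    (hQB : ∀ t ∈ lQ, t ∉ lB) (hQC : ∀ t ∈ lQ, t ∉ lC) (hBC : ∀ t ∈ lB, t ∉ lC) :
    S σ x lQ (fun t => f.eval t) = S σ x lC (fun t => f.eval t) := by
  refine relation σ hx (fun t => f.eval t) hy hw ?_ ?_ hQB hQC hBC
  · intro t
    have := congrArg (Polynomial.eval t) h
    simpa [eval_PP] using this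
  · have := congrArg (aeval x) h
    rw [hxy]
    simpa [aeval_PP] using this

end Poly

section NoRoot

variable {x : K} (hx : ∀ t : M, x ≠ algebraMap M K t) (f : M[X])

/-- The class of a point. -/
def pt (σ : SymbolTwo M K V) (x : K) (f : M[X]) (t : M) : V :=
  σ.s (x - algebraMap M K t) (algebraMap M K (f.eval t))

/-- At most two points. -/
def Small (σ : SymbolTwo M K V) (x : K) (f : M[X]) (v : V) : Prop :=
  v = 0 ∨ (∃ a, v = pt σ x f a) ∨ ∃ a b, v = pt σ x f a + pt σ x f b

theorem pt_two (t : M) : pt σ x f t + pt σ x f t = 0 := σ.two _ _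

include hx in
theorem small_three {a₂ a₁ a₀ : M} (hf : f = X ^ 3 + C a₂ * X ^ 2 + C a₁ * X + C a₀)
    (hroot : ∀ t, f.eval t ≠ 0) {y : K} (hy : y ≠ 0) (hxy : y ^ 2 = aeval x f) (t₁ t₂ t₃ : M) :
    Small σ x f (pt σ x f t₁ + pt σ x f t₂ + pt σ x f t₃) := by
  by_cases h12 : t₁ = t₂
  · subst h12
    exact Or.inr (Or.inl ⟨t₃, by rw [pt_two, zero_add]⟩)
  by_cases h13 : t₁ = t₃
  · subst h13
    exact Or.inr (Or.inl ⟨t₂, by rw [add_right_comm, pt_two, zero_add]⟩)
  by_cases h23 : t₂ = t₃
  · subst h23
    exact Or.inr (Or.inl ⟨t₁, by rw [add_assoc, pt_two, add_zero]⟩)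
  set u : M := -(t₁ + t₂ + t₃) - a₂ with hu
  set r₁ : M := t₁ * t₂ + t₁ * t₃ + t₂ * t₃ - a₁ with hr₁
  set r₀ : M := -(t₁ * t₂ * t₃) - a₀ with hr₀
  have huC : C u = -(C t₁ + C t₂ + C t₃) - C a₂ := by rw [hu]; simp
  have hr1C : C r₁ = C t₁ * C t₂ + C t₁ * C t₃ + C t₂ * C t₃ - C a₁ := by rw [hr₁]; simp
  have hr0C : C r₀ = -(C t₁ * C t₂ * C t₃) - C a₀ := by rw [hr₀]; simp
  have hQ3 : PP [t₁, t₂, t₃] = f + C u * X ^ 2 + C r₁ * X + C r₀ := by
    rw [hf, huC, hr1C, hr0C]
    simp only [PP_cons, PP_nil]
    ring
  have hev : ∀ t ∈ [t₁, t₂, t₃], f.eval t + u * t ^ 2 + r₁ * t + r₀ = 0 := by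
    intro t ht
    have := congrArg (Polynomial.eval t) hQ3
    rw [eval_PP, Pm_eq_zero ht] at this
    simpa using this.symm
  by_cases hu0 : u = 0
  · by_cases hr10 : r₁ = 0
    · have hr00 : r₀ ≠ 0 := by
        intro h0
        have := hev t₁ (by simp)
        rw [hu0, hr10, h0] at this
        exact hroot t₁ (by simpa using this)
      have := relation_poly σ hx f hy hxy (lQ := [t₁, t₂, t₃]) (lB := []) (lC := []) hr00
        (by rw [hQ3, hu0, hr10]; simp) (by simp) (by simp) (by simp)
      left
      simpa [S_cons, pt, add_assoc] using this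
    · set c : M := -r₀ / r₁ with hc
      have hcr : r₁ * c = -r₀ := by rw [hc]; field_simp
      have hcC : C r₁ * C c = -C r₀ := by rw [← C_mul, hcr, C_neg]
      have hne : ∀ t ∈ [t₁, t₂, t₃], t ∉ [c] := by
        intro t ht htc
        rw [List.mem_singleton] at htc
        have := hev t ht
        rw [hu0, htc] at this
        exact hroot c (by linear_combination this - hcr)
      have := relation_poly σ hx f hy hxy (lQ := [t₁, t₂, t₃]) (lB := []) (lC := [c]) hr10
        (by
          rw [hQ3, hu0]
          simp only [PP_cons, PP_nil, C_0]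
          linear_combination hcC) (by simp) hne (by simp)
      refine Or.inr (Or.inl ⟨c, ?_⟩)
      simpa [S_cons, pt, add_assoc] using this
  · set p : M := r₁ / u with hp
    have hpu : u * p = r₁ := by rw [hp]; field_simp
    set q₀ : M := r₀ / u with hq
    have hqu : u * q₀ = r₀ := by rw [hq]; field_simp
    set κ : M := p - a₂ with hκ
    set b : M := κ - u with hb
    set s₁ : M := a₁ - (q₀ - κ * p) with hs₁
    set s₀ : M := a₀ + κ * q₀ with hs₀
    have hpuC : C u * C p = C r₁ := by rw [← C_mul, hpu]
    have hquC : C u * C q₀ = C r₀ := by rw [← C_mul, hqu]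
    have hκC : C κ = C p - C a₂ := by rw [hκ]; simp
    have hbC : C b = C κ - C u := by rw [hb]; simp
    have hs1C : C s₁ = C a₁ - (C q₀ - C κ * C p) := by rw [hs₁]; simp
    have hs0C : C s₀ = C a₀ + C κ * C q₀ := by rw [hs₀]; simp
    have hfq : f = (X ^ 2 + C p * X + C q₀) * (X - C κ) + C s₁ * X + C s₀ := by
      rw [hf, hs1C, hs0C, hκC]
      ring
    have hQ4 : PP [t₁, t₂, t₃, κ] = f * (X - C b) - C u * (C s₁ * X + C s₀) := by
      have h1 : PP [t₁, t₂, t₃, κ] = PP [t₁, t₂, t₃] * (X - C κ) := by
        simp only [PP_cons, PP_nil]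
        ring
      rw [h1, hQ3, hbC]
      linear_combination (-(X - C κ) * X) * hpuC - (X - C κ) * hquC - C u * hfq
    have hev4 : ∀ t ∈ [t₁, t₂, t₃, κ], f.eval t * (t - b) = u * (s₁ * t + s₀) := by
      intro t ht
      have := congrArg (Polynomial.eval t) hQ4
      rw [eval_PP, Pm_eq_zero ht] at this
      simp only [eval_sub, eval_mul, eval_X, eval_C, eval_add] at this
      linear_combination -this
    by_cases hs10 : s₁ = 0
    · have hs00 : s₀ ≠ 0 := by
        intro h0
        apply hroot κ
        have := congrArg (Polynomial.eval κ) hfq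
        rw [hs10, h0] at this
        simpa using this
      have hne : ∀ t ∈ [t₁, t₂, t₃, κ], t ∉ [b] := by
        intro t ht htb
        rw [List.mem_singleton] at htb
        have := hev4 t ht
        rw [hs10, htb] at this
        have h0 : u * s₀ = 0 := by linear_combination -this
        exact mul_ne_zero hu0 hs00 h0
      have := relation_poly σ hx f hy hxy (lQ := [t₁, t₂, t₃, κ]) (lB := [b]) (lC := [])
        (w := -(u * s₀)) (neg_ne_zero.2 (mul_ne_zero hu0 hs00))
        (by
          rw [hQ4, hs10]
          simp only [PP_cons, PP_nil, C_neg, C_mul, C_0]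
          ring) hne (by simp) (by simp)
      refine Or.inr (Or.inl ⟨κ, ?_⟩)
      have h2 := pt_two σ (x := x) f κ
      simp only [S_cons, S_nil, add_zero] at this
      change pt σ x f t₁ + (pt σ x f t₂ + (pt σ x f t₃ + pt σ x f κ)) = 0 at this
      linear_combination (norm := module) this - h2
    · set c : M := -s₀ / s₁ with hc
      have hcs : s₁ * c = -s₀ := by rw [hc]; field_simp
      have hcC : C s₁ * C c = -C s₀ := by rw [← C_mul, hcs, C_neg]
      set w : M := -(u * s₁) with hw
      have hw0 : w ≠ 0 := neg_ne_zero.2 (mul_ne_zero hu0 hs10)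
      have hwC : C w = -(C u * C s₁) := by rw [hw]; simp
      have hQ4' : PP [t₁, t₂, t₃, κ] = f * PP [b] + C w * PP [c] := by
        rw [hQ4, hwC]
        simp only [PP_cons, PP_nil]
        linear_combination (-C u) * hcC
      clear_value w c s₁ s₀ b κ q₀ p r₀ r₁ u
      have hev4' : ∀ t ∈ [t₁, t₂, t₃, κ], f.eval t * (t - b) = u * s₁ * (t - c) := by
        intro t ht
        linear_combination hev4 t ht + u * hcs
      have hκc : κ ≠ c := by
        intro h
        apply hroot κ
        have h3 : f.eval κ = s₁ * κ + s₀ := by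
          have := congrArg (Polynomial.eval κ) hfq
          simpa using this
        rw [h3]
        linear_combination hcs + s₁ * h
      by_cases hct : c ∈ [t₁, t₂, t₃]
      · -- then `b = c` and three points sum to zero
        have hbc : c = b := by
          have h1 := hev4' c (List.mem_append_left [κ] hct)
          rw [sub_self, mul_zero] at h1
          exact sub_eq_zero.1 ((mul_eq_zero.1 h1).resolve_left (hroot c))
        have hcanc : ∀ l : List M, PP [t₁, t₂, t₃, κ] = (X - C c) * PP l →
            PP l = f * PP [] + C w * PP [] := by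
          intro l hl
          have h1 : (X - C c) * PP l = (X - C c) * (f * PP [] + C w * PP []) := by
            rw [← hl, hQ4', ← hbc]
            simp only [PP_cons, PP_nil]
            ring
          exact mul_left_cancel₀ (X_sub_C_ne_zero c) h1
        have key : ∀ a a' : M, PP [t₁, t₂, t₃, κ] = (X - C c) * PP [a, a', κ] →
            pt σ x f a + pt σ x f a' = pt σ x f κ := by
          intro a a' h
          have := relation_poly σ hx f hy hxy (lQ := [a, a', κ]) (lB := []) (lC := []) hw0
            (hcanc _ h) (by simp) (by simp) (by simp)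
          have h2 := pt_two σ (x := x) f κ
          simp only [S_cons, S_nil, add_zero] at this
          change pt σ x f a + (pt σ x f a' + pt σ x f κ) = 0 at this
          linear_combination (norm := module) this - h2
        have hct' : c = t₁ ∨ c = t₂ ∨ c = t₃ := by
          rcases List.mem_cons.1 hct with h | h
          · exact Or.inl h
          · rcases List.mem_cons.1 h with h | h
            · exact Or.inr (Or.inl h)
            · exact Or.inr (Or.inr (List.mem_singleton.1 h))
        rcases hct' with h | h | h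
        · refine Or.inr (Or.inr ⟨κ, t₁, ?_⟩)
          rw [← key t₂ t₃ (by rw [h]; simp only [PP_cons, PP_nil])]
          abel
        · refine Or.inr (Or.inr ⟨κ, t₂, ?_⟩)
          rw [← key t₁ t₃ (by rw [h]; simp only [PP_cons, PP_nil]; ring)]
          abel
        · refine Or.inr (Or.inr ⟨κ, t₃, ?_⟩)
          rw [← key t₁ t₂ (by rw [h]; simp only [PP_cons, PP_nil]; ring)]
      · have hQC : ∀ t ∈ [t₁, t₂, t₃, κ], t ∉ [c] := by
          intro t ht htc
          rw [List.mem_singleton] at htc
          rcases List.mem_append.1 (show t ∈ [t₁, t₂, t₃] ++ [κ] from ht) with h | h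
          · exact hct (htc ▸ h)
          · rw [List.mem_singleton] at h
            exact hκc (h ▸ htc)
        have hQB : ∀ t ∈ [t₁, t₂, t₃, κ], t ∉ [b] := by
          intro t ht htb
          rw [List.mem_singleton] at htb
          have h1 := hev4' t ht
          rw [htb, sub_self, mul_zero] at h1
          have h2 := (mul_eq_zero.1 h1.symm).resolve_left (mul_ne_zero hu0 hs10)
          exact hQC t ht (by rw [List.mem_singleton, htb]; exact sub_eq_zero.1 h2)
        have hBC : ∀ t ∈ [b], t ∉ [c] := by
          intro t ht htc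
          rw [List.mem_singleton] at ht htc
          have hbc : b = c := by rw [← ht, htc]
          have h1 := congrArg (Polynomial.eval c) hQ4'
          rw [eval_PP, hbc] at h1
          have h2 : Pm [t₁, t₂, t₃, κ] c = 0 := by
            rw [h1]
            simp
          exact Pm_ne (fun hmem => hQC c hmem (by simp)) h2
        have := relation_poly σ hx f hy hxy hw0 hQ4' hQB hQC hBC
        refine Or.inr (Or.inr ⟨c, κ, ?_⟩)
        have h2 := pt_two σ (x := x) f κ
        simp only [S_cons, S_nil, add_zero] at this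
        change pt σ x f t₁ + (pt σ x f t₂ + (pt σ x f t₃ + pt σ x f κ)) = pt σ x f c at this
        linear_combination (norm := module) this - h2

end NoRoot

end SymbolTwo

end Pool.Agent.Lib.MP_43d240_ag
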