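import Pool.Agent.Lib.MP_43d240_ag.Albert

/-!
# The quaternionic case over a base of transcendence degree two
-/

set_option autoImplicit false

open scoped TensorProduct

universe u v w x

namespace Pool.Agent.Lib.MP_43d240_ag

section

variable {k K : Type u} [Field k] [IsAlgClosed k] [Field K] [Algebra k K]

/-- The subgroup of classes of single symbols with slots in `M`. -/
theorem exists_single_symbol {ζ : k} (hζ : IsPrimitiveRoot ζ 2)
    (hζK : IsPrimitiveRoot (algebraMap k K ζ) 2) (M : IntermediateField k K)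
    (hM : Algebra.trdeg k M ≤ 2) {x : Additive (BrM K)ˣ}
    (hx : x ∈ AP (betaA hζK two_ne_zero) ⊥ (fieldUnits M).toAddSubgroup) :
    ∃ u v : Kˣ, x = Additive.ofMul (beta hζK two_ne_zero u v) := by
  have hζ1 : ζ = -1 := hζ.eq_neg_one_of_two_right
  subst hζ1
  have hζM : IsPrimitiveRoot (algebraMap k M (-1)) 2 :=
    hζ.map_of_injective (algebraMap k M).injective
  have hζM' : IsPrimitiveRoot (-1 : M) 2 := by simpa using hζM
  have hTL : TL 4 2 M := by
    have := TL.of_trdeg_le two_ne_zero 2 (by exact_mod_cast hM) (TL.of_isAlgClosed k two_ne_zero)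
    simpa using this
  -- transport of symbols
  have htr : ∀ a b : Mˣ, Units.map (bc M K : BrM M →* BrM K) (beta hζM' two_ne_zero a b) =
      beta hζK two_ne_zero (Units.map (algebraMap M K : M →* K) a)
        (Units.map (algebraMap M K : M →* K) b) := by
    intro a b
    apply Units.ext
    rw [beta_val, Units.coe_map, beta_val]
    have h := bc_symb M K hζM' two_ne_zero a.ne_zero b.ne_zero
    have h1 : algebraMap M K (-1) = algebraMap k K (-1) := by simp
    rw [h1] at h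
    exact h
  let T : AddSubgroup (Additive (BrM K)ˣ) :=
    { carrier := {x | ∃ u v : Mˣ, x = Additive.ofMul
        (Units.map (bc M K : BrM M →* BrM K) (beta hζM' two_ne_zero u v))}
      add_mem' := by
        rintro _ _ ⟨a, b, rfl⟩ ⟨c, d, rfl⟩
        obtain ⟨t, s, hts⟩ := beta_mul_beta hζM' hTL a b c d
        exact ⟨t, s, by rw [← hts, map_mul, ofMul_mul]⟩
      zero_mem' := ⟨1, 1, by simp⟩
      neg_mem' := by
        rintro _ ⟨a, b, rfl⟩
        exact ⟨a, b⁻¹, by rw [map_inv, map_inv, ofMul_inv]⟩ }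
  have hle : AP (betaA hζK two_ne_zero) ⊥ (fieldUnits M).toAddSubgroup ≤ T := by
    refine AP_le bot_le (fun u hu v hv => ?_)
    have hu' : (u.toMul : K) ∈ M := hu
    have hv' : (v.toMul : K) ∈ M := hv
    have hu0 : (⟨(u.toMul : K), hu'⟩ : M) ≠ 0 := fun h =>
      u.toMul.ne_zero (congrArg Subtype.val h)
    have hv0 : (⟨(v.toMul : K), hv'⟩ : M) ≠ 0 := fun h =>
      v.toMul.ne_zero (congrArg Subtype.val h)
    refine ⟨Units.mk0 _ hu0, Units.mk0 _ hv0, ?_⟩
    rw [htr, betaA_apply]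
    congr 2
  obtain ⟨u, v, rfl⟩ := hle hx
  exact ⟨_, _, by rw [htr]⟩

theorem quat_main {ζ : k} (hζ : IsPrimitiveRoot ζ 2) {z : K} (hz : z = algebraMap k K ζ)
    (M : IntermediateField k K) (hM : Algebra.trdeg k M ≤ 2) {r : ℕ} (f h : Fin r → Kˣ)
    (hfh : ∀ i, (∃ L : IntermediateField k K, Algebra.trdeg k L ≤ 1 ∧
      (f i : K) ∈ L ∧ (h i : K) ∈ L) ∨
      cls K (Symb 2 z (f i : K) (h i : K)) ∈ Submonoid.closure
        {c | ∃ u v : Kˣ, (u : K) ∈ M ∧ (v : K) ∈ M ∧ c = cls K (Symb 2 z (u : K) (v : K))})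
    {α : BrM K}
    (hα : α ∈ Submonoid.closure {c | ∃ u v : Kˣ,
      u ∈ Subgroup.closure (Set.range f ∪ Set.range h ∪ {u | (u : K) ∈ M}) ∧
      v ∈ Subgroup.closure (Set.range f ∪ Set.range h ∪ {u | (u : K) ∈ M}) ∧
      c = cls K (Symb 2 z (u : K) (v : K))}) :
    ∃ l : List (Kˣ × Kˣ), l.length = r + 1 ∧
      α = (l.map fun p => cls K (Symb 2 z (p.1 : K) (p.2 : K))).prod := by
  subst hz
  have hζK : IsPrimitiveRoot (algebraMap k K ζ) 2 :=
    hζ.map_of_injective (algebraMap k K).injective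
  let F : ∀ j : Fin r, Fin (2 * 1) → Kˣ := fun j => ![f j, h j]
  set S := AP (betaA hζK two_ne_zero) ⊥ (fieldUnits M).toAddSubgroup with hS
  have hslots : Subgroup.closure (Set.range f ∪ Set.range h ∪ {u | (u : K) ∈ M}) ≤
      slots M F := by
    refine Subgroup.closure_mono ?_
    rintro u ((⟨i, rfl⟩ | ⟨i, rfl⟩) | hu)
    · exact Or.inl (Set.mem_iUnion.2 ⟨i, 0, rfl⟩)
    · exact Or.inl (Set.mem_iUnion.2 ⟨i, 1, rfl⟩)
    · exact Or.inr hu
  have hcl : ∀ c : BrM K, c ∈ Submonoid.closure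
      {c | ∃ u v : Kˣ, (u : K) ∈ M ∧ (v : K) ∈ M ∧
        c = cls K (Symb 2 (algebraMap k K ζ) (u : K) (v : K))} →
      ∃ w : (BrM K)ˣ, (w : BrM K) = c ∧ Additive.ofMul w ∈ S := by
    intro c hc
    induction hc using Submonoid.closure_induction with
    | mem c hc =>
      obtain ⟨u, v, hu, hv, rfl⟩ := hc
      exact ⟨beta hζK two_ne_zero u v, rfl,
        apply_mem_AP (β := betaA hζK two_ne_zero) ⊥ (u := Additive.ofMul u)
          (v := Additive.ofMul v) hu hv⟩
    | one => exact ⟨1, rfl, by rw [ofMul_one]; exact AddSubgroup.zero_mem _⟩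
    | mul x y _ _ hx hy =>
      obtain ⟨w, rfl, hw⟩ := hx
      obtain ⟨w', rfl, hw'⟩ := hy
      exact ⟨w * w', rfl, by rw [ofMul_mul]; exact AddSubgroup.add_mem _ hw hw'⟩
  have hrel : ∀ j, ∃ t : Matrix (Fin (2 * 1)) (Fin (2 * 1)) ℤ,
      IsCoprime (t - t.transpose).det ((2 : ℕ) : ℤ) ∧
      ∑ a, ∑ b, t a b • betaA hζK two_ne_zero (Additive.ofMul (F j a)) (Additive.ofMul (F j b)) ∈
        S := by
    intro j
    refine ⟨!![0, 1; 0, 0], ?_, ?_⟩
    · have h1 : (!![0, 1; 0, 0] - (!![0, 1; 0, 0] : Matrix (Fin 2) (Fin 2) ℤ).transpose).det = 1 := by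
        rw [Matrix.det_fin_two]
        rfl
      change IsCoprime (!![0, 1; 0, 0] - (!![0, 1; 0, 0] :
        Matrix (Fin 2) (Fin 2) ℤ).transpose).det _
      rw [h1]
      exact isCoprime_one_left
    · have h1 : ∑ a, ∑ b, (!![0, 1; 0, 0] : Matrix (Fin 2) (Fin 2) ℤ) a b •
          betaA hζK two_ne_zero (Additive.ofMul (F j a)) (Additive.ofMul (F j b)) =
          Additive.ofMul (beta hζK two_ne_zero (f j) (h j)) := by
        rw [Fin.sum_univ_two, Fin.sum_univ_two, Fin.sum_univ_two]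
        simp [F, betaA_apply]
      change ∑ a, ∑ b, (!![0, 1; 0, 0] : Matrix (Fin 2) (Fin 2) ℤ) a b •
          betaA hζK two_ne_zero (Additive.ofMul (F j a)) (Additive.ofMul (F j b)) ∈ S
      rw [h1]
      rcases hfh j with ⟨L, hL, hfL, hhL⟩ | hc
      · rw [beta_eq_one_of_trdeg hζ two_ne_zero hζK L hL hfL hhL, ofMul_one]
        exact AddSubgroup.zero_mem _
      · obtain ⟨w, hw, hwS⟩ := hcl _ hc
        have : w = beta hζK two_ne_zero (f j) (h j) := Units.ext hw
        rwa [this] at hwS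
  obtain ⟨l, hl, α', hα', hdec⟩ := core_decomposition two_ne_zero hζK M (fun _ => 1)
    (by
      intro j p hp hp2
      exact hp.one_lt) F S hrel
    (α := α) (by
      refine Submonoid.closure_mono ?_ hα
      rintro c ⟨u, v, hu, hv, rfl⟩
      exact Or.inl ⟨u, hslots hu, v, hslots hv, rfl⟩)
  have hAP : AP (betaA hζK two_ne_zero) S (fieldUnits M).toAddSubgroup ≤ S :=
    AP_le le_rfl (fun u hu v hv => apply_mem_AP ⊥ hu hv)
  obtain ⟨u, v, huv⟩ := exists_single_symbol hζ hζK M hM (hAP hα')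
  refine ⟨l ++ [(u, v)], ?_, ?_⟩
  · rw [List.length_append, hl]
    simp
  · rw [hdec, huv, List.map_append, List.prod_append, List.map_singleton, List.prod_singleton]
    rfl

end

end Pool.Agent.Lib.MP_43d240_ag
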