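import Pool.Agent.Lib.MP_43d240_ag.CubicClosure
import Pool.Agent.Lib.MP_43d240_ag.QuatMain

/-!
# Period two classes on products of elliptic curves over a base
-/

set_option autoImplicit false

open scoped TensorProduct

open Polynomial

universe u v w x

namespace Pool.Agent.Lib.MP_43d240_ag

section Instantiate

variable {M K : Type u} [Field M] [Field K] [Algebra M K]

theorem beta_mul_self (hζ : IsPrimitiveRoot (-1 : K) 2) (a b : Kˣ) :
    beta hζ two_ne_zero a b * beta hζ two_ne_zero a b = 1 := by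
  rw [← MonoidHom.mul_apply, ← map_mul, ← pow_two, beta_pow_left]

theorem beta_comm (hζ : IsPrimitiveRoot (-1 : K) 2) (a b : Kˣ) :
    beta hζ two_ne_zero a b = beta hζ two_ne_zero b a := by
  rw [eq_inv_of_mul_eq_one_left (beta_skew hζ two_ne_zero a b)]
  exact (eq_inv_of_mul_eq_one_left (beta_mul_self hζ b a)).symm

/-- The unit of `K` attached to a unit of `M`. -/
noncomputable abbrev um (M K : Type u) [Field M] [Field K] [Algebra M K] : Mˣ →* Kˣ :=
  Units.map (algebraMap M K : M →* K)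

variable (M) in
/-- The subgroup generated by the quaternion classes of the base field. -/
noncomputable def baseGroup (hζ : IsPrimitiveRoot (-1 : K) 2) : AddSubgroup (Additive (BrM K)ˣ) :=
  AddSubgroup.closure {g | ∃ u v : Mˣ,
    g = Additive.ofMul (beta hζ two_ne_zero (um M K u) (um M K v))}

open Classical in
/-- The symbol with values in the quotient by the classes of the base field. -/
noncomputable def quotSymbol (hζ : IsPrimitiveRoot (-1 : K) 2) :
    SymbolTwo M K (Additive (BrM K)ˣ ⧸ baseGroup M hζ) where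
  s a b := if h : a ≠ 0 ∧ b ≠ 0 then
    QuotientAddGroup.mk (Additive.ofMul (beta hζ two_ne_zero (Units.mk0 a h.1) (Units.mk0 b h.2)))
    else 0
  mul_left := by
    intro a b c ha hb
    by_cases hc : c = 0
    · subst hc
      simp
    · have hab : a * b ≠ 0 := mul_ne_zero ha hb
      rw [dif_pos ⟨hab, hc⟩, dif_pos ⟨ha, hc⟩, dif_pos ⟨hb, hc⟩, ← QuotientAddGroup.mk_add,
        ← ofMul_mul, Units.mk0_mul a b hab, map_mul, MonoidHom.mul_apply]
  symm := by
    intro a b
    by_cases h : a ≠ 0 ∧ b ≠ 0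
    · rw [dif_pos h, dif_pos h.symm, beta_comm hζ]
    · rw [dif_neg h, dif_neg (fun h' => h h'.symm)]
  two := by
    intro a b
    by_cases h : a ≠ 0 ∧ b ≠ 0
    · rw [dif_pos h, ← QuotientAddGroup.mk_add, ← ofMul_mul, beta_mul_self, ofMul_one,
        QuotientAddGroup.mk_zero]
    · rw [dif_neg h, add_zero]
  steinberg := by
    intro a b ha hb hab
    rw [dif_pos ⟨ha, hb⟩, beta_steinberg hζ (a := Units.mk0 a ha) (b := Units.mk0 b hb) hab,
      ofMul_one, QuotientAddGroup.mk_zero]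
  neg_self := by
    intro a
    by_cases h : a ≠ 0 ∧ -a ≠ 0
    · rw [dif_pos h, beta_neg_self hζ (a := Units.mk0 a h.1) (b := Units.mk0 (-a) h.2) rfl,
        ofMul_one, QuotientAddGroup.mk_zero]
    · rw [dif_neg h]
  base := by
    intro a b
    by_cases h : algebraMap M K a ≠ 0 ∧ algebraMap M K b ≠ 0
    · rw [dif_pos h, QuotientAddGroup.eq_zero_iff]
      have ha : a ≠ 0 := fun h0 => h.1 (by rw [h0, map_zero])
      have hb : b ≠ 0 := fun h0 => h.2 (by rw [h0, map_zero])
      refine AddSubgroup.subset_closure ⟨Units.mk0 a ha, Units.mk0 b hb, ?_⟩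
      congr 2
    · rw [dif_neg h]

theorem quotSymbol_units (hζ : IsPrimitiveRoot (-1 : K) 2) (a b : Kˣ) :
    (quotSymbol (M := M) hζ).s (a : K) (b : K) =
      QuotientAddGroup.mk (Additive.ofMul (beta hζ two_ne_zero a b)) := by
  refine (dif_pos (⟨a.ne_zero, b.ne_zero⟩ : (a : K) ≠ 0 ∧ (b : K) ≠ 0)).trans ?_
  rw [Units.mk0_val, Units.mk0_val]

/-- The point classes of one curve. -/
def pointClasses (M : Type u) {K : Type u} [Field M] [Field K] [Algebra M K]
    (a₂ a₁ a₀ : M) (x : K) : Set (BrM K) :=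
  {c | ∃ t e : M, e ≠ 0 ∧ IsSquare (e * (t ^ 3 + a₂ * t ^ 2 + a₁ * t + a₀)) ∧
    c = cls K (Symb 2 (-1 : K) (x - algebraMap M K t) (algebraMap M K e))}

/-- The quaternion classes of a field. -/
def quatClasses (M : Type u) [Field M] : Set (BrM M) :=
  {c | ∃ u v : M, u ≠ 0 ∧ v ≠ 0 ∧ c = cls M (Symb 2 (-1 : M) u v)}

theorem curve_single (hζ : IsPrimitiveRoot (-1 : K) 2) {a₂ a₁ a₀ : M} {x y : K}
    (hx : ∀ t : M, x ≠ algebraMap M K t) (hy : y ≠ 0)
    (hxy : y ^ 2 = x ^ 3 + algebraMap M K a₂ * x ^ 2 + algebraMap M K a₁ * x + algebraMap M K a₀)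
    {g : Additive (BrM K)ˣ}
    (hg : g ∈ AddSubgroup.closure {g : Additive (BrM K)ˣ | ((g.toMul : (BrM K)ˣ) : BrM K) ∈
      pointClasses M a₂ a₁ a₀ x}) :
    ∃ a b : Kˣ, ∃ w ∈ baseGroup M hζ, g = Additive.ofMul (beta hζ two_ne_zero a b) + w := by
  set σ := quotSymbol (M := M) hζ with hσ
  set f : M[X] := X ^ 3 + C a₂ * X ^ 2 + C a₁ * X + C a₀ with hf
  have hxy' : y ^ 2 = aeval x f := by
    rw [hxy, hf]
    simp
  have hmem : (QuotientAddGroup.mk g : Additive (BrM K)ˣ ⧸ baseGroup M hζ) ∈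
      AddSubgroup.closure (SymbolTwo.Gen σ x f) := by
    have h1 := AddSubgroup.mem_map_of_mem (QuotientAddGroup.mk' (baseGroup M hζ)) hg
    rw [AddMonoidHom.map_closure] at h1
    refine AddSubgroup.closure_mono ?_ h1
    rintro _ ⟨g', ⟨t, e, he, hsq, hc⟩, rfl⟩
    refine ⟨t, e, he, ?_, ?_⟩
    · simpa [hf] using hsq
    · have h2 : g' = Additive.ofMul (beta hζ two_ne_zero
          (Units.mk0 (x - algebraMap M K t) (SymbolTwo.X_ne hx t))
          (Units.mk0 (algebraMap M K e) (SymbolTwo.am_ne he))) := by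
        apply Additive.toMul.injective
        apply Units.ext
        rw [hc]
        rfl
      rw [h2]
      exact (quotSymbol_units (M := M) hζ _ _).symm
  obtain ⟨a, b, ha, hb, hab⟩ := SymbolTwo.exists_symbol_of_closure σ hx f hf hy hxy' hmem
  refine ⟨Units.mk0 a ha, Units.mk0 b hb,
    -Additive.ofMul (beta hζ two_ne_zero (Units.mk0 a ha) (Units.mk0 b hb)) + g, ?_, ?_⟩
  · rw [← QuotientAddGroup.eq]
    rw [hab]
    exact (quotSymbol_units (M := M) hζ (Units.mk0 a ha) (Units.mk0 b hb)).symm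
  · abel

/-- Elements of the base group come from the base field. -/
theorem exists_of_mem_baseGroup (hζ : IsPrimitiveRoot (-1 : K) 2)
    (hζM : IsPrimitiveRoot (-1 : M) 2) {g : Additive (BrM K)ˣ} (hg : g ∈ baseGroup M hζ) :
    ∃ δ : (BrM M)ˣ, δ * δ = 1 ∧ (δ : BrM M) ∈ Submonoid.closure (quatClasses M) ∧
      g = Additive.ofMul (Units.map (bc M K : BrM M →* BrM K) δ) := by
  induction hg using AddSubgroup.closure_induction with
  | mem g hg =>
    obtain ⟨u, v, rfl⟩ := hg
    refine ⟨beta hζM two_ne_zero u v, beta_mul_self hζM u v,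
      Submonoid.subset_closure ⟨u, v, u.ne_zero, v.ne_zero, rfl⟩, ?_⟩
    congr 1
    apply Units.ext
    rw [Units.coe_map, beta_val]
    have h := bc_symb M K hζM two_ne_zero u.ne_zero v.ne_zero
    have h1 : algebraMap M K (-1) = -1 := by simp
    rw [h1] at h
    exact h.symm
  | zero => exact ⟨1, by simp, Submonoid.one_mem _, by simp⟩
  | add g h _ _ hg hh =>
    obtain ⟨δ, hδ, hδ', rfl⟩ := hg
    obtain ⟨ε, hε, hε', rfl⟩ := hh
    refine ⟨δ * ε, ?_, ?_, by rw [map_mul, ofMul_mul]⟩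
    · rw [mul_mul_mul_comm, hδ, hε, one_mul]
    · rw [Units.val_mul]
      exact Submonoid.mul_mem _ hδ' hε'
  | neg g _ hg =>
    obtain ⟨δ, hδ, hδ', rfl⟩ := hg
    refine ⟨δ, hδ, hδ', ?_⟩
    rw [← ofMul_inv, ← map_inv, inv_eq_of_mul_eq_one_right hδ]

theorem elliptic_decomposition (hζ : IsPrimitiveRoot (-1 : K) 2) (hζM : IsPrimitiveRoot (-1 : M) 2)
    {r : ℕ} (a₂ a₁ a₀ : Fin r → M) (x y : Fin r → K)
    (hx : ∀ i, ∀ t : M, x i ≠ algebraMap M K t) (hy : ∀ i, y i ≠ 0)
    (hxy : ∀ i, y i ^ 2 = x i ^ 3 + algebraMap M K (a₂ i) * x i ^ 2 +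
      algebraMap M K (a₁ i) * x i + algebraMap M K (a₀ i))
    {α : BrM K}
    (hα : α ∈ Submonoid.closure ((⋃ i, pointClasses M (a₂ i) (a₁ i) (a₀ i) (x i)) ∪
      bc M K '' quatClasses M)) :
    ∃ (l : List (Kˣ × Kˣ)) (δ : BrM M), l.length = r ∧ δ ∈ Submonoid.closure (quatClasses M) ∧
      IsUnit δ ∧
      α = (l.map fun p => cls K (Symb 2 (-1 : K) (p.1 : K) (p.2 : K))).prod * bc M K δ := by
  obtain ⟨w, hw, gi, w0, hgi, hw0, hsum⟩ : ∃ w : (BrM K)ˣ, (w : BrM K) = α ∧
      ∃ (gi : Fin r → Additive (BrM K)ˣ) (w0 : Additive (BrM K)ˣ),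
        (∀ i, gi i ∈ AddSubgroup.closure {g : Additive (BrM K)ˣ |
          ((g.toMul : (BrM K)ˣ) : BrM K) ∈ pointClasses M (a₂ i) (a₁ i) (a₀ i) (x i)}) ∧
        w0 ∈ baseGroup M hζ ∧ Additive.ofMul w = ∑ i, gi i + w0 := by
    induction hα using Submonoid.closure_induction with
    | mem c hc =>
      rcases hc with hc | ⟨c', ⟨u, v, hu, hv, rfl⟩, rfl⟩
      · obtain ⟨i, hi⟩ := Set.mem_iUnion.1 hc
        obtain ⟨t, e, he, hsq, rfl⟩ := id hi
        refine ⟨beta hζ two_ne_zero (Units.mk0 (x i - algebraMap M K t) (SymbolTwo.X_ne (hx i) t))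
          (Units.mk0 (algebraMap M K e) (SymbolTwo.am_ne he)), rfl,
          Pi.single i (Additive.ofMul (beta hζ two_ne_zero
            (Units.mk0 (x i - algebraMap M K t) (SymbolTwo.X_ne (hx i) t))
            (Units.mk0 (algebraMap M K e) (SymbolTwo.am_ne he)))), 0, ?_,
          AddSubgroup.zero_mem _, ?_⟩
        · intro j
          by_cases hij : j = i
          · subst hij
            rw [Pi.single_eq_same]
            exact AddSubgroup.subset_closure hi
          · rw [Pi.single_eq_of_ne hij]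
            exact AddSubgroup.zero_mem _
        · rw [add_zero, Finset.sum_pi_single']
          simp
      · refine ⟨beta hζ two_ne_zero (um M K (Units.mk0 u hu)) (um M K (Units.mk0 v hv)), ?_,
          0, Additive.ofMul (beta hζ two_ne_zero (um M K (Units.mk0 u hu))
            (um M K (Units.mk0 v hv))), fun _ => AddSubgroup.zero_mem _,
          AddSubgroup.subset_closure ⟨_, _, rfl⟩, by simp⟩
        have h := bc_symb M K hζM two_ne_zero hu hv
        have h1 : algebraMap M K (-1) = -1 := by simp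
        rw [h1] at h
        exact h.symm
    | one =>
      exact ⟨1, rfl, 0, 0, fun _ => AddSubgroup.zero_mem _, AddSubgroup.zero_mem _, by simp⟩
    | mul c d _ _ hc hd =>
      obtain ⟨w, rfl, gi, w0, hgi, hw0, hsum⟩ := hc
      obtain ⟨w', rfl, gi', w0', hgi', hw0', hsum'⟩ := hd
      refine ⟨w * w', rfl, gi + gi', w0 + w0', fun i => AddSubgroup.add_mem _ (hgi i) (hgi' i),
        AddSubgroup.add_mem _ hw0 hw0', ?_⟩
      rw [ofMul_mul, hsum, hsum']
      simp only [Pi.add_apply, Finset.sum_add_distrib]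
      abel
  choose a b wi hwi hab using fun i => curve_single hζ (hx i) (hy i) (hxy i) (hgi i)
  have hW : ∑ i, wi i + w0 ∈ baseGroup M hζ :=
    AddSubgroup.add_mem _ (AddSubgroup.sum_mem _ (fun i _ => hwi i)) hw0
  obtain ⟨δ, hδ, hδ', hδw⟩ := exists_of_mem_baseGroup hζ hζM hW
  refine ⟨List.ofFn (fun i => (a i, b i)), δ, by simp, hδ', δ.isUnit, ?_⟩
  have h1 : Additive.ofMul w = ∑ i, Additive.ofMul (beta hζ two_ne_zero (a i) (b i)) +
      Additive.ofMul (Units.map (bc M K : BrM M →* BrM K) δ) := by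
    rw [hsum, ← hδw]
    simp only [hab, Finset.sum_add_distrib]
    abel
  have h2 : w = (∏ i, beta hζ two_ne_zero (a i) (b i)) * Units.map (bc M K : BrM M →* BrM K) δ := by
    apply Additive.ofMul.injective
    rw [h1, ofMul_mul, ofMul_prod]
  rw [← hw, h2, Units.val_mul, Units.coe_prod, List.map_ofFn, List.prod_ofFn]
  rfl

/-- Over a field of transcendence degree at most two over an algebraically closed field, products
of quaternion classes are quaternion classes. -/
theorem single_of_trdeg {k : Type u} [Field k] [IsAlgClosed k] [Algebra k M]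
    (hM : Algebra.trdeg k M ≤ 2) (hζM : IsPrimitiveRoot (-1 : M) 2) {δ : BrM M}
    (hδ : δ ∈ Submonoid.closure (quatClasses M)) :
    ∃ u v : Mˣ, δ = cls M (Symb 2 (-1 : M) (u : M) (v : M)) := by
  have hTL : TL 4 2 M := by
    have := TL.of_trdeg_le two_ne_zero 2 (by exact_mod_cast hM) (TL.of_isAlgClosed k two_ne_zero)
    simpa using this
  induction hδ using Submonoid.closure_induction with
  | mem c hc =>
    obtain ⟨u, v, hu, hv, rfl⟩ := hc
    exact ⟨Units.mk0 u hu, Units.mk0 v hv, rfl⟩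
  | one =>
    refine ⟨1, 1, ?_⟩
    have h : beta hζM two_ne_zero 1 1 = 1 := by simp
    exact (congrArg Units.val h).symm
  | mul c d _ _ hc hd =>
    obtain ⟨u, v, rfl⟩ := hc
    obtain ⟨u', v', rfl⟩ := hd
    obtain ⟨t, s, h⟩ := beta_mul_beta hζM hTL u v u' v'
    exact ⟨t, s, congrArg Units.val h⟩

end Instantiate

end Pool.Agent.Lib.MP_43d240_ag
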