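import Pool.Agent.Lib.MP_43d240_ag.Rep

/-!
# Inducing representations: from `(c,b)` of degree `e` to `(c ^ ℓ, b)` of degree `e ℓ`
-/

set_option autoImplicit false

universe u v w x

namespace Pool.Agent.Lib.MP_43d240_ag

namespace Symb

section Induced

variable {L : Type u} [Field L] {V : Type v} [AddCommGroup V] [Module L V]
variable {ℓ : ℕ} [NeZero ℓ]

/-- The operator `X` on the induced module. -/
noncomputable def indX (ℓ : ℕ) [NeZero ℓ] (ζ : L) (X : Module.End L V) :
    Module.End L (ZMod ℓ → V) where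
  toFun f j := (ζ⁻¹ ^ (j.val)) • X (f j)
  map_add' f g := by ext j; simp
  map_smul' c f := by ext j; simp [smul_comm c]

/-- The operator `Y` on the induced module. -/
noncomputable def indY (ℓ : ℕ) [NeZero ℓ] (Y : Module.End L V) :
    Module.End L (ZMod ℓ → V) where
  toFun f j := if j = 0 then Y (f (j - 1)) else f (j - 1)
  map_add' f g := by
    ext j
    by_cases h : j = 0 <;> simp [h]
  map_smul' c f := by
    ext j
    by_cases h : j = 0 <;> simp [h]

theorem indX_apply (ζ : L) (X : Module.End L V) (f : ZMod ℓ → V) (j : ZMod ℓ) :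
    indX ℓ ζ X f j = (ζ⁻¹ ^ (j.val)) • X (f j) := rfl

theorem indY_apply (Y : Module.End L V) (f : ZMod ℓ → V) (j : ZMod ℓ) :
    indY ℓ Y f j = if j = 0 then Y (f (j - 1)) else f (j - 1) := rfl

theorem indX_pow_apply (ζ : L) (X : Module.End L V) (k : ℕ) (f : ZMod ℓ → V) (j : ZMod ℓ) :
    (indX ℓ ζ X ^ k) f j = (ζ⁻¹ ^ (j.val)) ^ k • (X ^ k) (f j) := by
  induction k generalizing f with
  | zero => simp
  | succ k ih =>
    rw [pow_succ, Module.End.mul_apply, ih, indX_apply, map_smul, smul_smul, ← pow_succ,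
      pow_succ X, Module.End.mul_apply]

theorem indY_pow_apply (Y : Module.End L V) {k : ℕ} (hk : k ≤ ℓ) (f : ZMod ℓ → V)
    (j : ZMod ℓ) :
    (indY ℓ Y ^ k) f j = if k ≤ j.val then f (j - k) else Y (f (j - k)) := by
  induction k generalizing f with
  | zero => simp
  | succ k ih =>
    rw [pow_succ, Module.End.mul_apply, ih (by omega)]
    simp only [indY_apply]
    have h1 : j - (k : ZMod ℓ) - 1 = j - ((k + 1 : ℕ) : ZMod ℓ) := by
      push_cast; ring
    rw [h1]
    have h2 : j - (k : ZMod ℓ) = 0 ↔ j.val = k := by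
      rw [sub_eq_zero]
      constructor
      · intro h
        rw [h, ZMod.val_natCast, Nat.mod_eq_of_lt (by omega)]
      · intro h
        rw [← h, ZMod.natCast_zmod_val]
    rcases lt_trichotomy k j.val with h | h | h
    · rw [if_pos h.le, if_neg (fun h0 => by rw [h2] at h0; omega), if_pos (by omega)]
    · rw [if_pos h.le, if_pos (h2.2 h.symm), if_neg (by omega)]
    · rw [if_neg (by omega), if_neg (fun h0 => by rw [h2] at h0; omega), if_neg (by omega)]

theorem indY_pow_self (Y : Module.End L V) (f : ZMod ℓ → V) (j : ZMod ℓ) :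
    (indY ℓ Y ^ ℓ) f j = Y (f j) := by
  rw [indY_pow_apply Y le_rfl, if_neg (not_le.2 (ZMod.val_lt j))]
  simp

theorem indY_pow_mul (Y : Module.End L V) (k : ℕ) (f : ZMod ℓ → V) (j : ZMod ℓ) :
    (indY ℓ Y ^ (ℓ * k)) f j = (Y ^ k) (f j) := by
  induction k generalizing f with
  | zero => simp
  | succ k ih =>
    rw [Nat.mul_succ, pow_add, Module.End.mul_apply, ih, indY_pow_self, pow_succ Y,
      Module.End.mul_apply]

theorem val_neg_one' : ((0 : ZMod ℓ) - 1).val = ℓ - 1 := by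
  have h : ((0 : ZMod ℓ) - 1) = ((ℓ - 1 : ℕ) : ZMod ℓ) := by
    rw [Nat.cast_sub (Nat.one_le_iff_ne_zero.2 (NeZero.ne ℓ))]
    simp
  rw [h, ZMod.val_natCast, Nat.mod_eq_of_lt]
  have := NeZero.pos ℓ
  omega

theorem val_sub_one' {j : ZMod ℓ} (hj : j ≠ 0) : (j - 1).val + 1 = j.val := by
  have hpos : 0 < j.val := Nat.pos_of_ne_zero (fun h => hj ((ZMod.val_eq_zero j).1 h))
  have h : j - 1 = ((j.val - 1 : ℕ) : ZMod ℓ) := by
    rw [Nat.cast_sub hpos, ZMod.natCast_zmod_val]
    simp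
  rw [h, ZMod.val_natCast, Nat.mod_eq_of_lt]
  · omega
  · have := ZMod.val_lt j
    omega

theorem isPair_ind {e : ℕ} (he : e ≠ 0) {ζ b c : L} (hζ : ζ ^ (ℓ * e) = 1)
    {X Y : Module.End L V} (h : IsPair e (ζ ^ ℓ) c b X Y) :
    IsPair (ℓ * e) ζ (c ^ ℓ) b (indX ℓ ζ X) (indY ℓ Y) := by
  have hle : ℓ * e ≠ 0 := mul_ne_zero (NeZero.ne ℓ) he
  have hζ0 : ζ ≠ 0 := by
    rintro rfl
    rw [zero_pow hle] at hζ
    exact zero_ne_one hζ
  refine ⟨?_, ?_, ?_⟩
  · refine LinearMap.ext fun f => funext fun j => ?_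
    have h1 : (ζ⁻¹ ^ j.val) ^ (ℓ * e) = 1 := by
      rw [← pow_mul, mul_comm j.val, pow_mul, inv_pow, hζ, inv_one, one_pow]
    have h2 : X ^ (ℓ * e) = algebraMap L _ (c ^ ℓ) := by
      rw [mul_comm ℓ e, pow_mul, h.powX, ← map_pow]
    rw [indX_pow_apply, h1, one_smul, h2, Module.algebraMap_end_apply,
      Module.algebraMap_end_apply]
    rfl
  · refine LinearMap.ext fun f => funext fun j => ?_
    rw [indY_pow_mul, h.powY]
    simp [Module.algebraMap_end_apply]
  · refine LinearMap.ext fun f => funext fun j => ?_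
    simp only [Module.End.mul_apply, LinearMap.smul_apply, Pi.smul_apply, indX_apply, indY_apply]
    by_cases hj : j = 0
    · have h2 := LinearMap.congr_fun h.comm (f (j - 1))
      simp only [Module.End.mul_apply, LinearMap.smul_apply] at h2
      rw [if_pos hj, if_pos hj, map_smul, h2]
      subst hj
      rw [val_neg_one', ZMod.val_zero, pow_zero, one_smul, smul_smul]
      congr 1
      obtain ⟨t, ht⟩ : ∃ t, ℓ = t + 1 := ⟨ℓ - 1, by have := NeZero.pos ℓ; omega⟩
      rw [ht, Nat.add_sub_cancel, pow_succ, ← mul_assoc, ← mul_pow, inv_mul_cancel₀ hζ0, one_pow,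
        one_mul]
    · rw [if_neg hj, if_neg hj, smul_smul, ← val_sub_one' hj, pow_succ']
      congr 1
      rw [← mul_assoc, mul_inv_cancel₀ hζ0, one_mul]

theorem HasRep.induced {e : ℕ} (he : e ≠ 0) {ζ b c : L} (hζ : ζ ^ (ℓ * e) = 1)
    (h : HasRep e (ζ ^ ℓ) c b) : HasRep (ℓ * e) ζ (c ^ ℓ) b := by
  obtain ⟨X, Y, h⟩ := h
  have h1 := h.map (Matrix.toLinAlgEquiv' : Matrix (Fin e) (Fin e) L ≃ₐ[L] _).toAlgHom
  refine hasRep_of_finrank (mul_ne_zero (NeZero.ne ℓ) he) ?_ (isPair_ind he hζ h1)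
  rw [Module.finrank_pi_fintype, Finset.sum_const]
  simp

end Induced

end Symb

end Pool.Agent.Lib.MP_43d240_ag
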