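import Mathlib

/-!
# Kummer theory without case distinctions

If `L` contains a primitive `n`-th root of unity and `a ≠ 0`, then `a = c ^ (n / e)` for a divisor
`e` of `n` such that `X ^ e - c` is irreducible.
-/

set_option autoImplicit false

universe u v w x

namespace Pool.Agent.Lib.MP_43d240_ag

open Polynomial

theorem exists_prod_eq_of_forall {L Ω : Type*} [Field L] [Field Ω] [Algebra L Ω] (α : Ω)
    (s : Multiset Ω) (hs : ∀ r ∈ s, ∃ u : L, u ≠ 0 ∧ r = algebraMap L Ω u * α) :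
    ∃ u : L, u ≠ 0 ∧ s.prod = algebraMap L Ω u * α ^ Multiset.card s := by
  induction s using Multiset.induction with
  | empty => exact ⟨1, one_ne_zero, by simp⟩
  | cons r s ih =>
    obtain ⟨u, hu, hu'⟩ := ih (fun r' hr' => hs r' (Multiset.mem_cons_of_mem hr'))
    obtain ⟨w, hw, hw'⟩ := hs r (Multiset.mem_cons_self r s)
    refine ⟨w * u, mul_ne_zero hw hu, ?_⟩
    rw [Multiset.prod_cons, hu', hw', Multiset.card_cons, map_mul]
    ring

theorem exists_irreducible_root {L : Type u} [Field L] {n : ℕ} (hn : n ≠ 0) {ζ : L}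
    (hζ : IsPrimitiveRoot ζ n) {a : L} (ha : a ≠ 0) :
    ∃ (e : ℕ) (c : L), e ≠ 0 ∧ e ∣ n ∧ c ^ (n / e) = a ∧ Irreducible (X ^ e - C c : L[X]) := by
  classical
  let Ω := AlgebraicClosure L
  obtain ⟨α, hα⟩ := IsAlgClosed.exists_pow_nat_eq (algebraMap L Ω a) (Nat.pos_of_ne_zero hn)
  have hinj : Function.Injective (algebraMap L Ω) := (algebraMap L Ω).injective
  have hα0 : α ≠ 0 := by
    rintro rfl
    rw [zero_pow hn] at hα
    exact ha (hinj (by rw [← hα, map_zero]))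
  have hint : IsIntegral L α := Algebra.IsIntegral.isIntegral α
  set μ := minpoly L α with hμ
  have hmonic : μ.Monic := minpoly.monic hint
  set e := μ.natDegree with he
  have he0 : 0 < e := minpoly.natDegree_pos hint
  have hdvd : μ ∣ X ^ n - C a := minpoly.dvd L α (by simp [hα])
  have hsplit : (μ.map (algebraMap L Ω)).Splits := IsAlgClosed.splits _
  have hζ' : IsPrimitiveRoot (algebraMap L Ω ζ) n := hζ.map_of_injective hinj
  have hroots : ∀ r ∈ (μ.map (algebraMap L Ω)).roots, ∃ u : L, u ≠ 0 ∧ r = algebraMap L Ω u * α := by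
    intro r hr
    have hr1 : eval₂ (algebraMap L Ω) r μ = 0 := by
      have := (mem_roots'.1 hr).2
      rwa [IsRoot.def, eval_map] at this
    have hr2 : r ^ n = algebraMap L Ω a := by
      obtain ⟨ν, hν⟩ := hdvd
      have h1 : eval₂ (algebraMap L Ω) r (X ^ n - C a) = 0 := by
        rw [hν, eval₂_mul, hr1, zero_mul]
      simpa [sub_eq_zero] using h1
    have h3 : (r / α) ^ n = 1 := by
      rw [div_pow, hr2, hα, div_self]
      exact (map_ne_zero_iff _ hinj).2 ha
    have : NeZero n := ⟨hn⟩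
    obtain ⟨i, _, hi⟩ := hζ'.eq_pow_of_pow_eq_one h3
    refine ⟨ζ ^ i, pow_ne_zero _ (hζ.ne_zero hn), ?_⟩
    rw [map_pow, hi, div_mul_cancel₀ _ hα0]
  obtain ⟨u, hu, hprod⟩ := exists_prod_eq_of_forall α _ hroots
  have hcard : Multiset.card (μ.map (algebraMap L Ω)).roots = e := by
    rw [← hsplit.natDegree_eq_card_roots, natDegree_map]
  have hcoeff := hsplit.coeff_zero_eq_prod_roots_of_monic (hmonic.map _)
  rw [hprod, hcard, coeff_map, natDegree_map, ← he] at hcoeff
  -- `α ^ e ∈ L`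
  obtain ⟨c, hc⟩ : ∃ c : L, algebraMap L Ω c = α ^ e := by
    refine ⟨(μ.coeff 0) * ((-1) ^ e * u)⁻¹, ?_⟩
    rw [map_mul, hcoeff, map_inv₀, map_mul, map_pow, map_neg, map_one]
    have h1 : ((-1 : Ω) ^ e * algebraMap L Ω u) ≠ 0 :=
      mul_ne_zero (pow_ne_zero _ (by simp)) ((map_ne_zero_iff _ hinj).2 hu)
    have h2 : (-1 : Ω) ^ e * (algebraMap L Ω u * α ^ e) =
        ((-1 : Ω) ^ e * algebraMap L Ω u) * α ^ e := by ring
    rw [h2, mul_right_comm, mul_inv_cancel₀ h1, one_mul]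
  have hc0 : c ≠ 0 := by
    rintro rfl
    rw [map_zero] at hc
    exact pow_ne_zero e hα0 hc.symm
  have hμeq : μ = X ^ e - C c := by
    have h1 : μ ∣ X ^ e - C c := minpoly.dvd L α (by simp [hc])
    have h2 : (X ^ e - C c : L[X]).Monic := monic_X_pow_sub_C c he0.ne'
    exact (eq_of_monic_of_dvd_of_natDegree_le hmonic h2 h1 (by rw [natDegree_X_pow_sub_C])).symm
  -- `e ∣ n`
  have hgcd : e ∣ n := by
    have h1 : ∃ c' : L, algebraMap L Ω c' = α ^ (Nat.gcd e n) := by
      refine ⟨c ^ (Nat.gcdA e n) * a ^ (Nat.gcdB e n), ?_⟩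
      rw [map_mul, map_zpow₀, map_zpow₀, hc, ← hα, ← zpow_natCast, ← zpow_natCast, ← zpow_natCast,
        ← zpow_mul, ← zpow_mul, ← zpow_add₀ hα0, Nat.gcd_eq_gcd_ab]
    obtain ⟨c', hc'⟩ := h1
    have hg0 : 0 < Nat.gcd e n := Nat.gcd_pos_of_pos_left _ he0
    have h2 : μ ∣ X ^ (Nat.gcd e n) - C c' := minpoly.dvd L α (by simp [hc'])
    have h3 : e ≤ Nat.gcd e n := by
      have := natDegree_le_of_dvd h2 (X_pow_sub_C_ne_zero hg0 c')
      rwa [natDegree_X_pow_sub_C] at this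
    have h4 : Nat.gcd e n = e := le_antisymm (Nat.gcd_le_left _ he0) h3
    rw [← h4]; exact Nat.gcd_dvd_right e n
  refine ⟨e, c, he0.ne', hgcd, ?_, ?_⟩
  · apply hinj
    rw [map_pow, hc, ← pow_mul, Nat.mul_div_cancel' hgcd, hα]
  · rw [← hμeq]; exact minpoly.irreducible hint

end Pool.Agent.Lib.MP_43d240_ag
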