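import Pool.Agent.Lib.MP_43d240_ag.SymbBasis

/-!
# Split symbol algebras, and the relations between tensor products of symbol algebras
-/

set_option autoImplicit false

open scoped TensorProduct

universe u v w x

namespace Pool.Agent.Lib.MP_43d240_ag

namespace Symb

section Lift

variable {K : Type u} [Field K] {n : ℕ} {ζ a b a' b' : K} {B : Type v} [Ring B] [Algebra K B]
variable {X Y X' Y' : B}

theorem lift_injective [Nontrivial B] (hζ : IsPrimitiveRoot ζ n) (hn : n ≠ 0) (ha : a ≠ 0)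
    (hb : b ≠ 0) (h : IsPair n ζ a b X Y) : Function.Injective (lift h) := by
  have h1 := IsPair.linearIndependent hζ hn ha hb h
  have h3 : ((lift h).toLinearMap ∘ fun p : Fin n × Fin n =>
      gx n ζ a b ^ (p.1 : ℕ) * gy n ζ a b ^ (p.2 : ℕ)) =
      fun p : Fin n × Fin n => X ^ (p.1 : ℕ) * Y ^ (p.2 : ℕ) := by
    funext p
    simp
  have h2 := LinearMap.injective_of_linearIndependent (f := (lift h).toLinearMap)
    (span_eq_top (ζ := ζ) (a := a) (b := b) hn) (by rw [h3]; exact h1)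
  exact h2

theorem nonempty_algEquiv_of_finrank [Nontrivial B] (hζ : IsPrimitiveRoot ζ n) (hn : n ≠ 0)
    (ha : a ≠ 0) (hb : b ≠ 0) (h : IsPair n ζ a b X Y) (hd : Module.finrank K B = n * n) :
    Nonempty (Symb n ζ a b ≃ₐ[K] B) := by
  have hfd := finiteDimensional hζ hn ha hb
  have hfd' : FiniteDimensional K B :=
    Module.finite_of_finrank_pos (by
      rw [hd]; exact Nat.mul_pos (Nat.pos_of_ne_zero hn) (Nat.pos_of_ne_zero hn))
  have hinj := lift_injective hζ hn ha hb h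
  have hsurj : Function.Surjective (lift h).toLinearMap :=
    (LinearMap.injective_iff_surjective_of_finrank_eq_finrank
      (by rw [finrank_eq hζ hn ha hb, hd])).1 hinj
  exact ⟨AlgEquiv.ofBijective (lift h) ⟨hinj, hsurj⟩⟩

theorem commute_lift {z : B} (h : IsPair n ζ a b X Y) (hX : Commute X z) (hY : Commute Y z)
    (s : Symb n ζ a b) : Commute (lift h s) z := by
  have hs : s ∈ Algebra.adjoin K {gx n ζ a b, gy n ζ a b} := by
    rw [adjoin_eq_top]; trivial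
  induction hs using Algebra.adjoin_induction with
  | mem s hs =>
    rcases hs with rfl | hs
    · simpa using hX
    · rw [Set.mem_singleton_iff] at hs
      rw [hs]; simpa using hY
  | algebraMap c =>
    rw [AlgHom.commutes]
    exact Algebra.commutes c z
  | add y z _ _ hy hz =>
    rw [map_add]; exact hy.add_left hz
  | mul y z _ _ hy hz =>
    rw [map_mul]; exact hy.mul_left hz

theorem commute_lift_lift (h : IsPair n ζ a b X Y) (h' : IsPair n ζ a' b' X' Y')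
    (h11 : Commute X X') (h12 : Commute X Y') (h21 : Commute Y X') (h22 : Commute Y Y')
    (s : Symb n ζ a b) (t : Symb n ζ a' b') : Commute (lift h s) (lift h' t) := by
  have h1 : Commute X (lift h' t) := (commute_lift h' h11.symm h12.symm t).symm
  have h2 : Commute Y (lift h' t) := (commute_lift h' h21.symm h22.symm t).symm
  exact commute_lift h h1 h2 s

theorem nonempty_tensor_algEquiv (hζ : IsPrimitiveRoot ζ n) (hn : n ≠ 0)
    (ha : a ≠ 0) (hb : b ≠ 0) (ha' : a' ≠ 0) (hb' : b' ≠ 0)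
    (h : IsPair n ζ a b X Y) (h' : IsPair n ζ a' b' X' Y')
    (h11 : Commute X X') (h12 : Commute X Y') (h21 : Commute Y X') (h22 : Commute Y Y')
    (hd : Module.finrank K B = n * n * (n * n))
    (hgen : ∀ S : Subalgebra K B, X ∈ S → Y ∈ S → X' ∈ S → Y' ∈ S → S = ⊤) :
    Nonempty ((Symb n ζ a b) ⊗[K] (Symb n ζ a' b') ≃ₐ[K] B) := by
  have hfd1 := finiteDimensional hζ hn ha hb
  have hfd2 := finiteDimensional hζ hn ha' hb'
  have hfd' : FiniteDimensional K B :=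
    Module.finite_of_finrank_pos (by
      rw [hd]
      have := Nat.pos_of_ne_zero hn
      positivity)
  let f : (Symb n ζ a b) ⊗[K] (Symb n ζ a' b') →ₐ[K] B :=
    Algebra.TensorProduct.lift (lift h) (lift h') (commute_lift_lift h h' h11 h12 h21 h22)
  have hr : f.range = ⊤ := by
    apply hgen
    · exact ⟨gx n ζ a b ⊗ₜ 1, by simp [f]⟩
    · exact ⟨gy n ζ a b ⊗ₜ 1, by simp [f]⟩
    · exact ⟨1 ⊗ₜ gx n ζ a' b', by simp [f]⟩
    · exact ⟨1 ⊗ₜ gy n ζ a' b', by simp [f]⟩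
  have hsurj : Function.Surjective f := (AlgHom.range_eq_top f).1 hr
  have hdd : Module.finrank K ((Symb n ζ a b) ⊗[K] (Symb n ζ a' b')) = Module.finrank K B := by
    rw [Module.finrank_tensorProduct, finrank_eq hζ hn ha hb, finrank_eq hζ hn ha' hb', hd]
  have hinj : Function.Injective f.toLinearMap :=
    (LinearMap.injective_iff_surjective_of_finrank_eq_finrank hdd).2 hsurj
  exact ⟨AlgEquiv.ofBijective f ⟨hinj, hsurj⟩⟩

end Lift

section Split

variable {K : Type u} [Field K] {n : ℕ} {ζ a b : K}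

/-- The symbol `(a,b)` has a representation of dimension `n`. -/
def HasRep (n : ℕ) (ζ a b : K) : Prop :=
  ∃ X Y : Matrix (Fin n) (Fin n) K, IsPair n ζ a b X Y

theorem IsPair.map {B B' : Type*} [Ring B] [Algebra K B] [Ring B'] [Algebra K B']
    {X Y : B} (h : IsPair n ζ a b X Y) (f : B →ₐ[K] B') : IsPair n ζ a b (f X) (f Y) :=
  ⟨by rw [← map_pow, h.powX, AlgHom.commutes], by rw [← map_pow, h.powY, AlgHom.commutes],
    by rw [← map_mul, h.comm, map_smul, map_mul]⟩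

theorem hasRep_of_finrank {V : Type*} [AddCommGroup V] [Module K V] (hn : n ≠ 0)
    (hV : Module.finrank K V = n) {X Y : Module.End K V} (h : IsPair n ζ a b X Y) :
    HasRep n ζ a b := by
  have : FiniteDimensional K V := Module.finite_of_finrank_pos (by omega)
  let bV := Module.finBasisOfFinrankEq K V hV
  exact ⟨_, _, h.map (algEquivMatrix bV).toAlgHom⟩

theorem HasRep.nonempty_algEquiv (hζ : IsPrimitiveRoot ζ n) (hn : n ≠ 0) (ha : a ≠ 0)
    (hb : b ≠ 0) (h : HasRep n ζ a b) :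
    Nonempty (Symb n ζ a b ≃ₐ[K] Matrix (Fin n) (Fin n) K) := by
  obtain ⟨X, Y, h⟩ := h
  have : NeZero n := ⟨hn⟩
  refine nonempty_algEquiv_of_finrank hζ hn ha hb h ?_
  rw [Module.finrank_matrix]
  simp

theorem HasRep.cls_eq_one (hζ : IsPrimitiveRoot ζ n) (hn : n ≠ 0) (ha : a ≠ 0)
    (hb : b ≠ 0) (h : HasRep n ζ a b) : cls K (Symb n ζ a b) = 1 := by
  obtain ⟨e⟩ := h.nonempty_algEquiv hζ hn ha hb
  have : NeZero n := ⟨hn⟩
  exact cls_matrix K (Fin n) _ e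

theorem hasRep_one (hζ : ζ ^ n = 1) (hn : n ≠ 0) (c : K) : HasRep n ζ 1 c := by
  have : NeZero n := ⟨hn⟩
  exact hasRep_of_finrank hn (by simp) (isPair_std hζ c)

theorem IsPair.smul {B : Type*} [Ring B] [Algebra K B] {X Y : B} (h : IsPair n ζ a b X Y)
    (s t : K) : IsPair n ζ (s ^ n * a) (t ^ n * b) (s • X) (t • Y) := by
  refine ⟨?_, ?_, ?_⟩
  · rw [smul_pow, h.powX, map_mul, Algebra.smul_def]
  · rw [smul_pow, h.powY, map_mul, Algebra.smul_def]
  · rw [smul_mul_smul_comm, h.comm, smul_mul_smul_comm, smul_smul, smul_smul]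
    congr 1
    ring

theorem HasRep.smul (h : HasRep n ζ a b) (s t : K) : HasRep n ζ (s ^ n * a) (t ^ n * b) := by
  obtain ⟨X, Y, h⟩ := h
  exact ⟨_, _, h.smul s t⟩

end Split

/-! ### Relations -/

section Relations

variable {K : Type u} [Field K] {n : ℕ} {ζ a b c : K}

theorem unit_inv_pow {B : Type*} [Ring B] [Algebra K B] {U : Bˣ} (ha : a ≠ 0)
    (h : (U : B) ^ n = algebraMap K B a) : ((U⁻¹ : Bˣ) : B) ^ n = algebraMap K B a⁻¹ := by
  refine left_inv_eq_right_inv (a := (U : B) ^ n) ?_ ?_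
  · rw [← Units.val_pow_eq_pow_val, ← Units.val_pow_eq_pow_val, ← Units.val_mul, inv_pow,
      inv_mul_cancel, Units.val_one]
  · rw [h, ← map_mul, mul_inv_cancel₀ ha, map_one]

/-- `v u = q u v`. -/
def SC {B : Type*} [Ring B] [Algebra K B] (q : K) (u v : B) : Prop := v * u = q • (u * v)

section SC

variable {B : Type*} [Ring B] [Algebra K B] {q q' : K} {u u' v v' : B}

theorem SC.one_iff : SC (1 : K) u v ↔ Commute u v := by
  unfold SC
  rw [one_smul]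
  exact ⟨fun h => h.symm, fun h => h.symm⟩

theorem SC.mul_left (h : SC q u v) (h' : SC q' u' v) : SC (q * q') (u * u') v := by
  unfold SC at *
  rw [← mul_assoc, h, smul_mul_assoc, mul_assoc, h', mul_smul_comm, smul_smul, mul_assoc]

theorem SC.mul_right (h : SC q u v) (h' : SC q' u v') : SC (q * q') u (v * v') := by
  unfold SC at *
  rw [mul_assoc, h', mul_smul_comm, ← mul_assoc, h, smul_mul_assoc, smul_smul, mul_assoc,
    mul_comm q']

theorem SC.symm (hq : q ≠ 0) (h : SC q u v) : SC q⁻¹ v u := by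
  unfold SC at *
  rw [h, smul_smul, inv_mul_cancel₀ hq, one_smul]

theorem SC.inv_left {u : Bˣ} (hq : q ≠ 0) (h : SC q (u : B) v) :
    SC q⁻¹ ((u⁻¹ : Bˣ) : B) v := by
  unfold SC at *
  have h1 : ((u⁻¹ : Bˣ) : B) * (v * u) * (u⁻¹ : Bˣ) =
      q • (((u⁻¹ : Bˣ) : B) * ((u : B) * v) * (u⁻¹ : Bˣ)) := by
    rw [h, mul_smul_comm, smul_mul_assoc]
  rw [Units.inv_mul_cancel_left, ← mul_assoc, mul_assoc, Units.mul_inv, mul_one] at h1
  rw [h1, smul_smul, inv_mul_cancel₀ hq, one_smul]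

theorem SC.inv_right {v : Bˣ} (hq : q ≠ 0) (h : SC q u (v : B)) :
    SC q⁻¹ u ((v⁻¹ : Bˣ) : B) := by
  have h1 := (h.symm hq).inv_left (inv_ne_zero hq)
  have h2 := h1.symm (by simpa using hq)
  simpa using h2

end SC

theorem subalgebra_eq_top_of_gen {a b a' b' : K}
    (S : Subalgebra K (Symb n ζ a b ⊗[K] Symb n ζ a' b'))
    (h1 : gx n ζ a b ⊗ₜ[K] 1 ∈ S) (h2 : gy n ζ a b ⊗ₜ[K] 1 ∈ S)
    (h3 : 1 ⊗ₜ[K] gx n ζ a' b' ∈ S) (h4 : 1 ⊗ₜ[K] gy n ζ a' b' ∈ S) : S = ⊤ := by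
  have hL : ∀ z : Symb n ζ a b, z ⊗ₜ[K] (1 : Symb n ζ a' b') ∈ S := by
    intro z
    have h5 : Algebra.adjoin K {gx n ζ a b, gy n ζ a b} ≤
        S.comap (Algebra.TensorProduct.includeLeft) := by
      rw [Algebra.adjoin_le_iff]
      rintro _ (rfl | rfl)
      · exact h1
      · exact h2
    rw [adjoin_eq_top] at h5
    exact h5 (Algebra.mem_top : z ∈ _)
  have hR : ∀ z : Symb n ζ a' b', (1 : Symb n ζ a b) ⊗ₜ[K] z ∈ S := by
    intro z
    have h5 : Algebra.adjoin K {gx n ζ a' b', gy n ζ a' b'} ≤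
        S.comap (Algebra.TensorProduct.includeRight) := by
      rw [Algebra.adjoin_le_iff]
      rintro _ (rfl | rfl)
      · exact h3
      · exact h4
    rw [adjoin_eq_top] at h5
    exact h5 (Algebra.mem_top : z ∈ _)
  rw [eq_top_iff]
  rintro z -
  induction z using TensorProduct.induction_on with
  | zero => exact S.zero_mem
  | tmul x y =>
    have : x ⊗ₜ[K] y = (x ⊗ₜ[K] (1 : Symb n ζ a' b')) * ((1 : Symb n ζ a b) ⊗ₜ[K] y) := by
      rw [Algebra.TensorProduct.tmul_mul_tmul, mul_one, one_mul]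
    rw [this]
    exact S.mul_mem (hL x) (hR y)
  | add x y hx hy => exact S.add_mem hx hy

theorem inv_mem_of_pow {B : Type*} [Ring B] [Algebra K B] {U : Bˣ} (hn : n ≠ 0) (ha : a ≠ 0)
    (h : (U : B) ^ n = algebraMap K B a) (S : Subalgebra K B) (hU : (U : B) ∈ S) :
    ((U⁻¹ : Bˣ) : B) ∈ S := by
  have h1 : ((U⁻¹ : Bˣ) : B) = a⁻¹ • (U : B) ^ (n - 1) := by
    refine left_inv_eq_right_inv (a := (U : B)) ?_ ?_
    · rw [Units.inv_mul]
    · rw [mul_smul_comm, ← pow_succ', Nat.sub_add_cancel (Nat.pos_of_ne_zero hn), h,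
        Algebra.algebraMap_eq_smul_one, smul_smul, inv_mul_cancel₀ ha, one_smul]
  rw [h1]
  exact S.smul_mem (S.pow_mem hU _) _

/-- Setup: the generators of a tensor product of two symbol algebras, as units. -/
theorem exists_gens (hζ : IsPrimitiveRoot ζ n) (hn : n ≠ 0) {a b a' b' : K} (ha : a ≠ 0)
    (hb : b ≠ 0) (ha' : a' ≠ 0) (hb' : b' ≠ 0) :
    ∃ x y x' y' : (Symb n ζ a b ⊗[K] Symb n ζ a' b')ˣ,
      (x : Symb n ζ a b ⊗[K] Symb n ζ a' b') = gx n ζ a b ⊗ₜ[K] 1 ∧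
      (y : Symb n ζ a b ⊗[K] Symb n ζ a' b') = gy n ζ a b ⊗ₜ[K] 1 ∧
      (x' : Symb n ζ a b ⊗[K] Symb n ζ a' b') = 1 ⊗ₜ[K] gx n ζ a' b' ∧
      (y' : Symb n ζ a b ⊗[K] Symb n ζ a' b') = 1 ⊗ₜ[K] gy n ζ a' b' ∧
      IsPair n ζ a b (x : Symb n ζ a b ⊗[K] Symb n ζ a' b') y ∧
      IsPair n ζ a' b' (x' : Symb n ζ a b ⊗[K] Symb n ζ a' b') y' ∧
      SC (1 : K) (x : Symb n ζ a b ⊗[K] Symb n ζ a' b') (x' : Symb n ζ a b ⊗[K] Symb n ζ a' b') ∧
      SC (1 : K) (x : Symb n ζ a b ⊗[K] Symb n ζ a' b') (y' : Symb n ζ a b ⊗[K] Symb n ζ a' b') ∧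
      SC (1 : K) (y : Symb n ζ a b ⊗[K] Symb n ζ a' b') (x' : Symb n ζ a b ⊗[K] Symb n ζ a' b') ∧
      SC (1 : K) (y : Symb n ζ a b ⊗[K] Symb n ζ a' b') (y' : Symb n ζ a b ⊗[K] Symb n ζ a' b') := by
  have h1 : IsPair n ζ a b (gx n ζ a b ⊗ₜ[K] (1 : Symb n ζ a' b'))
      (gy n ζ a b ⊗ₜ[K] (1 : Symb n ζ a' b')) :=
    (isPair_gen (n := n) (ζ := ζ) (a := a) (b := b)).map
      (Algebra.TensorProduct.includeLeft : _ →ₐ[K] Symb n ζ a b ⊗[K] Symb n ζ a' b')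
  have h2 : IsPair n ζ a' b' ((1 : Symb n ζ a b) ⊗ₜ[K] gx n ζ a' b')
      ((1 : Symb n ζ a b) ⊗ₜ[K] gy n ζ a' b') :=
    (isPair_gen (n := n) (ζ := ζ) (a := a') (b := b')).map
      (Algebra.TensorProduct.includeRight : _ →ₐ[K] Symb n ζ a b ⊗[K] Symb n ζ a' b')
  obtain ⟨x, hx⟩ := h1.isUnit_X hn ha
  obtain ⟨y, hy⟩ := h1.isUnit_Y hn hb
  obtain ⟨x', hx'⟩ := h2.isUnit_X hn ha'
  obtain ⟨y', hy'⟩ := h2.isUnit_Y hn hb'
  refine ⟨x, y, x', y', hx, hy, hx', hy', hx ▸ hy ▸ h1, hx' ▸ hy' ▸ h2, ?_, ?_, ?_, ?_⟩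
  · rw [hx, hx']; simp [SC]
  · rw [hx, hy']; simp [SC]
  · rw [hy, hx']; simp [SC]
  · rw [hy, hy']; simp [SC]

theorem finrank_tensor (hζ : IsPrimitiveRoot ζ n) (hn : n ≠ 0) {a b a' b' : K} (ha : a ≠ 0)
    (hb : b ≠ 0) (ha' : a' ≠ 0) (hb' : b' ≠ 0) :
    Module.finrank K (Symb n ζ a b ⊗[K] Symb n ζ a' b') = n * n * (n * n) := by
  have hfd1 := finiteDimensional hζ hn ha hb
  have hfd2 := finiteDimensional hζ hn ha' hb'
  rw [Module.finrank_tensorProduct, finrank_eq hζ hn ha hb, finrank_eq hζ hn ha' hb']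

theorem cls_mul_right (hζ : IsPrimitiveRoot ζ n) (hn : n ≠ 0) (ha : a ≠ 0) (hb : b ≠ 0)
    (hc : c ≠ 0) :
    cls K (Symb n ζ a b) * cls K (Symb n ζ a c) = cls K (Symb n ζ a (b * c)) := by
  have hζ0 : ζ ≠ 0 := hζ.ne_zero hn
  obtain ⟨x, y, x', y', hx, hy, hx', hy', h1, h2, c1, c2, c3, c4⟩ := exists_gens hζ hn ha hb ha hc
  have s1 : SC ζ (x : Symb n ζ a b ⊗[K] Symb n ζ a c) y := h1.comm
  have s2 : SC ζ (x' : Symb n ζ a b ⊗[K] Symb n ζ a c) y' := h2.comm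
  have hp1 : IsPair n ζ a (b * c) (x : Symb n ζ a b ⊗[K] Symb n ζ a c)
      ((y : Symb n ζ a b ⊗[K] Symb n ζ a c) * y') := by
    refine ⟨h1.powX, ?_, ?_⟩
    · rw [(SC.one_iff.1 c4).mul_pow, h1.powY, h2.powY, map_mul]
    · have := s1.mul_right c2
      rwa [mul_one] at this
  have hp2 : IsPair n ζ 1 c (((x⁻¹ : (Symb n ζ a b ⊗[K] Symb n ζ a c)ˣ) :
      Symb n ζ a b ⊗[K] Symb n ζ a c) * x') (y' : Symb n ζ a b ⊗[K] Symb n ζ a c) := by
    refine ⟨?_, h2.powY, ?_⟩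
    · rw [(SC.one_iff.1 (by simpa using c1.inv_left one_ne_zero)).mul_pow, h2.powX,
        unit_inv_pow ha h1.powX, ← map_mul, inv_mul_cancel₀ ha]
    · have := (c2.inv_left one_ne_zero).mul_left s2
      rwa [inv_one, one_mul] at this
  obtain ⟨e⟩ := nonempty_tensor_algEquiv hζ hn ha (mul_ne_zero hb hc) one_ne_zero hc hp1 hp2
    (SC.one_iff.1 (by
      have h3 := (SC.one_iff (K := K)).2 (Commute.refl (x : Symb n ζ a b ⊗[K] Symb n ζ a c))
      have := (h3.inv_right one_ne_zero).mul_right c1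
      simpa using this))
    (SC.one_iff.1 c2)
    (SC.one_iff.1 (by
      have h3 : SC (ζ⁻¹)⁻¹ (y : Symb n ζ a b ⊗[K] Symb n ζ a c)
          ((x⁻¹ : (Symb n ζ a b ⊗[K] Symb n ζ a c)ˣ) : Symb n ζ a b ⊗[K] Symb n ζ a c) :=
        (s1.symm hζ0).inv_right (inv_ne_zero hζ0)
      have h4 := h3.mul_right c3
      have h5 : SC (1 : K) (y' : Symb n ζ a b ⊗[K] Symb n ζ a c)
          ((x⁻¹ : (Symb n ζ a b ⊗[K] Symb n ζ a c)ˣ) : Symb n ζ a b ⊗[K] Symb n ζ a c) := by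
        simpa using (c2.symm one_ne_zero).inv_right (by simp)
      have h6 := h5.mul_right (s2.symm hζ0)
      have h7 := h4.mul_left h6
      simpa [hζ0] using h7))
    (SC.one_iff.1 (by
      have h3 := (SC.one_iff (K := K)).2 (Commute.refl (y' : Symb n ζ a b ⊗[K] Symb n ζ a c))
      simpa using c4.mul_left h3))
    (finrank_tensor hζ hn ha hb ha hc)
    (by
      intro S hS1 hS2 hS3 hS4
      have hS5 : ((y'⁻¹ : (Symb n ζ a b ⊗[K] Symb n ζ a c)ˣ) :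
        Symb n ζ a b ⊗[K] Symb n ζ a c) ∈ S := inv_mem_of_pow hn hc h2.powY S hS4
      apply subalgebra_eq_top_of_gen
      · rw [← hx]; exact hS1
      · rw [← hy]
        have := S.mul_mem hS2 hS5
        rwa [mul_assoc, Units.mul_inv, mul_one] at this
      · rw [← hx']
        have := S.mul_mem hS1 hS3
        rwa [Units.mul_inv_cancel_left] at this
      · rw [← hy']; exact hS4)
  have h3 := (hasRep_one hζ.pow_eq_one hn c).cls_eq_one hζ hn one_ne_zero hc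
  rw [← cls_tensor, ← cls_congr K e, cls_tensor, h3, mul_one]

theorem cls_mul_swap (hζ : IsPrimitiveRoot ζ n) (hn : n ≠ 0) (ha : a ≠ 0) (hb : b ≠ 0) :
    cls K (Symb n ζ a b) * cls K (Symb n ζ b a) = 1 := by
  have hζ0 : ζ ≠ 0 := hζ.ne_zero hn
  obtain ⟨x, y, x', y', hx, hy, hx', hy', h1, h2, c1, c2, c3, c4⟩ := exists_gens hζ hn ha hb hb ha
  have s1 : SC ζ (x : Symb n ζ a b ⊗[K] Symb n ζ b a) y := h1.comm
  have s2 : SC ζ (x' : Symb n ζ a b ⊗[K] Symb n ζ b a) y' := h2.comm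
  have c2' : SC (1 : K) (x : Symb n ζ a b ⊗[K] Symb n ζ b a)
      ((y'⁻¹ : (Symb n ζ a b ⊗[K] Symb n ζ b a)ˣ) : Symb n ζ a b ⊗[K] Symb n ζ b a) := by
    simpa using c2.inv_right one_ne_zero
  have c1' : SC (1 : K) (x : Symb n ζ a b ⊗[K] Symb n ζ b a)
      ((x'⁻¹ : (Symb n ζ a b ⊗[K] Symb n ζ b a)ˣ) : Symb n ζ a b ⊗[K] Symb n ζ b a) := by
    simpa using c1.inv_right one_ne_zero
  have c3' : SC (1 : K) (y : Symb n ζ a b ⊗[K] Symb n ζ b a)
      ((x'⁻¹ : (Symb n ζ a b ⊗[K] Symb n ζ b a)ˣ) : Symb n ζ a b ⊗[K] Symb n ζ b a) := by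
    simpa using c3.inv_right one_ne_zero
  have c4' : SC (1 : K) (y : Symb n ζ a b ⊗[K] Symb n ζ b a)
      ((y'⁻¹ : (Symb n ζ a b ⊗[K] Symb n ζ b a)ˣ) : Symb n ζ a b ⊗[K] Symb n ζ b a) := by
    simpa using c4.inv_right one_ne_zero
  have s2' : SC ζ ((x'⁻¹ : (Symb n ζ a b ⊗[K] Symb n ζ b a)ˣ) : Symb n ζ a b ⊗[K] Symb n ζ b a)
      ((y'⁻¹ : (Symb n ζ a b ⊗[K] Symb n ζ b a)ˣ) : Symb n ζ a b ⊗[K] Symb n ζ b a) := by
    simpa using (s2.inv_left hζ0).inv_right (inv_ne_zero hζ0)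
  have hp1 : IsPair n ζ 1 b ((x : Symb n ζ a b ⊗[K] Symb n ζ b a) *
      ((y'⁻¹ : (Symb n ζ a b ⊗[K] Symb n ζ b a)ˣ) : Symb n ζ a b ⊗[K] Symb n ζ b a))
      (y : Symb n ζ a b ⊗[K] Symb n ζ b a) := by
    refine ⟨?_, h1.powY, ?_⟩
    · rw [(SC.one_iff.1 c2').mul_pow, h1.powX, unit_inv_pow ha h2.powY, ← map_mul,
        mul_inv_cancel₀ ha]
    · have := s1.mul_left (c4'.symm one_ne_zero)
      rwa [inv_one, mul_one] at this
  have hp2 : IsPair n ζ 1 a⁻¹ ((y : Symb n ζ a b ⊗[K] Symb n ζ b a) *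
      ((x'⁻¹ : (Symb n ζ a b ⊗[K] Symb n ζ b a)ˣ) : Symb n ζ a b ⊗[K] Symb n ζ b a))
      ((y'⁻¹ : (Symb n ζ a b ⊗[K] Symb n ζ b a)ˣ) : Symb n ζ a b ⊗[K] Symb n ζ b a) := by
    refine ⟨?_, unit_inv_pow ha h2.powY, ?_⟩
    · rw [(SC.one_iff.1 c3').mul_pow, h1.powY, unit_inv_pow hb h2.powX, ← map_mul,
        mul_inv_cancel₀ hb]
    · have := c4'.mul_left s2'
      rwa [one_mul] at this
  obtain ⟨e⟩ := nonempty_tensor_algEquiv hζ hn one_ne_zero hb one_ne_zero (inv_ne_zero ha) hp1 hp2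
    (SC.one_iff.1 (by
      -- x y'⁻¹ with y x'⁻¹
      have h3 := s1.mul_right c1'
      have h4 := (c4'.symm one_ne_zero).mul_right (s2'.symm hζ0)
      have h5 := h3.mul_left h4
      simpa [hζ0] using h5))
    (SC.one_iff.1 (by
      have h3 := (SC.one_iff (K := K)).2 (Commute.refl
        ((y'⁻¹ : (Symb n ζ a b ⊗[K] Symb n ζ b a)ˣ) : Symb n ζ a b ⊗[K] Symb n ζ b a))
      simpa using c2'.mul_left h3))
    (SC.one_iff.1 (by
      have h3 := (SC.one_iff (K := K)).2 (Commute.refl (y : Symb n ζ a b ⊗[K] Symb n ζ b a))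
      simpa using h3.mul_right c3'))
    (SC.one_iff.1 c4')
    (finrank_tensor hζ hn ha hb hb ha)
    (by
      intro S hS1 hS2 hS3 hS4
      have hS5 : (((y'⁻¹)⁻¹ : (Symb n ζ a b ⊗[K] Symb n ζ b a)ˣ) :
        Symb n ζ a b ⊗[K] Symb n ζ b a) ∈ S :=
          inv_mem_of_pow hn (inv_ne_zero ha) (unit_inv_pow ha h2.powY) S hS4
      rw [inv_inv] at hS5
      have hS6 : ((y⁻¹ : (Symb n ζ a b ⊗[K] Symb n ζ b a)ˣ) :
        Symb n ζ a b ⊗[K] Symb n ζ b a) ∈ S :=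
          inv_mem_of_pow hn hb h1.powY S hS2
      have hS7 : ((x'⁻¹ : (Symb n ζ a b ⊗[K] Symb n ζ b a)ˣ) :
        Symb n ζ a b ⊗[K] Symb n ζ b a) ∈ S := by
        have := S.mul_mem hS6 hS3
        rwa [Units.inv_mul_cancel_left] at this
      have hS8 : (((x'⁻¹)⁻¹ : (Symb n ζ a b ⊗[K] Symb n ζ b a)ˣ) :
        Symb n ζ a b ⊗[K] Symb n ζ b a) ∈ S :=
          inv_mem_of_pow hn (inv_ne_zero hb) (unit_inv_pow hb h2.powX) S hS7
      rw [inv_inv] at hS8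
      apply subalgebra_eq_top_of_gen
      · rw [← hx]
        have := S.mul_mem hS1 hS5
        rwa [Units.inv_mul_cancel_right] at this
      · rw [← hy]; exact hS2
      · rw [← hx']; exact hS8
      · rw [← hy']; exact hS5)
  have h3 := (hasRep_one hζ.pow_eq_one hn b).cls_eq_one hζ hn one_ne_zero hb
  have h4 := (hasRep_one hζ.pow_eq_one hn a⁻¹).cls_eq_one hζ hn one_ne_zero (inv_ne_zero ha)
  rw [← cls_tensor, ← cls_congr K e, cls_tensor, h3, h4, mul_one]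

end Relations

end Symb

end Pool.Agent.Lib.MP_43d240_ag
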