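import Pool.Agent.Lib.MP_43d240_ag.TL

/-!
# Tsen–Lang: algebraic extensions and the rational function field
-/

set_option autoImplicit false

universe u v w x

namespace Pool.Agent.Lib.MP_43d240_ag

/-! ### Forms in coordinates -/

section Coord

variable {R : Type u} [CommRing R] {d N m : ℕ}

/-- The form with coefficients `c`. -/
noncomputable def coordForm (c : (Fin d → Fin N) → Fin m → R) :
    MultilinearMap R (fun _ : Fin d => Fin N → R) (Fin m → R) :=
  ∑ I : Fin d → Fin N, ((MultilinearMap.mkPiAlgebra R (Fin d) R).compLinearMap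
    (fun t => LinearMap.proj (I t))).smulRight (c I)

theorem coordForm_apply (c : (Fin d → Fin N) → Fin m → R) (v : Fin d → Fin N → R) (j : Fin m) :
    coordForm c v j = ∑ I : Fin d → Fin N, (∏ t, v t (I t)) * c I j := by
  unfold coordForm
  rw [MultilinearMap.sum_apply, Finset.sum_apply]
  refine Finset.sum_congr rfl (fun I _ => ?_)
  simp

end Coord

section Repr

variable {F : Type u} [Field F] {V : Type v} {W : Type w} [AddCommGroup V] [Module F V]
  [AddCommGroup W] [Module F W] {d N m : ℕ}

theorem multilinear_repr (bV : Module.Basis (Fin N) F V) (bW : Module.Basis (Fin m) F W)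
    (M : MultilinearMap F (fun _ : Fin d => V) W) (x : Fin N → F) (j : Fin m) :
    bW.repr (M (fun _ => ∑ i, x i • bV i)) j =
      coordForm (fun I j => bW.repr (M (fun t => bV (I t))) j) (fun _ => x) j := by
  rw [coordForm_apply, MultilinearMap.map_sum, map_sum, Finsupp.finsetSum_apply]
  refine Finset.sum_congr rfl (fun I _ => ?_)
  rw [MultilinearMap.map_smul_univ, map_smul, Finsupp.smul_apply, smul_eq_mul]

/-- It suffices to treat forms in coordinates. -/
theorem TL.of_coord {q d : ℕ} {F : Type u} [Field F]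
    (h : ∀ (N m : ℕ) (c : (Fin d → Fin N) → Fin m → F), q * m < N →
      ∃ x : Fin N → F, x ≠ 0 ∧ coordForm c (fun _ => x) = 0) : TL q d F := by
  intro V W _ _ _ _ _ _ M hM
  let bV := Module.finBasis F V
  let bW := Module.finBasis F W
  obtain ⟨x, hx, hx0⟩ := h _ _ (fun I j => bW.repr (M (fun t => bV (I t))) j) hM
  refine ⟨∑ i, x i • bV i, ?_, ?_⟩
  · intro h
    apply hx
    have := Fintype.linearIndependent_iff.1 bV.linearIndependent x h
    funext i
    exact this i
  · apply bW.repr.injective
    ext j
    rw [multilinear_repr, hx0]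
    simp

end Repr

/-! ### Finite and algebraic extensions -/

section Algebraic

variable {q d : ℕ} {F E : Type u} [Field F] [Field E] [Algebra F E]

theorem TL.of_finite [FiniteDimensional F E] (h : TL q d F) : TL q d E := by
  intro V W _ _ _ _ _ _ M hM
  letI : Module F V := Module.compHom V (algebraMap F E)
  letI : Module F W := Module.compHom W (algebraMap F E)
  have hV : IsScalarTower F E V := ⟨fun a b v => by
    rw [Algebra.smul_def, mul_smul]; rfl⟩
  have hW : IsScalarTower F E W := ⟨fun a b v => by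
    rw [Algebra.smul_def, mul_smul]; rfl⟩
  have : FiniteDimensional F V := FiniteDimensional.trans F E V
  have : FiniteDimensional F W := FiniteDimensional.trans F E W
  have h1 := Module.finrank_mul_finrank F E V
  have h2 := Module.finrank_mul_finrank F E W
  have hpos : 0 < Module.finrank F E := Module.finrank_pos
  obtain ⟨v, hv, hv0⟩ := h V W (M.restrictScalars F) (by
    rw [← h1, ← h2]
    calc q * (Module.finrank F E * Module.finrank E W)
        = Module.finrank F E * (q * Module.finrank E W) := by ring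
      _ < Module.finrank F E * Module.finrank E V := Nat.mul_lt_mul_of_pos_left hM hpos)
  exact ⟨v, hv, hv0⟩

theorem TL.of_algebraic [Algebra.IsAlgebraic F E] (h : TL q d F) : TL q d E := by
  classical
  apply TL.of_coord
  intro N m c hNm
  let S : Set E := Set.range (fun p : (Fin d → Fin N) × Fin m => c p.1 p.2)
  have hS : S.Finite := Set.finite_range _
  let E₀ := IntermediateField.adjoin F S
  have hfin : FiniteDimensional F E₀ := by
    have : Finite S := hS
    exact IntermediateField.finiteDimensional_adjoin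
      (fun x _ => Algebra.IsIntegral.isIntegral x)
  have hc : ∀ I j, c I j ∈ E₀ := fun I j =>
    IntermediateField.subset_adjoin F S ⟨(I, j), rfl⟩
  let c₀ : (Fin d → Fin N) → Fin m → E₀ := fun I j => ⟨c I j, hc I j⟩
  obtain ⟨x, hx, hx0⟩ := (TL.of_finite (E := E₀) h) (Fin N → E₀) (Fin m → E₀) (coordForm c₀)
    (by simpa using hNm)
  refine ⟨fun i => (x i : E), ?_, ?_⟩
  · intro h
    apply hx
    funext i
    exact Subtype.ext (congrFun h i)
  · funext j
    have := congrArg (fun z : Fin m → E₀ => ((z j : E₀) : E)) hx0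
    simp only [coordForm_apply, Pi.zero_apply, ZeroMemClass.coe_zero] at this ⊢
    rw [← this]
    push_cast
    rfl

end Algebraic

/-! ### Rational function fields -/

section RatFunc

open Polynomial

variable {q d : ℕ} {F E : Type u} [Field F] [Field E]

theorem exists_common_denominator (φ : F[X] →+* E)
    (hsurj : ∀ z : E, ∃ p r : F[X], r ≠ 0 ∧ φ r * z = φ p) {ι : Type*} [Fintype ι] (c : ι → E) :
    ∃ (b : F[X]) (p : ι → F[X]), b ≠ 0 ∧ ∀ i, φ b * c i = φ (p i) := by
  classical
  choose p r hr hpr using hsurj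
  refine ⟨∏ i, r (c i), fun i => (∏ j ∈ Finset.univ.erase i, r (c j)) * p (c i), ?_, ?_⟩
  · exact Finset.prod_ne_zero_iff.2 (fun i _ => hr _)
  · intro i
    rw [map_mul, ← hpr, ← Finset.mul_prod_erase Finset.univ (fun i => r (c i)) (Finset.mem_univ i),
      map_mul]
    ring

theorem TL.of_ratFunc (φ : F[X] →+* E) (hφ : Function.Injective φ)
    (hsurj : ∀ z : E, ∃ p r : F[X], r ≠ 0 ∧ φ r * z = φ p) (h : TL q d F) : TL (q * d) d E := by
  classical
  apply TL.of_coord
  intro N m c hNm
  obtain ⟨b, p, hb, hp⟩ := exists_common_denominator φ hsurj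
    (fun z : (Fin d → Fin N) × Fin m => c z.1 z.2)
  let P : (Fin d → Fin N) → Fin m → F[X] := fun I j => p (I, j)
  have hP : ∀ I j, φ (P I j) = φ b * c I j := fun I j => (hp (I, j)).symm
  -- bound for the degrees
  obtain ⟨cc, hcc⟩ : ∃ cc : ℕ, ∀ I j, (P I j).natDegree ≤ cc := by
    refine ⟨∑ z : (Fin d → Fin N) × Fin m, (P z.1 z.2).natDegree, fun I j => ?_⟩
    exact Finset.single_le_sum (f := fun z : (Fin d → Fin N) × Fin m => (P z.1 z.2).natDegree)
      (fun _ _ => Nat.zero_le _) (Finset.mem_univ (I, j))
  set s : ℕ := q * m * (cc + 1) with hs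
  set D : ℕ := d * s + cc + 1 with hD
  -- the multilinear map over `F`
  let ML : MultilinearMap F (fun _ : Fin d => Fin N → degreeLT F (s + 1)) (Fin m → F[X]) :=
    ((coordForm P).restrictScalars F).compLinearMap
      (fun _ => LinearMap.pi (fun i => (degreeLT F (s + 1)).subtype ∘ₗ LinearMap.proj i))
  have hML : ∀ (v : Fin d → Fin N → degreeLT F (s + 1)) (j : Fin m),
      ML v j = ∑ I : Fin d → Fin N, (∏ t, (v t (I t) : F[X])) * P I j := by
    intro v j
    change (coordForm P) (fun t i => ((v t i : degreeLT F (s + 1)) : F[X])) j = _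
    rw [coordForm_apply]
  let MC : MultilinearMap F (fun _ : Fin d => Fin N → degreeLT F (s + 1)) (Fin m → Fin D → F) :=
    (LinearMap.pi (fun j => LinearMap.pi (fun l : Fin D => (lcoeff F (l : ℕ)) ∘ₗ
      (LinearMap.proj j)))).compMultilinearMap ML
  have hMC : ∀ v j l, MC v j l = (ML v j).coeff l := fun v j l => rfl
  obtain ⟨v, hv, hv0⟩ := h (Fin N → degreeLT F (s + 1)) (Fin m → Fin D → F) MC (by
    have h1 : Module.finrank F (Fin m → Fin D → F) = m * D := by
      rw [Module.finrank_pi_fintype, Finset.sum_const]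
      simp
    have h2 : Module.finrank F (Fin N → degreeLT F (s + 1)) = N * (s + 1) := by
      rw [Module.finrank_pi_fintype, Finset.sum_const, (degreeLTEquiv F (s + 1)).finrank_eq]
      simp
    rw [h1, h2]
    have h3 : q * (m * D) = q * d * m * s + s := by
      rw [hD, hs]; ring
    have h4 : (q * d * m + 1) * (s + 1) ≤ N * (s + 1) := Nat.mul_le_mul_right _ hNm
    rw [h3]
    nlinarith [h4])
  have hdeg : ∀ j, (ML (fun _ => v) j).natDegree < D := by
    intro j
    rw [hML, hD]
    apply Nat.lt_succ_of_le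
    apply natDegree_sum_le_of_forall_le
    intro I _
    refine (natDegree_mul_le_of_le ?_ (hcc I j))
    refine (natDegree_prod_le _ _).trans ?_
    refine (Finset.sum_le_card_nsmul _ _ s ?_).trans ?_
    · intro t _
      have hmem := (v (I t)).2
      rw [mem_degreeLT] at hmem
      by_cases h0 : ((v (I t) : degreeLT F (s + 1)) : F[X]) = 0
      · rw [h0, natDegree_zero]
        exact Nat.zero_le _
      · exact Nat.lt_succ_iff.1 ((natDegree_lt_iff_degree_lt h0).2 hmem)
    · simp
  have hz : ∀ j, ML (fun _ => v) j = 0 := by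
    intro j
    ext l
    rw [coeff_zero]
    by_cases hl : l < D
    · have := congrFun (congrFun hv0 j) ⟨l, hl⟩
      rw [hMC] at this
      exact this
    · exact coeff_eq_zero_of_natDegree_lt (lt_of_lt_of_le (hdeg j) (not_lt.1 hl))
  refine ⟨fun i => φ (v i : F[X]), ?_, ?_⟩
  · intro h
    apply hv
    funext i
    apply Subtype.ext
    apply hφ
    have h1 := congrFun h i
    simp only [Pi.zero_apply] at h1 ⊢
    rw [h1, ZeroMemClass.coe_zero, map_zero]
  · funext j
    have h1 := congrArg φ (hz j)
    rw [hML, map_sum, map_zero] at h1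
    simp only [map_mul, map_prod, hP] at h1
    rw [coordForm_apply, Pi.zero_apply]
    have hφb : φ b ≠ 0 := (map_ne_zero_iff φ hφ).2 hb
    have h2 : φ b * ∑ I : Fin d → Fin N, (∏ t, φ (v (I t) : F[X])) * c I j = 0 := by
      rw [← h1, Finset.mul_sum]
      exact Finset.sum_congr rfl (fun I _ => by ring)
    exact (mul_eq_zero.1 h2).resolve_left hφb

end RatFunc

/-! ### Fields of finite transcendence degree -/

section Trdeg

open Polynomial IntermediateField

variable {F K : Type u} [Field F] [Field K] [Algebra F K]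

theorem TL.adjoin_simple {q d : ℕ} {x : K} (hx : Transcendental F x) (h : TL q d F) :
    TL (q * d) d F⟮x⟯ := by
  let φ : F[X] →+* F⟮x⟯ := (aeval (AdjoinSimple.gen F x)).toRingHom
  have hgen : ∀ p : F[X], ((φ p : F⟮x⟯) : K) = aeval x p := by
    intro p
    change ((aeval (AdjoinSimple.gen F x) p : F⟮x⟯) : K) = _
    have := Polynomial.aeval_algebraMap_apply K (AdjoinSimple.gen F x) p
    rw [AdjoinSimple.algebraMap_gen] at this
    exact this.symm
  have hinj : Function.Injective (aeval x : F[X] →ₐ[F] K) := transcendental_iff_injective.1 hx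
  refine TL.of_ratFunc φ ?_ ?_ h
  · intro p r hpr
    apply hinj
    rw [← hgen, ← hgen, hpr]
  · intro z
    obtain ⟨r, s, hrs⟩ := (IntermediateField.mem_adjoin_simple_iff F (z : K)).1 z.2
    by_cases hs : aeval x s = 0
    · refine ⟨0, 1, one_ne_zero, ?_⟩
      rw [hs, div_zero] at hrs
      rw [map_zero, map_one, one_mul]
      exact Subtype.ext hrs
    · refine ⟨r, s, ?_, ?_⟩
      · rintro rfl
        simp at hs
      · apply Subtype.ext
        change ((φ s : F⟮x⟯) : K) * (z : K) = (φ r : F⟮x⟯)
        rw [hgen, hgen, hrs, mul_div_cancel₀ _ hs]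

theorem TL.of_trdeg_le {d : ℕ} (hd : d ≠ 0) (m : ℕ) :
    ∀ {q : ℕ} {F K : Type u} [Field F] [Field K] [Algebra F K],
      Algebra.trdeg F K ≤ m → TL q d F → TL (q * d ^ m) d K := by
  induction m with
  | zero =>
    intro q F K _ _ _ hm h
    rw [pow_zero, mul_one]
    have h0 : Algebra.trdeg F K = 0 := by simpa using hm
    have : Algebra.IsAlgebraic F K := trdeg_eq_zero_iff.1 h0
    exact h.of_algebraic
  | succ m ih =>
    intro q F K _ _ _ hm h
    by_cases halg : Algebra.IsAlgebraic F K
    · exact (h.of_algebraic (E := K)).mono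
        (Nat.le_mul_of_pos_right _ (Nat.pow_pos (Nat.pos_of_ne_zero hd)))
    · have htr : Algebra.Transcendental F K := Algebra.transcendental_iff_not_isAlgebraic.2 halg
      obtain ⟨x, hx⟩ := htr.transcendental
      have h1 := TL.adjoin_simple hx h
      have h2 : Algebra.trdeg F⟮x⟯ K ≤ m := by
        have h3 := trdeg_add_eq F F⟮x⟯ (A := K)
        have htr' : Algebra.Transcendental F F⟮x⟯ := ⟨⟨AdjoinSimple.gen F x, fun hh => by
          apply hx
          have := hh.algebraMap (A := K)
          rwa [AdjoinSimple.algebraMap_gen] at this⟩⟩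
        have h4 : 1 ≤ Algebra.trdeg F F⟮x⟯ := Cardinal.one_le_iff_pos.2 (trdeg_pos F F⟮x⟯)
        have h5 : 1 + Algebra.trdeg F⟮x⟯ K ≤ ((m + 1 : ℕ) : Cardinal.{_}) :=
          (add_le_add_left h4 _).trans (h3.le.trans hm)
        have h6 : Algebra.trdeg F⟮x⟯ K < Cardinal.aleph0 :=
          lt_of_le_of_lt (self_le_add_left _ _) (lt_of_le_of_lt h5 (Cardinal.natCast_lt_aleph0))
        obtain ⟨t, ht⟩ := Cardinal.lt_aleph0.1 h6
        rw [ht] at h5 ⊢
        norm_cast at h5 ⊢
        omega
      have h5 := ih h2 h1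
      rwa [mul_assoc, ← pow_succ'] at h5

end Trdeg

end Pool.Agent.Lib.MP_43d240_ag
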