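import Pool.Agent.Lib.MP_43d240_ag.Induced
import Pool.Agent.Lib.MP_43d240_ag.Kummer
import Pool.Agent.Lib.MP_43d240_ag.TLStep

/-!
# Symbols over `C₁` fields are split
-/

set_option autoImplicit false

universe u v w x

namespace Pool.Agent.Lib.MP_43d240_ag

namespace Symb

open Polynomial

section Irreducible

variable {L : Type u} [Field L] {e : ℕ} {ζ c b : L}

theorem hasRep_of_irreducible (he : e ≠ 0) (hζ : IsPrimitiveRoot ζ e) (hb : b ≠ 0)
    (hirr : Irreducible (X ^ e - C c : L[X])) (hTL : TL e e L) : HasRep e ζ c b := by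
  classical
  have hfact : Fact (Irreducible (X ^ e - C c : L[X])) := ⟨hirr⟩
  let E := AdjoinRoot (X ^ e - C c : L[X])
  let α : E := AdjoinRoot.root (X ^ e - C c : L[X])
  have hmonic : (X ^ e - C c : L[X]).Monic := monic_X_pow_sub_C c he
  have hα : α ^ e = algebraMap L E c := by
    have := AdjoinRoot.eval₂_root (X ^ e - C c : L[X])
    rw [eval₂_sub, eval₂_pow, eval₂_X, eval₂_C, sub_eq_zero] at this
    exact this
  let pb := AdjoinRoot.powerBasis' hmonic
  have hdim : pb.dim = e := by
    change (X ^ e - C c : L[X]).natDegree = e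
    exact natDegree_X_pow_sub_C
  have hgen : pb.gen = α := rfl
  have hfin : FiniteDimensional L E := Module.Basis.finiteDimensional_of_finite pb.basis
  have hrank : Module.finrank L E = e := by rw [pb.finrank, hdim]
  -- the automorphism
  let σ : E →ₐ[L] E := AdjoinRoot.liftAlgHom (X ^ e - C c : L[X]) (Algebra.ofId L E) (ζ • α) (by
    rw [eval₂_sub, eval₂_pow, eval₂_X, eval₂_C, _root_.smul_pow, hζ.pow_eq_one, one_smul, hα,
      sub_eq_zero]
    rfl)
  have hσα : σ α = ζ • α := AdjoinRoot.liftAlgHom_root _ _ _ _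
  have hσpow : ∀ t : ℕ, (σ ^ t) α = ζ ^ t • α := by
    intro t
    induction t with
    | zero => simp
    | succ t ih =>
      rw [pow_succ, AlgHom.mul_apply, hσα, map_smul, ih, smul_smul, pow_succ']
  have hσe : σ ^ e = 1 := by
    apply AdjoinRoot.algHom_ext
    change (σ ^ e) α = α
    rw [hσpow, hζ.pow_eq_one, one_smul]
  -- coordinates
  have hrepr : ∀ (y : E) (i : Fin pb.dim), pb.basis.repr (σ y) i = ζ ^ (i : ℕ) * pb.basis.repr y i := by
    intro y i
    have h1 : (Finsupp.lapply i ∘ₗ pb.basis.repr.toLinearMap ∘ₗ σ.toLinearMap : E →ₗ[L] L) =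
        ζ ^ (i : ℕ) • (Finsupp.lapply i ∘ₗ pb.basis.repr.toLinearMap : E →ₗ[L] L) := by
      apply pb.basis.ext
      intro j
      have h2 : σ (pb.basis j) = ζ ^ (j : ℕ) • pb.basis j := by
        rw [pb.basis_eq_pow, hgen, map_pow, hσα, _root_.smul_pow]
      simp only [LinearMap.comp_apply, AlgHom.toLinearMap_apply, LinearEquiv.coe_coe,
        LinearMap.smul_apply, Finsupp.lapply_apply]
      rw [h2, map_smul, Finsupp.smul_apply, Module.Basis.repr_self]
      by_cases hij : j = i
      · rw [hij]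
      · rw [Finsupp.single_eq_of_ne (fun h => hij h.symm)]
        simp
    exact LinearMap.congr_fun h1 y
  have hdpos : 0 < pb.dim := by rw [hdim]; exact Nat.pos_of_ne_zero he
  let i₀ : Fin pb.dim := ⟨0, hdpos⟩
  let π : E →ₗ[L] L := pb.basis.coord i₀
  have hπ : ∀ y : E, σ y = y → y = algebraMap L E (π y) := by
    intro y hy
    apply pb.basis.repr.injective
    ext i
    have h1 : algebraMap L E (π y) = π y • pb.basis i₀ := by
      rw [pb.basis_eq_pow, pow_zero, Algebra.smul_def, mul_one]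
    rw [h1, map_smul, Finsupp.smul_apply, Module.Basis.repr_self]
    by_cases hi : i₀ = i
    · rw [← hi, Finsupp.single_eq_same]
      simp [π]
    · rw [Finsupp.single_eq_of_ne (fun h => hi h.symm), smul_zero]
      have h2 := hrepr y i
      rw [hy] at h2
      have h3 : ζ ^ (i : ℕ) ≠ 1 := by
        apply hζ.pow_ne_one_of_pos_of_lt
        · intro h0
          apply hi
          exact Fin.ext h0.symm
        · exact lt_of_lt_of_eq i.2 hdim
      have h4 : (ζ ^ (i : ℕ) - 1) * pb.basis.repr y i = 0 := by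
        rw [sub_mul, one_mul, ← h2, sub_self]
      exact (mul_eq_zero.1 h4).resolve_left (sub_ne_zero.2 h3)
  -- the norm
  let Nm : E → E := fun z => ∏ t ∈ Finset.range e, (σ ^ t) z
  have hNσ : ∀ z, σ (Nm z) = Nm z := by
    intro z
    by_cases hz : z = 0
    · simp [hz, Nm, Finset.prod_const, zero_pow he]
    have h1 : σ (Nm z) = ∏ t ∈ Finset.range e, (σ ^ (t + 1)) z := by
      change σ (∏ t ∈ Finset.range e, (σ ^ t) z) = _
      rw [map_prod]
      refine Finset.prod_congr rfl (fun t _ => ?_)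
      rw [pow_succ', AlgHom.mul_apply]
    have h2 : (∏ t ∈ Finset.range e, (σ ^ (t + 1)) z) * z = Nm z * z := by
      have h3 := Finset.prod_range_succ (fun t => (σ ^ t) z) e
      have h4 := Finset.prod_range_succ' (fun t => (σ ^ t) z) e
      rw [h3] at h4
      simp only [pow_zero, AlgHom.one_apply] at h4
      rw [← h4, hσe, AlgHom.one_apply]
    rw [h1]
    exact mul_right_cancel₀ hz h2
  have hN : ∀ z, Nm z = algebraMap L E (π (Nm z)) := fun z => hπ _ (hNσ z)
  -- the form
  let M₁ : MultilinearMap L (fun _ : Fin e => E × L) L :=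
    π.compMultilinearMap ((MultilinearMap.mkPiAlgebra L (Fin e) E).compLinearMap
      (fun t => (σ ^ (t : ℕ)).toLinearMap ∘ₗ LinearMap.fst L E L))
  let M₂ : MultilinearMap L (fun _ : Fin e => E × L) L :=
    b • (MultilinearMap.mkPiAlgebra L (Fin e) L).compLinearMap (fun _ => LinearMap.snd L E L)
  have hM₁ : ∀ z w, M₁ (fun _ => (z, w)) = π (Nm z) := by
    intro z w
    simp only [M₁, Nm, LinearMap.compMultilinearMap_apply, MultilinearMap.compLinearMap_apply,
      MultilinearMap.mkPiAlgebra_apply, LinearMap.comp_apply, LinearMap.fst_apply,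
      AlgHom.toLinearMap_apply]
    rw [Fin.prod_univ_eq_prod_range (fun t => (σ ^ t) z) e]
  have hM₂ : ∀ z w, M₂ (fun _ => (z, w)) = b * w ^ e := by
    intro z w
    simp [M₂]
  obtain ⟨⟨z, w⟩, hzw, hzero⟩ := hTL (E × L) L (M₁ - M₂) (by
    rw [Module.finrank_prod, hrank, Module.finrank_self]; omega)
  rw [MultilinearMap.sub_apply, hM₁, hM₂, sub_eq_zero] at hzero
  have hw : w ≠ 0 := by
    rintro rfl
    rw [zero_pow he, mul_zero] at hzero
    have h1 : Nm z = 0 := by rw [hN, hzero, map_zero]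
    obtain ⟨t, _, ht⟩ := Finset.prod_eq_zero_iff.1 h1
    have h2 : z = 0 := (map_eq_zero_iff (σ ^ t) (σ ^ t).toRingHom.injective).1 ht
    exact hzw (by rw [h2]; rfl)
  obtain ⟨y, hy⟩ : ∃ y : E, Nm y = algebraMap L E b := by
    refine ⟨w⁻¹ • z, ?_⟩
    change ∏ t ∈ Finset.range e, (σ ^ t) (w⁻¹ • z) = _
    simp only [map_smul]
    rw [Finset.prod_smul, Finset.prod_const, Finset.card_range]
    change (w⁻¹) ^ e • Nm z = _
    rw [hN, hzero, Algebra.smul_def, ← map_mul, mul_left_comm, ← mul_pow, inv_mul_cancel₀ hw,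
      one_pow, mul_one]
  -- the representation
  refine hasRep_of_finrank (V := E) he hrank (X := LinearMap.mulLeft L α)
    (Y := LinearMap.mulLeft L y ∘ₗ σ.toLinearMap) ⟨?_, ?_, ?_⟩
  · refine LinearMap.ext fun v => ?_
    rw [LinearMap.pow_mulLeft, LinearMap.mulLeft_apply, hα, Module.algebraMap_end_apply,
      Algebra.smul_def]
  · have hYk : ∀ (k : ℕ) (v : E), ((LinearMap.mulLeft L y ∘ₗ σ.toLinearMap : Module.End L E) ^ k) v =
        (∏ t ∈ Finset.range k, (σ ^ t) y) * (σ ^ k) v := by
      intro k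
      induction k with
      | zero => intro v; simp
      | succ k ih =>
        intro v
        rw [pow_succ', Module.End.mul_apply, ih, LinearMap.comp_apply, LinearMap.mulLeft_apply,
          AlgHom.toLinearMap_apply, map_mul, map_prod, Finset.prod_range_succ']
        simp only [pow_zero, AlgHom.one_apply]
        have h5 : ∏ t ∈ Finset.range k, σ ((σ ^ t) y) = ∏ t ∈ Finset.range k, (σ ^ (t + 1)) y :=
          Finset.prod_congr rfl (fun t _ => by rw [pow_succ', AlgHom.mul_apply])
        rw [h5, pow_succ' σ k, AlgHom.mul_apply]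
        ring
    refine LinearMap.ext fun v => ?_
    rw [hYk, hσe, AlgHom.one_apply, Module.algebraMap_end_apply, Algebra.smul_def]
    change Nm y * v = _
    rw [hy]
  · refine LinearMap.ext fun v => ?_
    simp only [Module.End.mul_apply, LinearMap.comp_apply, LinearMap.mulLeft_apply,
      AlgHom.toLinearMap_apply, LinearMap.smul_apply, map_mul]
    rw [hσα]
    simp only [Algebra.smul_def]
    ring

end Irreducible

/-- Symbols over a field satisfying the `C₁` property are split. -/
theorem hasRep_of_TL {L : Type u} [Field L] {n : ℕ} (hn : n ≠ 0) {ζ a b : L}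
    (hζ : IsPrimitiveRoot ζ n) (ha : a ≠ 0) (hb : b ≠ 0)
    (hTL : ∀ e, e ≠ 0 → e ∣ n → TL e e L) : HasRep n ζ a b := by
  obtain ⟨e, c, he, hen, hc, hirr⟩ := exists_irreducible_root hn hζ ha
  obtain ⟨ℓ, rfl⟩ := hen
  have hℓ : ℓ ≠ 0 := right_ne_zero_of_mul hn
  have : NeZero ℓ := ⟨hℓ⟩
  rw [Nat.mul_div_cancel_left _ (Nat.pos_of_ne_zero he)] at hc
  have hζ' : IsPrimitiveRoot (ζ ^ ℓ) e := by
    exact hζ.pow (Nat.pos_of_ne_zero hn) (by ring)
  have h1 := hasRep_of_irreducible he hζ' hb hirr (hTL e he ⟨ℓ, rfl⟩)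
  have h2 := h1.induced he (by rw [mul_comm]; exact hζ.pow_eq_one)
  rw [hc, mul_comm] at h2
  exact h2

/-- **Tsen's theorem** for symbols. -/
theorem hasRep_of_trdeg_le_one {k L : Type u} [Field k] [IsAlgClosed k] [Field L] [Algebra k L]
    (htr : Algebra.trdeg k L ≤ 1) {n : ℕ} (hn : n ≠ 0) {ζ a b : L}
    (hζ : IsPrimitiveRoot ζ n) (ha : a ≠ 0) (hb : b ≠ 0) : HasRep n ζ a b := by
  refine hasRep_of_TL hn hζ ha hb (fun e he _ => ?_)
  have := TL.of_trdeg_le he 1 (by exact_mod_cast htr) (TL.of_isAlgClosed k he)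
  simpa using this

theorem HasRep.baseChange {L K : Type*} [Field L] [Field K] [Algebra L K] {n : ℕ}
    {ζ a b : L} (h : HasRep n ζ a b) :
    HasRep n (algebraMap L K ζ) (algebraMap L K a) (algebraMap L K b) := by
  obtain ⟨X, Y, h⟩ := h
  refine ⟨(algebraMap L K).mapMatrix X, (algebraMap L K).mapMatrix Y, ?_, ?_, ?_⟩
  · rw [← map_pow, h.powX]
    ext i j
    simp [Matrix.algebraMap_matrix_apply, apply_ite (algebraMap L K)]
  · rw [← map_pow, h.powY]
    ext i j
    simp [Matrix.algebraMap_matrix_apply, apply_ite (algebraMap L K)]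
  · rw [← map_mul, h.comm, ← map_mul]
    ext i j
    rw [RingHom.mapMatrix_apply, RingHom.mapMatrix_apply, Matrix.map_apply, Matrix.smul_apply,
      Matrix.smul_apply, Matrix.map_apply, smul_eq_mul, smul_eq_mul, map_mul]

end Symb

end Pool.Agent.Lib.MP_43d240_ag
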