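import Pool.Agent.Lib.MP_43d240_ag.Basic

/-!
# Symbol algebras
-/

set_option autoImplicit false

open scoped TensorProduct

universe u v w x

namespace Pool.Agent.Lib.MP_43d240_ag

section Defs

variable {K : Type u} [Field K]

/-- The defining relations of the symbol algebra. -/
inductive SymbRel (n : ℕ) (ζ a b : K) :
    FreeAlgebra K (Fin 2) → FreeAlgebra K (Fin 2) → Prop
  | pow_x : SymbRel n ζ a b (FreeAlgebra.ι K 0 ^ n) (algebraMap K _ a)
  | pow_y : SymbRel n ζ a b (FreeAlgebra.ι K 1 ^ n) (algebraMap K _ b)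
  | comm : SymbRel n ζ a b (FreeAlgebra.ι K 1 * FreeAlgebra.ι K 0)
      (ζ • (FreeAlgebra.ι K 0 * FreeAlgebra.ι K 1))

/-- The symbol algebra `(a,b)_ζ`: generators `x, y`, relations
`x ^ n = a`, `y ^ n = b`, `y x = ζ x y`. -/
def Symb (n : ℕ) (ζ a b : K) : Type u := RingQuot (SymbRel n ζ a b)

variable (n : ℕ) (ζ a b : K)

/-- The ring structure of the symbol algebra (that of the quotient ring). -/
noncomputable def ringSymb : Ring (Symb n ζ a b) := RingQuot.instRing (SymbRel n ζ a b)

noncomputable instance instRingSymb : Ring (Symb n ζ a b) := ringSymb n ζ a b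

/-- The algebra structure of the symbol algebra (that of the quotient ring). -/
noncomputable def algSymb : Algebra K (Symb n ζ a b) := RingQuot.instAlgebra (SymbRel n ζ a b)

noncomputable instance instAlgebraSymb : Algebra K (Symb n ζ a b) := algSymb n ζ a b


namespace Symb

/-- The first generator. -/
noncomputable def gx : Symb n ζ a b :=
  RingQuot.mkAlgHom K (SymbRel n ζ a b) (FreeAlgebra.ι K 0)

/-- The second generator. -/
noncomputable def gy : Symb n ζ a b :=
  RingQuot.mkAlgHom K (SymbRel n ζ a b) (FreeAlgebra.ι K 1)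

theorem gx_pow : gx n ζ a b ^ n = algebraMap K _ a := by
  have := RingQuot.mkAlgHom_rel K (SymbRel.pow_x (n := n) (ζ := ζ) (a := a) (b := b))
  rw [map_pow, AlgHom.commutes] at this
  exact this

theorem gy_pow : gy n ζ a b ^ n = algebraMap K _ b := by
  have := RingQuot.mkAlgHom_rel K (SymbRel.pow_y (n := n) (ζ := ζ) (a := a) (b := b))
  rw [map_pow, AlgHom.commutes] at this
  exact this

theorem gy_mul_gx : gy n ζ a b * gx n ζ a b = ζ • (gx n ζ a b * gy n ζ a b) := by
  have := RingQuot.mkAlgHom_rel K (SymbRel.comm (n := n) (ζ := ζ) (a := a) (b := b))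
  rw [map_mul, map_smul, map_mul] at this
  exact this

variable {n ζ a b}

/-- Elements `X, Y` of an algebra satisfying the relations of the symbol algebra. -/
structure IsPair {B : Type*} [Ring B] [Algebra K B] (n : ℕ) (ζ a b : K) (X Y : B) : Prop where
  powX : X ^ n = algebraMap K B a
  powY : Y ^ n = algebraMap K B b
  comm : Y * X = ζ • (X * Y)

theorem isPair_gen : IsPair n ζ a b (gx n ζ a b) (gy n ζ a b) :=
  ⟨gx_pow n ζ a b, gy_pow n ζ a b, gy_mul_gx n ζ a b⟩

/-- The universal property. -/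
noncomputable def lift {B : Type*} [Ring B] [Algebra K B] {X Y : B} (h : IsPair n ζ a b X Y) :
    Symb n ζ a b →ₐ[K] B :=
  RingQuot.liftAlgHom K ⟨FreeAlgebra.lift K ![X, Y], by
    rintro _ _ (_ | _ | _)
    · simp [h.powX]
    · simp [h.powY]
    · simp [h.comm]⟩

@[simp] theorem lift_gx {B : Type*} [Ring B] [Algebra K B] {X Y : B}
    (h : IsPair n ζ a b X Y) : lift h (gx n ζ a b) = X := by
  unfold lift gx
  erw [RingQuot.liftAlgHom_mkAlgHom_apply]
  simp

@[simp] theorem lift_gy {B : Type*} [Ring B] [Algebra K B] {X Y : B}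
    (h : IsPair n ζ a b X Y) : lift h (gy n ζ a b) = Y := by
  unfold lift gy
  erw [RingQuot.liftAlgHom_mkAlgHom_apply]
  simp

theorem adjoin_eq_top : Algebra.adjoin K {gx n ζ a b, gy n ζ a b} = ⊤ := by
  have h1 : (RingQuot.mkAlgHom K (SymbRel n ζ a b)).range = ⊤ :=
    (AlgHom.range_eq_top _).2 (RingQuot.mkAlgHom_surjective K _)
  have h2 : Algebra.adjoin K (Set.range (FreeAlgebra.ι K : Fin 2 → FreeAlgebra K (Fin 2))) = ⊤ :=
    FreeAlgebra.adjoin_range_ι K (Fin 2)
  have h3 := congrArg (Subalgebra.map (RingQuot.mkAlgHom K (SymbRel n ζ a b))) h2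
  rw [AlgHom.map_adjoin, Algebra.map_top, h1] at h3
  have h4 : (RingQuot.mkAlgHom K (SymbRel n ζ a b)) ''
      (Set.range (FreeAlgebra.ι K : Fin 2 → FreeAlgebra K (Fin 2))) =
      {gx n ζ a b, gy n ζ a b} := by
    rw [← Set.range_comp]
    ext z
    simp only [Set.mem_range, Fin.exists_fin_two, Set.mem_insert_iff, Set.mem_singleton_iff,
      Function.comp_apply]
    constructor
    · rintro (h | h)
      · exact Or.inl h.symm
      · exact Or.inr h.symm
    · rintro (h | h)
      · exact Or.inl h.symm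
      · exact Or.inr h.symm
  rw [h4] at h3
  exact h3

end Symb

end Defs

end Pool.Agent.Lib.MP_43d240_ag
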