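import Pool.Agent.Lib.MP_43d240_ag.Symb

/-!
# Bases and dimension of symbol algebras
-/

set_option autoImplicit false

open scoped TensorProduct

universe u v w x

namespace Pool.Agent.Lib.MP_43d240_ag

namespace Symb

section Indep

variable {K : Type u} [Field K] {B : Type v} [Ring B] [Algebra K B]
variable {n : ℕ} {ζ a b : K} {X Y : B}

theorem IsPair.isUnit_X (hn : n ≠ 0) (ha : a ≠ 0) (h : IsPair n ζ a b X Y) : IsUnit X := by
  rw [← isUnit_pow_iff hn, h.powX]
  exact (IsUnit.mk0 a ha).map (algebraMap K B)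

theorem IsPair.isUnit_Y (hn : n ≠ 0) (hb : b ≠ 0) (h : IsPair n ζ a b X Y) : IsUnit Y := by
  rw [← isUnit_pow_iff hn, h.powY]
  exact (IsUnit.mk0 b hb).map (algebraMap K B)

theorem IsPair.Y_mul_X_pow (h : IsPair n ζ a b X Y) (i : ℕ) :
    Y * X ^ i = ζ ^ i • (X ^ i * Y) := by
  induction i with
  | zero => simp
  | succ i ih =>
    rw [pow_succ, ← mul_assoc, ih, smul_mul_assoc, mul_assoc, h.comm, mul_smul_comm, smul_smul,
      ← mul_assoc, ← pow_succ, ← pow_succ]

theorem IsPair.Y_pow_mul_X (h : IsPair n ζ a b X Y) (j : ℕ) :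
    Y ^ j * X = ζ ^ j • (X * Y ^ j) := by
  induction j with
  | zero => simp
  | succ j ih =>
    rw [pow_succ, mul_assoc, h.comm, mul_smul_comm, ← mul_assoc, ih, smul_mul_assoc, smul_smul,
      mul_assoc, ← pow_succ, ← pow_succ']

theorem IsPair.linearIndependent [Nontrivial B] (hζ : IsPrimitiveRoot ζ n) (hn : n ≠ 0)
    (ha : a ≠ 0) (hb : b ≠ 0) (h : IsPair n ζ a b X Y) :
    LinearIndependent K (fun p : Fin n × Fin n => X ^ (p.1 : ℕ) * Y ^ (p.2 : ℕ)) := by
  obtain ⟨ux, hux⟩ := h.isUnit_X hn ha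
  obtain ⟨uy, huy⟩ := h.isUnit_Y hn hb
  have hμ : Function.Injective (fun j : Fin n => ζ ^ (j : ℕ)) := by
    intro i j hij
    exact Fin.ext (hζ.pow_inj i.2 j.2 hij)
  -- the first operator
  let T : Module.End K B :=
    (LinearMap.mulLeft K ((ux⁻¹ : Bˣ) : B)) ∘ₗ (LinearMap.mulRight K (ux : B))
  have hT : ∀ z, T z = ((ux⁻¹ : Bˣ) : B) * (z * X) := by
    intro z; simp [T, hux]
  have hTe : ∀ i j : ℕ, T (X ^ i * Y ^ j) = ζ ^ j • (X ^ i * Y ^ j) := by
    intro i j
    rw [hT, mul_assoc, h.Y_pow_mul_X, mul_smul_comm, mul_smul_comm, ← mul_assoc (X ^ i),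
      ← pow_succ, pow_succ', mul_assoc X, ← hux, Units.inv_mul_cancel_left]
  -- the second operator
  let S : Module.End K B :=
    (LinearMap.mulLeft K (uy : B)) ∘ₗ (LinearMap.mulRight K ((uy⁻¹ : Bˣ) : B))
  have hSe : ∀ i : ℕ, S (X ^ i) = ζ ^ i • (X ^ i) := by
    intro i
    have : S (X ^ i) = Y * (X ^ i * ((uy⁻¹ : Bˣ) : B)) := by simp [S, huy]
    rw [this, ← mul_assoc, h.Y_mul_X_pow, smul_mul_assoc, mul_assoc, ← huy, Units.mul_inv, mul_one]
  have hXind : LinearIndependent K (fun i : Fin n => X ^ (i : ℕ)) := by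
    refine Module.End.eigenvectors_linearIndependent' S _ hμ _ (fun i => ⟨?_, ?_⟩)
    · exact Module.End.mem_eigenspace_iff.2 (hSe i)
    · have : IsUnit (X ^ (i : ℕ)) := (h.isUnit_X hn ha).pow _
      exact this.ne_zero
  rw [Fintype.linearIndependent_iff]
  intro c hc
  have hsum : ∑ j : Fin n, (∑ i : Fin n, c (i, j) • (X ^ (i : ℕ) * Y ^ (j : ℕ))) = 0 := by
    rw [← hc, Fintype.sum_prod_type_right]
  have hind := (Module.End.eigenspaces_iSupIndep T).comp hμ
  rw [iSupIndep_iff_finsetSum_eq_zero_imp_eq_zero] at hind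
  have hj := hind Finset.univ (fun j => ∑ i : Fin n, c (i, j) • (X ^ (i : ℕ) * Y ^ (j : ℕ)))
    (fun j _ => by
      simp only [Function.comp_apply]
      refine Submodule.sum_mem _ (fun i _ => Submodule.smul_mem _ _ ?_)
      exact Module.End.mem_eigenspace_iff.2 (hTe i j)) hsum
  rintro ⟨i, j⟩
  have h1 := hj j (Finset.mem_univ j)
  simp only [← smul_mul_assoc, ← Finset.sum_mul] at h1
  have hYu : IsUnit (Y ^ (j : ℕ)) := (h.isUnit_Y hn hb).pow _
  have h2 : ∑ i : Fin n, c (i, j) • X ^ (i : ℕ) = 0 := by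
    rwa [hYu.mul_left_eq_zero] at h1
  exact Fintype.linearIndependent_iff.1 hXind (fun i => c (i, j)) h2 i

end Indep

section Span

variable {K : Type u} [Field K] {n : ℕ} {ζ a b : K}

theorem span_eq_top (hn : n ≠ 0) :
    Submodule.span K (Set.range
      (fun p : Fin n × Fin n => gx n ζ a b ^ (p.1 : ℕ) * gy n ζ a b ^ (p.2 : ℕ))) = ⊤ := by
  set X := gx n ζ a b with hX
  set Y := gy n ζ a b with hY
  have hp : IsPair n ζ a b X Y := isPair_gen
  set S := Submodule.span K (Set.range
      (fun p : Fin n × Fin n => X ^ (p.1 : ℕ) * Y ^ (p.2 : ℕ))) with hS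
  have hpos : 0 < n := Nat.pos_of_ne_zero hn
  have hmem : ∀ i j : ℕ, X ^ i * Y ^ j ∈ S := by
    intro i j
    have hXi : X ^ i = a ^ (i / n) • X ^ (i % n) := by
      conv_lhs => rw [← Nat.div_add_mod i n]
      rw [pow_add, pow_mul, hp.powX, ← map_pow, ← Algebra.smul_def]
    have hYj : Y ^ j = b ^ (j / n) • Y ^ (j % n) := by
      conv_lhs => rw [← Nat.div_add_mod j n]
      rw [pow_add, pow_mul, hp.powY, ← map_pow, ← Algebra.smul_def]
    rw [hXi, hYj, smul_mul_smul_comm]
    refine Submodule.smul_mem _ _ (Submodule.subset_span ?_)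
    exact ⟨(⟨i % n, Nat.mod_lt _ hpos⟩, ⟨j % n, Nat.mod_lt _ hpos⟩), rfl⟩
  have hXS : ∀ z ∈ S, X * z ∈ S := by
    intro z hz
    induction hz using Submodule.span_induction with
    | mem z hz =>
      obtain ⟨p, rfl⟩ := hz
      simp only
      rw [← mul_assoc, ← pow_succ']
      exact hmem _ _
    | zero => simp
    | add y z _ _ hy hz => rw [mul_add]; exact S.add_mem hy hz
    | smul c z _ hz => rw [mul_smul_comm]; exact S.smul_mem _ hz
  have hYS : ∀ z ∈ S, Y * z ∈ S := by
    intro z hz
    induction hz using Submodule.span_induction with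
    | mem z hz =>
      obtain ⟨p, rfl⟩ := hz
      simp only
      rw [← mul_assoc, hp.Y_mul_X_pow, smul_mul_assoc, mul_assoc, ← pow_succ']
      exact S.smul_mem _ (hmem _ _)
    | zero => simp
    | add y z _ _ hy hz => rw [mul_add]; exact S.add_mem hy hz
    | smul c z _ hz => rw [mul_smul_comm]; exact S.smul_mem _ hz
  rw [eq_top_iff]
  rintro z -
  have hz : z ∈ Algebra.adjoin K {X, Y} := by
    rw [hX, hY, adjoin_eq_top]; trivial
  have key : ∀ s ∈ S, z * s ∈ S := by
    induction hz using Algebra.adjoin_induction with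
    | mem z hz =>
      rcases hz with rfl | hz
      · exact hXS
      · rw [Set.mem_singleton_iff] at hz
        rw [hz]; exact hYS
    | algebraMap c =>
      intro s hs
      rw [← Algebra.smul_def]
      exact S.smul_mem _ hs
    | add y z _ _ hy hz =>
      intro s hs
      rw [add_mul]
      exact S.add_mem (hy s hs) (hz s hs)
    | mul y z _ _ hy hz =>
      intro s hs
      rw [mul_assoc]
      exact hy _ (hz s hs)
  have h1 : (1 : Symb n ζ a b) ∈ S := by simpa using hmem 0 0
  simpa using key 1 h1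

end Span

/-! ### The standard representation -/

section StdRep

variable {K : Type u} [Field K] {n : ℕ} [NeZero n] {ζ : K}

/-- The diagonal operator. -/
noncomputable def stdX (hζ : ζ ^ n = 1) : Module.End K (ZMod n → K) where
  toFun f i := AddChar.zmodChar n hζ (-i) * f i
  map_add' f g := by ext i; simp [mul_add]
  map_smul' c f := by ext i; simp [mul_left_comm]

/-- The weighted shift operator. -/
noncomputable def stdY (n : ℕ) [NeZero n] (c : K) : Module.End K (ZMod n → K) where
  toFun f i := (if i = 0 then c else 1) * f (i - 1)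
  map_add' f g := by ext i; simp [mul_add]
  map_smul' c f := by ext i; simp [mul_left_comm]

theorem stdX_pow_apply (hζ : ζ ^ n = 1) (k : ℕ) (f : ZMod n → K) (i : ZMod n) :
    (stdX hζ ^ k) f i = (AddChar.zmodChar n hζ (-i)) ^ k * f i := by
  induction k generalizing f with
  | zero => simp
  | succ k ih =>
    rw [pow_succ, Module.End.mul_apply, ih, pow_succ, mul_assoc]
    rfl

theorem stdY_pow_apply (c : K) (k : ℕ) (f : ZMod n → K) (i : ZMod n) :
    (stdY n c ^ k) f i =
      (∏ j ∈ Finset.range k, (if i - (j : ZMod n) = 0 then c else 1)) * f (i - k) := by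
  induction k generalizing f with
  | zero => simp
  | succ k ih =>
    rw [pow_succ, Module.End.mul_apply, ih, Finset.prod_range_succ, mul_assoc]
    congr 1
    change (if i - (k : ZMod n) = 0 then c else 1) * f (i - k - 1) = _
    rw [Nat.cast_succ, sub_sub]

theorem isPair_std (hζ : ζ ^ n = 1) (c : K) :
    IsPair n ζ 1 c (stdX hζ) (stdY n c) where
  powX := by
    refine LinearMap.ext fun f => funext fun i => ?_
    rw [stdX_pow_apply, AddChar.zmodChar_apply, ← pow_mul, mul_comm (-i).val n, pow_mul, hζ,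
      one_pow, one_mul, map_one, Module.End.one_apply]
  powY := by
    refine LinearMap.ext fun f => funext fun i => ?_
    rw [stdY_pow_apply]
    have h1 : ∏ j ∈ Finset.range n, (if i - (j : ZMod n) = 0 then c else 1) = c := by
      rw [Finset.prod_eq_single_of_mem i.val (Finset.mem_range.2 (ZMod.val_lt i))]
      · simp
      · intro j hj hne
        rw [if_neg]
        intro h0
        apply hne
        rw [sub_eq_zero] at h0
        rw [h0, ZMod.val_natCast, Nat.mod_eq_of_lt (Finset.mem_range.1 hj)]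
    rw [h1]
    simp [Module.algebraMap_end_apply]
  comm := by
    refine LinearMap.ext fun f => funext fun i => ?_
    simp only [Module.End.mul_apply, LinearMap.smul_apply, Pi.smul_apply, smul_eq_mul]
    change (if i = 0 then c else 1) * (AddChar.zmodChar n hζ (-(i - 1)) * f (i - 1)) =
      ζ * (AddChar.zmodChar n hζ (-i) * ((if i = 0 then c else 1) * f (i - 1)))
    have h1 : AddChar.zmodChar n hζ (-(i - 1)) = ζ * AddChar.zmodChar n hζ (-i) := by
      have h2 : -(i - 1) = 1 + -i := by ring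
      rw [h2, AddChar.map_add_eq_mul]
      congr 1
      have := AddChar.zmodChar_apply' hζ 1
      simpa using this
    rw [h1]
    ring

end StdRep

section Nontrivial

variable {K : Type u} [Field K] {n : ℕ} {ζ a b : K}

theorem nontrivial (hζ : IsPrimitiveRoot ζ n) (hn : n ≠ 0) : Nontrivial (Symb n ζ a b) := by
  have : NeZero n := ⟨hn⟩
  let Kb := AlgebraicClosure K
  obtain ⟨α, hα⟩ := IsAlgClosed.exists_pow_nat_eq (algebraMap K Kb a) (Nat.pos_of_ne_zero hn)
  obtain ⟨β, hβ⟩ := IsAlgClosed.exists_pow_nat_eq (algebraMap K Kb b) (Nat.pos_of_ne_zero hn)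
  have hζ' : (algebraMap K Kb ζ) ^ n = 1 := by rw [← map_pow, hζ.pow_eq_one, map_one]
  have hstd := isPair_std (K := Kb) (n := n) hζ' 1
  have hp : IsPair (K := K) n ζ a b (α • stdX hζ') (β • stdY n (1 : Kb)) := by
    refine ⟨?_, ?_, ?_⟩
    · rw [smul_pow, hstd.powX, hα]
      ext f
      simp [Module.algebraMap_end_apply]
    · rw [smul_pow, hstd.powY, hβ]
      ext f
      simp [Module.algebraMap_end_apply]
    · rw [smul_mul_smul_comm, hstd.comm, smul_mul_smul_comm, smul_smul, ← algebraMap_smul Kb ζ,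
        smul_smul]
      congr 1
      ring
  exact (lift hp).toRingHom.domain_nontrivial

/-- The standard basis of the symbol algebra. -/
noncomputable def basis (hζ : IsPrimitiveRoot ζ n) (hn : n ≠ 0) (ha : a ≠ 0) (hb : b ≠ 0) :
    Module.Basis (Fin n × Fin n) K (Symb n ζ a b) :=
  have := nontrivial (a := a) (b := b) hζ hn
  Module.Basis.mk (IsPair.linearIndependent hζ hn ha hb isPair_gen) (span_eq_top hn).ge

theorem finrank_eq (hζ : IsPrimitiveRoot ζ n) (hn : n ≠ 0) (ha : a ≠ 0) (hb : b ≠ 0) :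
    Module.finrank K (Symb n ζ a b) = n * n := by
  rw [Module.finrank_eq_card_basis (basis hζ hn ha hb)]
  simp

theorem finiteDimensional (hζ : IsPrimitiveRoot ζ n) (hn : n ≠ 0) (ha : a ≠ 0) (hb : b ≠ 0) :
    FiniteDimensional K (Symb n ζ a b) :=
  Module.Basis.finiteDimensional_of_finite (basis hζ hn ha hb)

end Nontrivial

end Symb

end Pool.Agent.Lib.MP_43d240_ag
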