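import Mathlib

/-!
# Symbols modulo two on a cubic double cover

Abstract calculus with a symmetric bilinear symbol killed by two, satisfying the Steinberg
relation and trivial on a base field `M`, and its evaluation at points of `y ^ 2 = f(x)`.
-/

set_option autoImplicit false

namespace Pool.Agent.Lib.MP_43d240_ag

/-- A symbol modulo two with values in an additive group, trivial on the base field `M`. -/
structure SymbolTwo (M K V : Type*) [Field M] [Field K] [Algebra M K] [AddCommGroup V] where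
  /-- the symbol -/
  s : K → K → V
  mul_left : ∀ {a b : K} (c : K), a ≠ 0 → b ≠ 0 → s (a * b) c = s a c + s b c
  symm : ∀ a b, s a b = s b a
  two : ∀ a b, s a b + s a b = 0
  steinberg : ∀ {a b : K}, a ≠ 0 → b ≠ 0 → a + b = 1 → s a b = 0
  neg_self : ∀ a, s a (-a) = 0
  base : ∀ a b : M, s (algebraMap M K a) (algebraMap M K b) = 0

namespace SymbolTwo

variable {M K V : Type*} [Field M] [Field K] [Algebra M K] [AddCommGroup V]
  (σ : SymbolTwo M K V)

theorem mul_right {a b : K} (c : K) (ha : a ≠ 0) (hb : b ≠ 0) :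
    σ.s c (a * b) = σ.s c a + σ.s c b := by
  rw [σ.symm, σ.mul_left c ha hb, σ.symm a, σ.symm b]

theorem one_left (c : K) : σ.s 1 c = 0 := by
  have h := σ.mul_left (a := 1) (b := 1) c one_ne_zero one_ne_zero
  rw [mul_one] at h
  simpa using h

theorem one_right (c : K) : σ.s c 1 = 0 := by rw [σ.symm, σ.one_left]

theorem sq_left {z : K} (c : K) (hz : z ≠ 0) : σ.s (z ^ 2) c = 0 := by
  rw [pow_two, σ.mul_left c hz hz, σ.two]

theorem mul_sq_left {a z : K} (c : K) (ha : a ≠ 0) (hz : z ≠ 0) : σ.s (a * z ^ 2) c = σ.s a c := by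
  rw [σ.mul_left c ha (pow_ne_zero 2 hz), σ.sq_left c hz, add_zero]

theorem mul_sq_right {a z : K} (c : K) (ha : a ≠ 0) (hz : z ≠ 0) :
    σ.s c (a * z ^ 2) = σ.s c a := by
  rw [σ.symm, σ.mul_sq_left c ha hz, σ.symm]

theorem inv_left {a : K} (c : K) (ha : a ≠ 0) : σ.s a⁻¹ c = σ.s a c := by
  have h : a⁻¹ = a * (a⁻¹) ^ 2 := by field_simp
  rw [h, σ.mul_sq_left c ha (inv_ne_zero ha)]

theorem inv_right {a : K} (c : K) (ha : a ≠ 0) : σ.s c a⁻¹ = σ.s c a := by
  rw [σ.symm, σ.inv_left c ha, σ.symm]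

/-- If `A = B + C z ^ 2` then `{A, - B C} = {B, C}`. -/
theorem three_term {A B C : K} (z : K) (hA : A ≠ 0) (hB : B ≠ 0) (hC : C ≠ 0)
    (h : A = B + C * z ^ 2) : σ.s A (-(B * C)) = σ.s B C := by
  have hneg : -(B * C) = (-1) * (B * C) := by ring
  have h1 : σ.s A (-(B * C)) = σ.s A (-1) + (σ.s A B + σ.s A C) := by
    rw [hneg, σ.mul_right A (neg_ne_zero.2 one_ne_zero) (mul_ne_zero hB hC), σ.mul_right A hB hC]
  have h2 : σ.s A A = σ.s A (-1) := by
    have h3 := σ.neg_self A
    have h4 : -A = (-1) * A := by ring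
    rw [h4, σ.mul_right A (neg_ne_zero.2 one_ne_zero) hA] at h3
    have := σ.two A (-1)
    have := σ.two A A
    grind
  by_cases hz : z = 0
  · have hAB : A = B := by rw [h, hz]; ring
    subst hAB
    have := σ.two A A
    rw [h1, ← h2]
    grind
  · have hCz : C * z ^ 2 ≠ 0 := mul_ne_zero hC (pow_ne_zero 2 hz)
    have hA' := inv_ne_zero hA
    have h3 : σ.s (B * A⁻¹) (C * z ^ 2 * A⁻¹) = 0 := by
      refine σ.steinberg (mul_ne_zero hB hA') (mul_ne_zero hCz hA') ?_
      rw [← add_mul, ← h, mul_inv_cancel₀ hA]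
    rw [σ.mul_left _ hB hA', σ.mul_right _ hCz hA', σ.mul_right _ hCz hA', σ.mul_sq_right _ hC hz,
      σ.mul_sq_right _ hC hz, σ.inv_left _ hA, σ.inv_left _ hA, σ.inv_right _ hA,
      σ.inv_right _ hA] at h3
    have e1 := σ.two A B
    have e2 := σ.two A C
    have e3 := σ.two A A
    have e4 := σ.two B C
    have e5 := σ.symm B A
    rw [h1, ← h2]
    grind

section Point

variable {x : K} (hx : ∀ t : M, x ≠ algebraMap M K t)

include hx in
theorem X_ne (t : M) : x - algebraMap M K t ≠ 0 := sub_ne_zero.2 (hx t)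

theorem am_ne {t : M} (ht : t ≠ 0) : algebraMap M K t ≠ 0 :=
  (map_ne_zero_iff _ (algebraMap M K).injective).2 ht

include hx in
theorem two_term {t b : M} (h : t ≠ b) :
    σ.s (x - algebraMap M K t) (x - algebraMap M K b) =
      σ.s (x - algebraMap M K t) (algebraMap M K (t - b)) +
        σ.s (x - algebraMap M K b) (algebraMap M K (b - t)) := by
  have hXt := X_ne hx t
  have hXb := X_ne hx b
  have h1 : algebraMap M K (t - b) ≠ 0 := am_ne (sub_ne_zero.2 h)
  have h2 : algebraMap M K (b - t) ≠ 0 := am_ne (sub_ne_zero.2 (Ne.symm h))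
  have h3 := σ.three_term (A := x - algebraMap M K b) (B := x - algebraMap M K t)
    (C := algebraMap M K (t - b)) 1 hXb hXt h1 (by rw [map_sub]; ring)
  have h4 : -((x - algebraMap M K t) * algebraMap M K (t - b)) =
      (x - algebraMap M K t) * algebraMap M K (b - t) := by
    rw [map_sub, map_sub]; ring
  rw [h4, σ.mul_right _ hXt h2] at h3
  rw [← h3, σ.symm (x - algebraMap M K t) (x - algebraMap M K b)]
  have := σ.two (x - algebraMap M K b) (algebraMap M K (b - t))
  grind

variable (M) in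
/-- The product of the `x - t`. -/
def Px (x : K) (l : List M) : K := (l.map fun t => x - algebraMap M K t).prod

/-- The product of the `c - t`. -/
def Pm (l : List M) (c : M) : M := (l.map fun t => c - t).prod

/-- The sum of the symbols `{x - t, φ t}`. -/
def S (σ : SymbolTwo M K V) (x : K) (l : List M) (φ : M → M) : V :=
  (l.map fun t => σ.s (x - algebraMap M K t) (algebraMap M K (φ t))).sum

@[simp] theorem Px_nil : Px M x [] = 1 := rfl
@[simp] theorem Px_cons (t : M) (l : List M) : Px M x (t :: l) = (x - algebraMap M K t) * Px M x l := by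
  simp [Px]
@[simp] theorem Pm_nil (c : M) : Pm [] c = 1 := rfl
@[simp] theorem Pm_cons (t : M) (l : List M) (c : M) : Pm (t :: l) c = (c - t) * Pm l c := by
  simp [Pm]
@[simp] theorem S_nil (φ : M → M) : S σ x [] φ = 0 := rfl
@[simp] theorem S_cons (t : M) (l : List M) (φ : M → M) :
    S σ x (t :: l) φ = σ.s (x - algebraMap M K t) (algebraMap M K (φ t)) + S σ x l φ := by
  simp [S]

include hx in
theorem Px_ne (l : List M) : Px M x l ≠ 0 := by
  induction l with
  | nil => simp
  | cons t l ih => rw [Px_cons]; exact mul_ne_zero (X_ne hx t) ih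

theorem Pm_ne {l : List M} {c : M} (h : c ∉ l) : Pm l c ≠ 0 := by
  induction l with
  | nil => simp
  | cons t l ih =>
    rw [List.mem_cons, not_or] at h
    rw [Pm_cons]
    exact mul_ne_zero (sub_ne_zero.2 h.1) (ih h.2)

theorem Pm_eq_zero {l : List M} {c : M} (h : c ∈ l) : Pm l c = 0 := by
  induction l with
  | nil => simp at h
  | cons t l ih =>
    rw [Pm_cons]
    rcases List.mem_cons.1 h with rfl | h
    · simp
    · rw [ih h, mul_zero]

theorem S_congr {l : List M} {φ ψ : M → M} (h : ∀ t ∈ l, φ t = ψ t) : S σ x l φ = S σ x l ψ := by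
  induction l with
  | nil => rfl
  | cons t l ih =>
    rw [S_cons, S_cons, h t (by simp), ih (fun t ht => h t (by simp [ht]))]

theorem S_mul {l : List M} {φ ψ : M → M} (hφ : ∀ t ∈ l, φ t ≠ 0) (hψ : ∀ t ∈ l, ψ t ≠ 0) :
    S σ x l (fun t => φ t * ψ t) = S σ x l φ + S σ x l ψ := by
  induction l with
  | nil => simp
  | cons t l ih =>
    rw [S_cons, S_cons, S_cons, ih (fun t ht => hφ t (by simp [ht]))
      (fun t ht => hψ t (by simp [ht])), map_mul,
      σ.mul_right _ (am_ne (hφ t (by simp))) (am_ne (hψ t (by simp)))]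
    abel

theorem S_two (l : List M) (φ : M → M) : S σ x l φ + S σ x l φ = 0 := by
  induction l with
  | nil => simp
  | cons t l ih =>
    rw [S_cons]
    have := σ.two (x - algebraMap M K t) (algebraMap M K (φ t))
    grind

include hx in
theorem S_const (l : List M) (w : M) : S σ x l (fun _ => w) = σ.s (Px M x l) (algebraMap M K w) := by
  induction l with
  | nil => simp [σ.one_left]
  | cons t l ih =>
    rw [S_cons, ih, Px_cons, σ.mul_left _ (X_ne hx t) (Px_ne hx l)]

include hx in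
theorem s_X_Px {t : M} {l : List M} (ht : t ∉ l) :
    σ.s (x - algebraMap M K t) (Px M x l) =
      σ.s (x - algebraMap M K t) (algebraMap M K (Pm l t)) + S σ x l (fun b => b - t) := by
  induction l with
  | nil => simp [σ.one_right]
  | cons b l ih =>
    rw [List.mem_cons, not_or] at ht
    rw [Px_cons, Pm_cons, S_cons, σ.mul_right _ (X_ne hx b) (Px_ne hx l), ih ht.2, map_mul,
      σ.mul_right _ (am_ne (sub_ne_zero.2 ht.1)) (am_ne (Pm_ne ht.2)), σ.two_term hx ht.1]
    abel

include hx in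
/-- Reciprocity for split polynomials. -/
theorem reciprocity {l l' : List M} (h : ∀ t ∈ l, t ∉ l') :
    S σ x l (Pm l') + S σ x l' (Pm l) = σ.s (Px M x l) (Px M x l') := by
  induction l with
  | nil =>
    rw [S_nil, Px_nil, σ.one_left, zero_add]
    have : S σ x l' (Pm []) = S σ x l' (fun _ => 1) := S_congr σ (fun t _ => by simp)
    rw [this, S_const σ hx, map_one, σ.one_right]
  | cons t l ih =>
    have ht : t ∉ l' := h t (by simp)
    have ht' : ∀ b ∈ l', b ≠ t := fun b hb hbt => ht (hbt ▸ hb)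
    have ih' := ih (fun t ht => h t (by simp [ht]))
    have h1 : S σ x l' (Pm (t :: l)) = S σ x l' (fun b => b - t) + S σ x l' (Pm l) := by
      have e : S σ x l' (Pm (t :: l)) = S σ x l' (fun b => (b - t) * Pm l b) :=
        S_congr σ (fun b _ => by simp)
      rw [e]
      refine S_mul σ (fun b hb => sub_ne_zero.2 (ht' b hb)) (fun b hb => Pm_ne ?_)
      intro hbl
      exact h b (by simp [hbl]) hb
    rw [S_cons, h1, Px_cons, σ.mul_left _ (X_ne hx t) (Px_ne hx l), ← ih', s_X_Px σ hx ht]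
    abel

include hx in
/-- The main relation between points: `Q = f B + w C` with `Q, B, C` split. -/
theorem relation (f : M → M) {y : K} (hy : y ≠ 0) {lQ lB lC : List M} {w : M} (hw : w ≠ 0)
    (hM : ∀ t, Pm lQ t = f t * Pm lB t + w * Pm lC t)
    (hK : Px M x lQ = y ^ 2 * Px M x lB + algebraMap M K w * Px M x lC)
    (hQB : ∀ t ∈ lQ, t ∉ lB) (hQC : ∀ t ∈ lQ, t ∉ lC) (hBC : ∀ t ∈ lB, t ∉ lC) :
    S σ x lQ f = S σ x lC f := by
  have hCB : ∀ t ∈ lC, t ∉ lB := fun t h1 h2 => hBC t h2 h1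
  have hCQ : ∀ t ∈ lC, t ∉ lQ := fun t h1 h2 => hQC t h2 h1
  have hBQ : ∀ t ∈ lB, t ∉ lQ := fun t h1 h2 => hQB t h2 h1
  have hwK := am_ne (K := K) hw
  have hfQ : ∀ t ∈ lQ, f t * Pm lB t = (-w) * Pm lC t := by
    intro t ht
    have h := hM t
    rw [Pm_eq_zero ht] at h
    linear_combination -h
  have hfQ0 : ∀ t ∈ lQ, f t ≠ 0 := by
    intro t ht h0
    have h := hfQ t ht
    rw [h0, zero_mul] at h
    exact mul_ne_zero (neg_ne_zero.2 hw) (Pm_ne (hQC t ht)) h.symm
  have hfC0 : ∀ t ∈ lC, f t ≠ 0 := by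
    intro t ht h0
    have h := hM t
    rw [h0, zero_mul, zero_add, Pm_eq_zero ht, mul_zero] at h
    exact Pm_ne (hCQ t ht) h
  -- first step
  have e1 : S σ x lQ f + S σ x lQ (Pm lB) =
      σ.s (Px M x lQ) (algebraMap M K (-w)) + S σ x lQ (Pm lC) := by
    rw [← S_const σ hx, ← S_mul σ hfQ0 (fun t ht => Pm_ne (hQB t ht)),
      ← S_mul σ (fun _ _ => neg_ne_zero.2 hw) (fun t ht => Pm_ne (hQC t ht))]
    exact S_congr σ hfQ
  have r1 := reciprocity σ hx hQB
  have r2 := reciprocity σ hx hQC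
  have r3 := reciprocity σ hx hBC
  have e2 : S σ x lB (Pm lQ) = σ.s (Px M x lB) (algebraMap M K w) + S σ x lB (Pm lC) := by
    rw [← S_const σ hx, ← S_mul σ (fun _ _ => hw) (fun t ht => Pm_ne (hBC t ht))]
    refine S_congr σ (fun t ht => ?_)
    rw [hM t, Pm_eq_zero ht, mul_zero, zero_add]
  have e3 : S σ x lC (Pm lQ) = S σ x lC f + S σ x lC (Pm lB) := by
    rw [← S_mul σ hfC0 (fun t ht => Pm_ne (hCB t ht))]
    refine S_congr σ (fun t ht => ?_)
    rw [hM t, Pm_eq_zero ht, mul_zero, add_zero]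
  have hQ0 := Px_ne hx lQ
  have hB0 := Px_ne hx lB
  have hC0 := Px_ne hx lC
  have t1 := σ.three_term (A := Px M x lQ) (B := algebraMap M K w * Px M x lC) (C := Px M x lB) y
    hQ0 (mul_ne_zero hwK hC0) hB0 (by rw [hK]; ring)
  have hneg : -(algebraMap M K w * Px M x lC * Px M x lB) =
      algebraMap M K (-w) * (Px M x lC * Px M x lB) := by
    rw [map_neg]; ring
  rw [hneg, σ.mul_right _ (am_ne (neg_ne_zero.2 hw)) (mul_ne_zero hC0 hB0), σ.mul_right _ hC0 hB0,
    σ.mul_left _ hwK hC0] at t1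
  have s1 := σ.symm (algebraMap M K w) (Px M x lB)
  have s2 := σ.symm (Px M x lC) (Px M x lB)
  have d3 := S_two σ (x := x) lB (Pm lC)
  have d5 := σ.two (Px M x lB) (algebraMap M K w)
  have d7 := S_two σ (x := x) lC f
  have d10 := σ.two (Px M x lQ) (Px M x lB)
  linear_combination (norm := module) e1 + r2 - r1 + t1 - e3 + e2 + s1 + s2 - r3 - d7 + d3 + d5 - d10

end Point

end SymbolTwo

end Pool.Agent.Lib.MP_43d240_ag
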