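import Mathlib

/-!
# Symplectic bases over `ZMod n`

`R` is a commutative ring with finitely many residue fields `F p` (a semilocal ring): an element is
a unit as soon as all its residues are nonzero and residues can be prescribed.
-/

set_option autoImplicit false

namespace Pool.Agent.Lib.MP_43d240_ag

open Matrix

section Semilocal

variable {R : Type*} [CommRing R] {ι : Type*} [Fintype ι] [DecidableEq ι]

/-- `φ` commutes with the bilinear form. -/
theorem map_toBilin' {F : Type*} [CommRing F] (φ : R →+* F) (ω : Matrix ι ι R) (x y : ι → R) :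
    φ (Matrix.toBilin' ω x y) = Matrix.toBilin' (ω.map φ) (fun i => φ (x i)) (fun i => φ (y i)) := by
  rw [Matrix.toBilin'_apply, Matrix.toBilin'_apply]
  simp [map_sum]

theorem toBilin'_swap {ω : Matrix ι ι R} (halt : ∀ x, Matrix.toBilin' ω x x = 0) (x y : ι → R) :
    Matrix.toBilin' ω y x = - Matrix.toBilin' ω x y := by
  have h := halt (x + y)
  simp only [map_add, LinearMap.add_apply, halt, zero_add, add_zero] at h
  exact eq_neg_of_add_eq_zero_left h

/-- Projection to the orthogonal complement of the span of a partial symplectic basis. -/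
noncomputable def spProj (ω : Matrix ι ι R) {s : ℕ} (e e' : Fin s → ι → R) (x : ι → R) : ι → R :=
  x - ∑ i, Matrix.toBilin' ω x (e' i) • e i + ∑ i, Matrix.toBilin' ω x (e i) • e' i

/-- The relations of a partial symplectic basis. -/
structure IsSp (ω : Matrix ι ι R) {s : ℕ} (e e' : Fin s → ι → R) : Prop where
  ee : ∀ i j, Matrix.toBilin' ω (e i) (e j) = 0
  e'e' : ∀ i j, Matrix.toBilin' ω (e' i) (e' j) = 0
  ee' : ∀ i j, Matrix.toBilin' ω (e i) (e' j) = if i = j then 1 else 0

theorem spProj_left {ω : Matrix ι ι R} (halt : ∀ x, Matrix.toBilin' ω x x = 0) {s : ℕ}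
    {e e' : Fin s → ι → R} (h : IsSp ω e e') (x : ι → R) (j : Fin s) :
    Matrix.toBilin' ω (spProj ω e e' x) (e j) = 0 := by
  unfold spProj
  simp only [map_add, map_sub, map_sum, map_smul, LinearMap.add_apply, LinearMap.sub_apply,
    LinearMap.sum_apply, LinearMap.smul_apply, smul_eq_mul, h.ee, mul_zero,
    Finset.sum_const_zero, sub_zero]
  have h2 : ∀ i, Matrix.toBilin' ω (e' i) (e j) = if j = i then -1 else 0 := by
    intro i
    rw [toBilin'_swap halt, h.ee']
    split_ifs <;> simp
  simp only [h2]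
  simp

theorem spProj_right {ω : Matrix ι ι R} {s : ℕ}
    {e e' : Fin s → ι → R} (h : IsSp ω e e') (x : ι → R) (j : Fin s) :
    Matrix.toBilin' ω (spProj ω e e' x) (e' j) = 0 := by
  unfold spProj
  simp only [map_add, map_sub, map_sum, map_smul, LinearMap.add_apply, LinearMap.sub_apply,
    LinearMap.sum_apply, LinearMap.smul_apply, smul_eq_mul, h.e'e', mul_zero,
    Finset.sum_const_zero, add_zero, h.ee']
  simp

theorem map_spProj {F : Type*} [CommRing F] (φ : R →+* F) (ω : Matrix ι ι R) {s : ℕ}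
    (e e' : Fin s → ι → R) (x : ι → R) :
    (fun i => φ (spProj ω e e' x i)) = spProj (ω.map φ) (fun j i => φ (e j i))
      (fun j i => φ (e' j i)) (fun i => φ (x i)) := by
  funext i
  unfold spProj
  simp only [Pi.add_apply, Pi.sub_apply, Finset.sum_apply, Pi.smul_apply, smul_eq_mul, map_add,
    map_sub, map_sum, map_mul, map_toBilin']

theorem toBilin'_spProj {ω : Matrix ι ι R} {s : ℕ} {e e' : Fin s → ι → R} {x : ι → R}
    (h : ∀ i, Matrix.toBilin' ω x (e i) = 0) (h' : ∀ i, Matrix.toBilin' ω x (e' i) = 0)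
    (y : ι → R) : Matrix.toBilin' ω x (spProj ω e e' y) = Matrix.toBilin' ω x y := by
  unfold spProj
  simp only [map_add, map_sub, map_sum, map_smul, smul_eq_mul, h, h', mul_zero,
    Finset.sum_const_zero, add_zero, sub_zero]

theorem spProj_eq_self {ω : Matrix ι ι R} {s : ℕ} {e e' : Fin s → ι → R} {x : ι → R}
    (h : ∀ i, Matrix.toBilin' ω x (e i) = 0) (h' : ∀ i, Matrix.toBilin' ω x (e' i) = 0) :
    spProj ω e e' x = x := by
  unfold spProj
  simp only [h, h', zero_smul, Finset.sum_const_zero, add_zero, sub_zero]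

/-- Over a field: a vector orthogonal to few vectors, with a partner. -/
theorem exists_pair_field {F : Type*} [Field F] {ω : Matrix ι ι F} (hdet : ω.det ≠ 0) {s : ℕ}
    (hs : 2 * s < Fintype.card ι) (e e' : Fin s → ι → F) :
    ∃ x y : ι → F, (∀ i, Matrix.toBilin' ω x (e i) = 0) ∧ (∀ i, Matrix.toBilin' ω x (e' i) = 0) ∧
      Matrix.toBilin' ω x y ≠ 0 := by
  let f : (ι → F) →ₗ[F] (Fin s → F) × (Fin s → F) :=
    LinearMap.prod (LinearMap.pi (fun i => (Matrix.toBilin' ω).flip (e i)))
      (LinearMap.pi (fun i => (Matrix.toBilin' ω).flip (e' i)))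
  have hker : LinearMap.ker f ≠ ⊥ := by
    apply LinearMap.ker_ne_bot_of_finrank_lt
    rw [Module.finrank_prod]
    simp only [Module.finrank_fintype_fun_eq_card, Fintype.card_fin]
    omega
  obtain ⟨x, hx, hx0⟩ := (Submodule.ne_bot_iff _).1 hker
  rw [LinearMap.mem_ker] at hx
  have h1 : ∀ i, Matrix.toBilin' ω x (e i) = 0 := fun i =>
    congrFun (congrArg Prod.fst hx) i
  have h2 : ∀ i, Matrix.toBilin' ω x (e' i) = 0 := fun i =>
    congrFun (congrArg Prod.snd hx) i
  obtain ⟨y, hy⟩ : ∃ y, Matrix.toBilin' ω x y ≠ 0 := by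
    by_contra hcon
    push Not at hcon
    apply hx0
    apply (Matrix.nondegenerate_of_det_ne_zero hdet).eq_zero_of_ortho
    intro w
    rw [← Matrix.toBilin'_apply']
    exact hcon w
  exact ⟨x, y, h1, h2, hy⟩

theorem exists_isSp {P : Type*} {F : P → Type*} [∀ p, Field (F p)] (φ : ∀ p, R →+* F p)
    (hunit : ∀ r, (∀ p, φ p r ≠ 0) → IsUnit r) (hsurj : ∀ x : ∀ p, F p, ∃ r, ∀ p, φ p r = x p)
    {ω : Matrix ι ι R} (halt : ∀ x, Matrix.toBilin' ω x x = 0) (hdet : IsUnit ω.det) (s : ℕ)
    (hs : 2 * s ≤ Fintype.card ι) : ∃ e e' : Fin s → ι → R, IsSp ω e e' := by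
  induction s with
  | zero => exact ⟨Fin.elim0, Fin.elim0, ⟨fun i => i.elim0, fun i => i.elim0, fun i => i.elim0⟩⟩
  | succ s ih =>
    obtain ⟨e, e', h⟩ := ih (by omega)
    have hdetp : ∀ p, (ω.map (φ p)).det ≠ 0 := by
      intro p
      have h1 := (hdet.map (φ p)).ne_zero
      rwa [RingHom.map_det] at h1
    have hp : ∀ p, ∃ x y : ι → F p,
        (∀ i, Matrix.toBilin' (ω.map (φ p)) x (fun a => φ p (e i a)) = 0) ∧
        (∀ i, Matrix.toBilin' (ω.map (φ p)) x (fun a => φ p (e' i a)) = 0) ∧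
        Matrix.toBilin' (ω.map (φ p)) x y ≠ 0 := fun p =>
      exists_pair_field (hdetp p) (by omega) _ _
    choose xp yp hx1 hx2 hxy using hp
    have hlift : ∀ z : ∀ p, ι → F p, ∃ x : ι → R, ∀ p, (fun i => φ p (x i)) = z p := by
      intro z
      choose x hx using fun i => hsurj (fun p => z p i)
      exact ⟨x, fun p => funext fun i => hx i p⟩
    obtain ⟨x, hx⟩ := hlift xp
    obtain ⟨y, hy⟩ := hlift yp
    set X := spProj ω e e' x with hX
    set Y := spProj ω e e' y with hY
    have hu : IsUnit (Matrix.toBilin' ω X Y) := by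
      apply hunit
      intro p
      rw [map_toBilin', hX, hY, map_spProj, map_spProj, hx, hy,
        spProj_eq_self (hx1 p) (hx2 p), toBilin'_spProj (hx1 p) (hx2 p)]
      exact hxy p
    obtain ⟨v, hv⟩ := hu.exists_left_inv
    have hXe : ∀ j, Matrix.toBilin' ω X (e j) = 0 := spProj_left halt h x
    have hXe' : ∀ j, Matrix.toBilin' ω X (e' j) = 0 := spProj_right h x
    have hYe : ∀ j, Matrix.toBilin' ω Y (e j) = 0 := spProj_left halt h y
    have hYe' : ∀ j, Matrix.toBilin' ω Y (e' j) = 0 := spProj_right h y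
    have heX : ∀ j, Matrix.toBilin' ω (e j) X = 0 := fun j => by
      rw [toBilin'_swap halt, hXe, neg_zero]
    have heY : ∀ j, Matrix.toBilin' ω (e j) Y = 0 := fun j => by
      rw [toBilin'_swap halt, hYe, neg_zero]
    have he'Y : ∀ j, Matrix.toBilin' ω (e' j) Y = 0 := fun j => by
      rw [toBilin'_swap halt, hYe', neg_zero]
    refine ⟨Fin.cons (v • X) e, Fin.cons Y e', ⟨?_, ?_, ?_⟩⟩
    · intro i j
      refine Fin.cases ?_ (fun i => ?_) i <;> refine Fin.cases ?_ (fun j => ?_) j
      · simp [halt]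
      · simp [hXe]
      · simp [heX]
      · simp [h.ee]
    · intro i j
      refine Fin.cases ?_ (fun i => ?_) i <;> refine Fin.cases ?_ (fun j => ?_) j
      · simp [halt]
      · simp [hYe']
      · simp [he'Y]
      · simp [h.e'e']
    · intro i j
      refine Fin.cases ?_ (fun i => ?_) i <;> refine Fin.cases ?_ (fun j => ?_) j
      · simp [hv]
      · simp [hXe', (Fin.succ_ne_zero j).symm]
      · simp [heY]
      · simp [h.ee', Fin.succ_inj]

end Semilocal

end Pool.Agent.Lib.MP_43d240_ag
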