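import Pool.Agent.Lib.MP_43d240_ag.Symplectic

/-!
# Symplectic normal form and the pencil argument
-/

set_option autoImplicit false

namespace Pool.Agent.Lib.MP_43d240_ag

open Matrix

section Decomp

variable {R : Type*} [CommRing R] {ι : Type*} [Fintype ι] [DecidableEq ι]

/-- Symplectic normal form. -/
theorem exists_decomp {ω : Matrix ι ι R} (halt : ∀ x, Matrix.toBilin' ω x x = 0) {g : ℕ}
    (hι : Fintype.card ι = 2 * g) {e e' : Fin g → ι → R} (h : IsSp ω e e') :
    ∃ (Q : Matrix ι (Fin g ⊕ Fin g) R) (P : Matrix (Fin g ⊕ Fin g) ι R), Q * P = 1 ∧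
      ∀ i j, ω i j = ∑ k : Fin g, (Q i (Sum.inl k) * Q j (Sum.inr k) -
        Q i (Sum.inr k) * Q j (Sum.inl k)) := by
  let P : Matrix (Fin g ⊕ Fin g) ι R := Matrix.of (Sum.elim e e')
  let J : Matrix (Fin g ⊕ Fin g) (Fin g ⊕ Fin g) R := fromBlocks 0 1 (-1) 0
  have hJJ : J * (-J) = 1 := by
    simp [J, fromBlocks_multiply, fromBlocks_neg, ← fromBlocks_one]
  have hP : P * ω * Pᵀ = J := by
    ext κ κ'
    have h1 : (P * ω * Pᵀ) κ κ' = Matrix.toBilin' ω (P κ) (P κ') := by
      rw [Matrix.toBilin'_apply, Matrix.mul_apply]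
      simp only [Matrix.mul_apply, Finset.sum_mul, Matrix.transpose_apply]
      rw [Finset.sum_comm]
    rw [h1]
    rcases κ with i | i <;> rcases κ' with j | j
    · change Matrix.toBilin' ω (e i) (e j) = J (Sum.inl i) (Sum.inl j)
      rw [h.ee]; simp [J]
    · change Matrix.toBilin' ω (e i) (e' j) = J (Sum.inl i) (Sum.inr j)
      rw [h.ee']; simp [J, Matrix.one_apply]
    · change Matrix.toBilin' ω (e' i) (e j) = J (Sum.inr i) (Sum.inl j)
      rw [toBilin'_swap halt, h.ee']
      simp [J, Matrix.one_apply, eq_comm]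
    · change Matrix.toBilin' ω (e' i) (e' j) = J (Sum.inr i) (Sum.inr j)
      rw [h.e'e']; simp [J]
  let Q : Matrix ι (Fin g ⊕ Fin g) R := ω * Pᵀ * (-J)
  have hPQ : P * Q = 1 := by
    simp only [Q]
    rw [← Matrix.mul_assoc, ← Matrix.mul_assoc, hP, hJJ]
  have hQP : Q * P = 1 := by
    exact (Matrix.mul_eq_one_comm_of_card_eq (Fin g ⊕ Fin g) ι R (by
      rw [hι, Fintype.card_sum, Fintype.card_fin]; ring)).1 hPQ
  refine ⟨Q, P, hQP, fun i j => ?_⟩
  have hω : ω = Q * J * Qᵀ := by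
    have h1 : Pᵀ * Qᵀ = 1 := by rw [← Matrix.transpose_mul, hQP, Matrix.transpose_one]
    calc ω = (Q * P) * ω * (Pᵀ * Qᵀ) := by rw [hQP, h1, Matrix.one_mul, Matrix.mul_one]
      _ = Q * (P * ω * Pᵀ) * Qᵀ := by simp only [Matrix.mul_assoc]
      _ = Q * J * Qᵀ := by rw [hP]
  have hQJ1 : ∀ k, (Q * J) i (Sum.inl k) = - Q i (Sum.inr k) := by
    intro k
    rw [Matrix.mul_apply, Fintype.sum_sum_type]
    simp [J, Matrix.one_apply]
  have hQJ2 : ∀ k, (Q * J) i (Sum.inr k) = Q i (Sum.inl k) := by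
    intro k
    rw [Matrix.mul_apply, Fintype.sum_sum_type]
    simp [J, Matrix.one_apply]
  conv_lhs => rw [hω]
  rw [Matrix.mul_apply, Fintype.sum_sum_type, ← Finset.sum_add_distrib]
  refine Finset.sum_congr rfl (fun k _ => ?_)
  rw [hQJ1, hQJ2, Matrix.transpose_apply, Matrix.transpose_apply]
  ring

end Decomp

section Pencil

variable {F : Type*} [Field F] {ι : Type*} [Fintype ι] [DecidableEq ι]

theorem exists_pencil_field {g : ℕ} (hι : Fintype.card ι = 2 * g) {ω θ : Matrix ι ι F}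
    (hω : ∀ x, Matrix.toBilin' ω x x = 0) (hθ : ∀ x, Matrix.toBilin' θ x x = 0)
    (hdet : θ.det ≠ 0) (m : Fin (g + 1) → F) (hm : Function.Injective m) :
    ∃ i, (ω + m i • θ).det ≠ 0 := by
  by_contra hcon
  push Not at hcon
  have h1 : ∀ i, ∃ x : ι → F, x ≠ 0 ∧ (ω + m i • θ) *ᵥ x = 0 := fun i =>
    Matrix.exists_mulVec_eq_zero_iff.2 (hcon i)
  choose x hx0 hx using h1
  have hθu : IsUnit θ.det := IsUnit.mk0 _ hdet
  have hωx : ∀ i, ω *ᵥ x i = -(m i) • (θ *ᵥ x i) := by
    intro i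
    have := hx i
    rw [Matrix.add_mulVec, Matrix.smul_mulVec] at this
    rw [neg_smul]
    exact eq_neg_of_add_eq_zero_left this
  let T : Module.End F (ι → F) := Matrix.toLin' (θ⁻¹ * ω)
  have hT : ∀ i, T.HasEigenvector (-(m i)) (x i) := by
    intro i
    refine ⟨Module.End.mem_eigenspace_iff.2 ?_, hx0 i⟩
    simp only [T, Matrix.toLin'_apply]
    rw [← Matrix.mulVec_mulVec, hωx, Matrix.mulVec_smul, Matrix.mulVec_mulVec,
      Matrix.nonsing_inv_mul _ hθu, Matrix.one_mulVec]
  have hind : LinearIndependent F x :=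
    Module.End.eigenvectors_linearIndependent' T (fun i => -(m i))
      (fun i j hij => hm (neg_injective hij)) x hT
  have hB : ∀ i j, Matrix.toBilin' θ (x i) (x j) = 0 := by
    intro i j
    by_cases hij : i = j
    · rw [hij]; exact hθ _
    have h2 : Matrix.toBilin' ω (x i) (x j) = -(m j) * Matrix.toBilin' θ (x i) (x j) := by
      rw [Matrix.toBilin'_apply', Matrix.toBilin'_apply', hωx, dotProduct_smul, smul_eq_mul]
    have h3 : Matrix.toBilin' ω (x j) (x i) = -(m i) * Matrix.toBilin' θ (x j) (x i) := by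
      rw [Matrix.toBilin'_apply', Matrix.toBilin'_apply', hωx, dotProduct_smul, smul_eq_mul]
    rw [toBilin'_swap hω, toBilin'_swap hθ (x i) (x j), h2] at h3
    have h4 : (m i - m j) * Matrix.toBilin' θ (x i) (x j) = 0 := by linear_combination -h3
    exact (mul_eq_zero.1 h4).resolve_left (sub_ne_zero.2 (fun h => hij (hm h)))
  set W := Submodule.span F (Set.range x) with hW
  have hdim : Module.finrank F W = g + 1 := by
    rw [hW, finrank_span_eq_card hind, Fintype.card_fin]
  have hnd : (Matrix.toBilin' θ).Nondegenerate := (Matrix.nondegenerate_of_det_ne_zero hdet).toBilin'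
  have hle : W ≤ (Matrix.toBilin' θ).orthogonal W := by
    rw [hW, Submodule.span_le]
    rintro _ ⟨j, rfl⟩
    rw [SetLike.mem_coe, LinearMap.BilinForm.mem_orthogonal_iff]
    intro n hn
    change Matrix.toBilin' θ n (x j) = 0
    induction hn using Submodule.span_induction with
    | mem z hz => obtain ⟨i, rfl⟩ := hz; exact hB i j
    | zero => simp
    | add y z _ _ hy hz => rw [map_add, LinearMap.add_apply, hy, hz, add_zero]
    | smul c z _ hz => rw [map_smul, LinearMap.smul_apply, hz, smul_zero]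
  have h5 := Submodule.finrank_mono hle
  rw [LinearMap.BilinForm.finrank_orthogonal hnd, hdim, Module.finrank_fintype_fun_eq_card, hι] at h5
  omega

end Pencil

end Pool.Agent.Lib.MP_43d240_ag
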