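import Pool.Agent.Lib.MP_43d240_ag.Symplectic2

/-!
# The integral version of the linear algebra
-/

set_option autoImplicit false

namespace Pool.Agent.Lib.MP_43d240_ag

open Matrix

section ZModn

variable {n : ℕ}

/-- The residue fields of `ZMod n`. -/
abbrev PF (n : ℕ) : Type := {p : ℕ // p ∈ n.primeFactors}

instance (p : PF n) : Fact (p.1.Prime) := ⟨Nat.prime_of_mem_primeFactors p.2⟩

/-- Reduction. -/
noncomputable def redHom (p : PF n) : ZMod n →+* ZMod p.1 :=
  ZMod.castHom (Nat.dvd_of_mem_primeFactors p.2) (ZMod p.1)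

theorem redHom_intCast (p : PF n) (k : ℤ) : redHom p (k : ZMod n) = (k : ZMod p.1) :=
  map_intCast _ _

theorem redHom_natCast (p : PF n) (k : ℕ) : redHom p (k : ZMod n) = (k : ZMod p.1) :=
  map_natCast _ _

theorem isUnit_of_redHom (hn : n ≠ 0) (r : ZMod n) (h : ∀ p, redHom p r ≠ 0) : IsUnit r := by
  have : NeZero n := ⟨hn⟩
  rw [← ZMod.natCast_zmod_val r, ZMod.isUnit_iff_coprime]
  apply Nat.Coprime.symm
  rw [Nat.coprime_iff_gcd_eq_one]
  by_contra hne
  obtain ⟨p, hp, hpd⟩ := Nat.exists_prime_and_dvd hne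
  have h1 : p ∣ n := hpd.trans (Nat.gcd_dvd_left _ _)
  have h2 : p ∣ r.val := hpd.trans (Nat.gcd_dvd_right _ _)
  have h3 := h ⟨p, Nat.mem_primeFactors.2 ⟨hp, h1, hn⟩⟩
  apply h3
  rw [← ZMod.natCast_zmod_val r, redHom_natCast]
  exact (ZMod.natCast_eq_zero_iff _ _).2 h2

theorem exists_redHom_eq (hn : n ≠ 0) (x : ∀ p : PF n, ZMod p.1) :
    ∃ r : ZMod n, ∀ p, redHom p r = x p := by
  obtain ⟨k, hk⟩ := Nat.chineseRemainderOfFinset (fun p : PF n => (x p).val)
    (fun p : PF n => p.1) Finset.univ (fun p _ => (Nat.prime_of_mem_primeFactors p.2).ne_zero)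
    (fun p _ q _ hpq => (Nat.coprime_primes (Nat.prime_of_mem_primeFactors p.2)
      (Nat.prime_of_mem_primeFactors q.2)).2 (fun h => hpq (Subtype.ext h)))
  refine ⟨(k : ZMod n), fun p => ?_⟩
  rw [redHom_natCast, ← ZMod.natCast_zmod_val (x p)]
  exact (ZMod.natCast_eq_natCast_iff _ _ _).2 (hk p (Finset.mem_univ p))

end ZModn

section Main

variable {n g : ℕ} {ι : Type*} [Fintype ι] [DecidableEq ι]

theorem toBilin'_sub_transpose {R : Type*} [CommRing R] (a : Matrix ι ι R) (x : ι → R) :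
    Matrix.toBilin' (a - aᵀ) x x = 0 := by
  rw [Matrix.toBilin'_apply]
  simp only [Matrix.sub_apply, Matrix.transpose_apply, mul_sub, sub_mul, Finset.sum_sub_distrib]
  rw [sub_eq_zero]
  rw [Finset.sum_comm]
  refine Finset.sum_congr rfl (fun i _ => Finset.sum_congr rfl (fun j _ => by ring))

theorem exists_int_data (hn : n ≠ 0) (hι : Fintype.card ι = 2 * g)
    (hp : ∀ p : ℕ, p.Prime → p ∣ n → g < p) (a t : Matrix ι ι ℤ)
    (hdet : IsCoprime (t - tᵀ).det (n : ℤ)) :
    ∃ (m : ℤ) (Q Q' : ι → Fin g → ℤ) (P P' : Fin g → ι → ℤ),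
      (∀ i j, ((∑ k, (Q i k * P k j + Q' i k * P' k j) : ℤ) : ZMod n) = if i = j then 1 else 0) ∧
      (∀ i j, (((a i j + m * t i j) - (a j i + m * t j i) : ℤ) : ZMod n) =
        ((∑ k, (Q i k * Q' j k - Q' i k * Q j k) : ℤ) : ZMod n)) := by
  have : NeZero n := ⟨hn⟩
  let R := ZMod n
  let A : Matrix ι ι R := a.map (Int.castRingHom R)
  let T : Matrix ι ι R := t.map (Int.castRingHom R)
  have hTdet : IsUnit (T - Tᵀ).det := by
    have h1 : (T - Tᵀ) = (t - tᵀ).map (Int.castRingHom R) := by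
      ext i j; simp [T]
    rw [h1]
    have h2 := RingHom.map_det (Int.castRingHom R) (t - tᵀ)
    rw [RingHom.mapMatrix_apply] at h2
    rw [← h2]
    obtain ⟨u, v, huv⟩ := hdet
    have h3 := congrArg (Int.castRingHom R) huv
    simp only [map_add, map_mul, map_one] at h3
    have h4 : (Int.castRingHom R) (n : ℤ) = 0 := by simp [R]
    rw [h4, mul_zero, add_zero] at h3
    exact IsUnit.of_mul_eq_one_right _ h3
  -- the parameter
  have hm : ∀ p : PF n, ∃ mp : ZMod p.1,
      (((A - Aᵀ).map (redHom p)) + mp • ((T - Tᵀ).map (redHom p))).det ≠ 0 := by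
    intro p
    have hdp : ((T - Tᵀ).map (redHom p)).det ≠ 0 := by
      have h1 := (hTdet.map (redHom p)).ne_zero
      rwa [RingHom.map_det, RingHom.mapMatrix_apply] at h1
    have halt : ∀ B : Matrix ι ι R, ∀ x, Matrix.toBilin' ((B - Bᵀ).map (redHom p)) x x = 0 := by
      intro B x
      have h1 : (B - Bᵀ).map (redHom p) = B.map (redHom p) - (B.map (redHom p))ᵀ := by
        ext i j; simp
      rw [h1]
      exact toBilin'_sub_transpose _ x
    have hgp : g < p.1 := hp p.1 (Nat.prime_of_mem_primeFactors p.2)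
      (Nat.dvd_of_mem_primeFactors p.2)
    obtain ⟨i, hi⟩ := exists_pencil_field hι (halt A) (halt T) hdp
      (fun i : Fin (g + 1) => ((i : ℕ) : ZMod p.1)) (by
        intro i j hij
        have h2 := (ZMod.natCast_eq_natCast_iff' _ _ _).1 hij
        rw [Nat.mod_eq_of_lt (by omega), Nat.mod_eq_of_lt (by omega)] at h2
        exact Fin.ext h2)
    exact ⟨_, hi⟩
  choose mp hmp using hm
  obtain ⟨m, hm⟩ := exists_redHom_eq hn mp
  let ω : Matrix ι ι R := (A + m • T) - (A + m • T)ᵀ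
  have hω : ω = (A - Aᵀ) + m • (T - Tᵀ) := by
    ext i j
    simp [ω]
    ring
  have hωdet : IsUnit ω.det := by
    apply isUnit_of_redHom hn
    intro p
    rw [RingHom.map_det, RingHom.mapMatrix_apply, hω]
    have h1 : ((A - Aᵀ) + m • (T - Tᵀ)).map (redHom p) =
        ((A - Aᵀ).map (redHom p)) + mp p • ((T - Tᵀ).map (redHom p)) := by
      ext i j
      simp [← hm p]
    rw [h1]
    exact hmp p
  obtain ⟨e, e', hsp⟩ := exists_isSp (fun p : PF n => redHom p) (isUnit_of_redHom hn)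
    (exists_redHom_eq hn) (ω := ω) (toBilin'_sub_transpose _) hωdet g hι.ge
  obtain ⟨Q, P, hQP, hdec⟩ := exists_decomp (ω := ω) (toBilin'_sub_transpose _) hι hsp
  refine ⟨(m.cast : ℤ), fun i k => ((Q i (Sum.inl k)).cast : ℤ),
    fun i k => ((Q i (Sum.inr k)).cast : ℤ), fun k i => ((P (Sum.inl k) i).cast : ℤ),
    fun k i => ((P (Sum.inr k) i).cast : ℤ), ?_, ?_⟩
  · intro i j
    have h1 := congrFun (congrFun hQP i) j
    rw [Matrix.mul_apply, Fintype.sum_sum_type, ← Finset.sum_add_distrib, Matrix.one_apply] at h1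
    rw [← h1]
    push_cast
    simp
  · intro i j
    have h1 := hdec i j
    have h2 : ω i j = ((a i j : R) + m * (t i j : R)) - ((a j i : R) + m * (t j i : R)) := by
      simp [ω, A, T]
    rw [h2] at h1
    push_cast
    simpa using h1

end Main

end Pool.Agent.Lib.MP_43d240_ag
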