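import Pool.Agent.Lib.MP_43d240_ag.TsenBase

/-!
# Tsen–Lang property for systems of forms
-/

set_option autoImplicit false

universe u v w x

namespace Pool.Agent.Lib.MP_43d240_ag

open MvPolynomial

/-- Every system of forms of degree `d` (given as the diagonal of a multilinear map `V ^ d → W`)
in more than `q * dim W` variables has a nonzero common zero. -/
def TL (q d : ℕ) (F : Type u) [Field F] : Prop :=
  ∀ (V W : Type u) [AddCommGroup V] [Module F V] [AddCommGroup W] [Module F W]
    [FiniteDimensional F V] [FiniteDimensional F W]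
    (M : MultilinearMap F (fun _ : Fin d => V) W),
    q * Module.finrank F W < Module.finrank F V → ∃ v : V, v ≠ 0 ∧ M (fun _ => v) = 0

theorem TL.mono {q q' d : ℕ} {F : Type u} [Field F] (h : TL q d F) (hq : q ≤ q') : TL q' d F := by
  intro V W _ _ _ _ _ _ M hM
  exact h V W M (lt_of_le_of_lt (Nat.mul_le_mul_right _ hq) hM)

theorem TL.of_isAlgClosed (k : Type u) [Field k] [IsAlgClosed k] {d : ℕ} (hd : d ≠ 0) :
    TL 1 d k := by
  intro V W _ _ _ _ _ _ M hM
  rw [one_mul] at hM
  let bV := Module.finBasis k V
  let bW := Module.finBasis k W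
  set N := Module.finrank k V
  set m := Module.finrank k W
  let f : Fin m → MvPolynomial (Fin N) k := fun j =>
    ∑ I : Fin d → Fin N, C (bW.repr (M (fun t => bV (I t))) j) * ∏ t, X (I t)
  have hf : ∀ (x : Fin N → k) (j : Fin m),
      aeval x (f j) = bW.repr (M (fun _ => ∑ i, x i • bV i)) j := by
    intro x j
    rw [MultilinearMap.map_sum, map_sum, map_sum, Finsupp.finsetSum_apply]
    refine Finset.sum_congr rfl (fun I _ => ?_)
    rw [MultilinearMap.map_smul_univ, map_smul, Finsupp.smul_apply, smul_eq_mul, map_mul,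
      map_prod, mul_comm]
    simp
  obtain ⟨x, hx, hx0⟩ := exists_common_zero hM f (fun j => by
    rw [hf]
    have : (fun _ : Fin d => ∑ i, (0 : Fin N → k) i • bV i) = 0 := by
      funext t
      simp
    rw [this]
    have : M 0 = 0 := M.map_coord_zero (⟨0, Nat.pos_of_ne_zero hd⟩ : Fin d) rfl
    rw [this]
    simp)
  refine ⟨∑ i, x i • bV i, ?_, ?_⟩
  · intro h
    apply hx
    have := Fintype.linearIndependent_iff.1 bV.linearIndependent x h
    funext i
    exact this i
  · apply bW.repr.injective
    ext j
    rw [← hf, hx0 j]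
    simp

end Pool.Agent.Lib.MP_43d240_ag
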