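import Pool.Agent.Lib.MP_43d240_ag.TameTsen

/-!
# The core decomposition, with an arbitrary subgroup `S`
-/

set_option autoImplicit false

open scoped TensorProduct

universe u v w x

namespace Pool.Agent.Lib.MP_43d240_ag

section Core

variable {k K : Type u} [Field k] [IsAlgClosed k] [Field K] [Algebra k K]

theorem core_decomposition {n : ℕ} (hn : n ≠ 0) {ζ : k}
    (hζK : IsPrimitiveRoot (algebraMap k K ζ) n) (M : IntermediateField k K) {s : ℕ}
    (g : Fin s → ℕ) (hg : ∀ j, ∀ p : ℕ, p.Prime → p ∣ n → g j < p)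
    (f : ∀ j, Fin (2 * g j) → Kˣ) (S : AddSubgroup (Additive (BrM K)ˣ))
    (hf : ∀ j, ∃ t : Matrix (Fin (2 * g j)) (Fin (2 * g j)) ℤ,
      IsCoprime (t - t.transpose).det (n : ℤ) ∧
      ∑ a, ∑ b, t a b • betaA hζK hn (Additive.ofMul (f j a)) (Additive.ofMul (f j b)) ∈ S)
    {α : BrM K}
    (hα : α ∈ Submonoid.closure
      ({c | ∃ u ∈ slots M f, ∃ v ∈ slots M f,
        c = cls K (Symb n (algebraMap k K ζ) (u : K) (v : K))} ∪
        {c | ∃ x ∈ S, c = ((x.toMul : (BrM K)ˣ) : BrM K)})) :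
    ∃ l : List (Kˣ × Kˣ), l.length = ∑ j, g j ∧
      ∃ α' ∈ AP (betaA hζK hn) S (fieldUnits M).toAddSubgroup,
      α = (l.map fun p => cls K (Symb n (algebraMap k K ζ) (p.1 : K) (p.2 : K))).prod *
        ((α'.toMul : (BrM K)ˣ) : BrM K) := by
  obtain ⟨w, hw, hmem⟩ : ∃ w : (BrM K)ˣ, (w : BrM K) = α ∧
      Additive.ofMul w ∈ AP (betaA hζK hn) S ((fieldUnits M).toAddSubgroup ⊔
        AddSubgroup.closure (⋃ j, Set.range (fun i => Additive.ofMul (f j i)))) := by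
    induction hα using Submonoid.closure_induction with
    | mem c hc =>
      rcases hc with ⟨u, hu, v, hv, rfl⟩ | ⟨x, hx, rfl⟩
      · refine ⟨beta hζK hn u v, rfl, ?_⟩
        exact apply_mem_AP (β := betaA hζK hn) S (u := Additive.ofMul u)
          (v := Additive.ofMul v) (slots_le M f hu) (slots_le M f hv)
      · exact ⟨x.toMul, rfl, le_AP _ _ hx⟩
    | one => exact ⟨1, rfl, by rw [ofMul_one]; exact AddSubgroup.zero_mem _⟩
    | mul x y _ _ hx hy =>
      obtain ⟨w, rfl, hw⟩ := hx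
      obtain ⟨w', rfl, hw'⟩ := hy
      exact ⟨w * w', rfl, by rw [ofMul_mul]; exact AddSubgroup.add_mem _ hw hw'⟩
  choose t hdet hrel using hf
  obtain ⟨l, hl, α', hα', hsum⟩ := blocks_step hn (betaA_skew hζK hn) (betaA_nsmul hζK hn)
    g (fun j i => Additive.ofMul (f j i)) (fun j i => by
      rw [betaA_apply]
      simp only [toMul_ofMul]
      rw [beta_self_eq_one hζK hn, ofMul_one]
      exact AddSubgroup.zero_mem _) t hrel hdet hg hmem
  refine ⟨l.map (fun p => (p.1.toMul, p.2.toMul)), by rw [List.length_map, hl], α', hα', ?_⟩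
  have h1 : w = (l.map (fun p => betaA hζK hn p.1 p.2)).sum.toMul * α'.toMul := by
    have h2 := congrArg Additive.toMul hsum
    rw [toMul_add] at h2
    exact h2
  rw [← hw, h1, Units.val_mul, sum_betaA_eq]

theorem sum_mem_bot_of_prod_eq_one {n : ℕ} (hn : n ≠ 0) {ζ : K} (hζ : IsPrimitiveRoot ζ n)
    {N : ℕ} (f : Fin N → Kˣ) (t : Matrix (Fin N) (Fin N) ℤ)
    (h : ∏ a, ∏ b, cls K (Symb n ζ ((f a ^ t a b : Kˣ) : K) (f b : K)) = 1) :
    ∑ a, ∑ b, t a b • betaA hζ hn (Additive.ofMul (f a)) (Additive.ofMul (f b)) = 0 := by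
  rw [prod_cls_zpow_eq hζ hn] at h
  have h1 : (∑ a, ∑ b, t a b • betaA hζ hn (Additive.ofMul (f a))
      (Additive.ofMul (f b))).toMul = 1 := Units.ext h
  rw [← toMul_zero] at h1
  exact Additive.toMul.injective h1

theorem curve_decomposition {n : ℕ} (hn : n ≠ 0) {ζ : k} (hζ : IsPrimitiveRoot ζ n)
    (M : IntermediateField k K) (hM : Algebra.trdeg k M ≤ 1) {s : ℕ}
    (g : Fin s → ℕ) (hg : ∀ j, ∀ p : ℕ, p.Prime → p ∣ n → g j < p)
    (f : ∀ j, Fin (2 * g j) → Kˣ)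
    (hf : ∀ j, (∃ L : IntermediateField k K, Algebra.trdeg k L ≤ 1 ∧ ∀ a, (f j a : K) ∈ L) ∨
      (∃ t : Matrix (Fin (2 * g j)) (Fin (2 * g j)) ℤ, IsCoprime (t - t.transpose).det (n : ℤ) ∧
        ∏ a, ∏ b, cls K (Symb n (algebraMap k K ζ) ((f j a ^ t a b : Kˣ) : K) (f j b : K)) = 1))
    {α : BrM K}
    (hα : α ∈ Submonoid.closure {c | ∃ u ∈ slots M f, ∃ v ∈ slots M f,
        c = cls K (Symb n (algebraMap k K ζ) (u : K) (v : K))}) :
    ∃ l : List (Kˣ × Kˣ), l.length = ∑ j, g j ∧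
      α = (l.map fun p => cls K (Symb n (algebraMap k K ζ) (p.1 : K) (p.2 : K))).prod := by
  have hζK : IsPrimitiveRoot (algebraMap k K ζ) n :=
    hζ.map_of_injective (algebraMap k K).injective
  have hf' : ∀ j, ∃ t : Matrix (Fin (2 * g j)) (Fin (2 * g j)) ℤ,
      IsCoprime (t - t.transpose).det (n : ℤ) ∧
      ∑ a, ∑ b, t a b • betaA hζK hn (Additive.ofMul (f j a)) (Additive.ofMul (f j b)) ∈
        (⊥ : AddSubgroup (Additive (BrM K)ˣ)) := by
    intro j
    rcases hf j with ⟨L, hL, hfL⟩ | ⟨t, ht, hrel⟩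
    · refine ⟨Jplus (g j), ?_, ?_⟩
      · obtain ⟨v, hv⟩ := (isUnit_det_Jplus (g j)).exists_left_inv
        exact ⟨v, 0, by rw [hv, zero_mul, add_zero]⟩
      · rw [AddSubgroup.mem_bot]
        exact sum_mem_bot_of_prod_eq_one hn hζK (f j) _
          (prod_cls_eq_one_of_trdeg hn hζ L hL (f j) hfL _)
    · exact ⟨t, ht, by
        rw [AddSubgroup.mem_bot]
        exact sum_mem_bot_of_prod_eq_one hn hζK (f j) _ hrel⟩
  obtain ⟨l, hl, α', hα', h⟩ := core_decomposition hn hζK M g hg f ⊥ hf'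
    (Submonoid.closure_mono Set.subset_union_left hα)
  have h3 : AP (betaA hζK hn) ⊥ (fieldUnits M).toAddSubgroup ≤ ⊥ :=
    AP_le le_rfl (fun u hu v hv => by
      rw [AddSubgroup.mem_bot, betaA_apply, beta_eq_one_of_trdeg hζ hn hζK M hM hu hv, ofMul_one])
  have h4 : α' = 0 := AddSubgroup.mem_bot.1 (h3 hα')
  refine ⟨l, hl, ?_⟩
  rw [h, h4]
  simp

theorem index_dvd_of_prod {n : ℕ} (hn : n ≠ 0) {ζ : K} (hζ : IsPrimitiveRoot ζ n)
    (l : List (Kˣ × Kˣ)) (D : Type u) [DivisionRing D] [Algebra K D] [FiniteDimensional K D]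
    (h : cls K D = (l.map fun p => cls K (Symb n ζ (p.1 : K) (p.2 : K))).prod) :
    Nat.sqrt (Module.finrank K D) ∣ n ^ l.length := by
  have h1 : BE K D (SymbTensor n ζ l).carrier := by
    rw [← cls_eq_iff, h, cls_symbTensor hζ hn]
    rw [← Units.coeHom_apply, map_list_prod, List.map_map]
    rfl
  exact index_dvd_of_BE_symbTensor hζ hn h1

end Core

end Pool.Agent.Lib.MP_43d240_ag
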