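import Pool.Agent.Lib.MP_43d240_ag.BaseChange

/-!
# Algebras whose class is invertible are simple, and have square dimension
-/

set_option autoImplicit false

open scoped TensorProduct

universe u v w x

namespace Pool.Agent.Lib.MP_43d240_ag

section Simple

variable {F : Type u} [Field F]

theorem subsingleton_tensor_left {A B : Type u} [Ring A] [Algebra F A] [Ring B] [Algebra F B]
    [Subsingleton A] : Subsingleton (A ⊗[F] B) := by
  refine ⟨fun x y => ?_⟩
  have h1 : (1 : A ⊗[F] B) = 0 := by
    rw [Algebra.TensorProduct.one_def, Subsingleton.elim (1 : A) 0, TensorProduct.zero_tmul]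
  rw [← one_mul x, ← one_mul y, h1, zero_mul, zero_mul]

theorem subsingleton_tensor_right {A B : Type u} [Ring A] [Algebra F A] [Ring B] [Algebra F B]
    [Subsingleton B] : Subsingleton (A ⊗[F] B) := by
  refine ⟨fun x y => ?_⟩
  have h1 : (1 : A ⊗[F] B) = 0 := by
    rw [Algebra.TensorProduct.one_def, Subsingleton.elim (1 : B) 0, TensorProduct.tmul_zero]
  rw [← one_mul x, ← one_mul y, h1, zero_mul, zero_mul]

theorem nontrivial_of_BE {A B : Type u} [Ring A] [Algebra F A] [Ring B] [Algebra F B]
    (h : BE F (A ⊗[F] B) F) : Nontrivial A ∧ Nontrivial B := by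
  obtain ⟨r, s, hr, hs, ⟨e⟩⟩ := h
  have : NeZero r := ⟨hr⟩
  have : NeZero s := ⟨hs⟩
  have hnt : Nontrivial (Matrix (Fin s) (Fin s) F) := inferInstance
  have hntT : Nontrivial (A ⊗[F] B) := by
    by_contra hcon
    have hsub : Subsingleton (A ⊗[F] B) := not_nontrivial_iff_subsingleton.1 hcon
    have h1 : Subsingleton (Matrix (Fin r) (Fin r) (A ⊗[F] B)) := inferInstance
    have h2 := e.symm.injective.subsingleton
    exact not_subsingleton (Matrix (Fin s) (Fin s) F) h2
  constructor
  · by_contra hcon
    have hsub : Subsingleton A := not_nontrivial_iff_subsingleton.1 hcon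
    exact not_subsingleton _ (subsingleton_tensor_left (F := F) (A := A) (B := B))
  · by_contra hcon
    have hsub : Subsingleton B := not_nontrivial_iff_subsingleton.1 hcon
    exact not_subsingleton _ (subsingleton_tensor_right (F := F) (A := A) (B := B))

theorem isSimpleRing_of_BE {A B : Type u} [Ring A] [Algebra F A] [Ring B] [Algebra F B]
    (h : BE F (A ⊗[F] B) F) : IsSimpleRing A := by
  obtain ⟨hntA, hntB⟩ := nontrivial_of_BE h
  obtain ⟨r, s, hr, hs, ⟨e⟩⟩ := h
  have : NeZero r := ⟨hr⟩
  have : NeZero s := ⟨hs⟩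
  have hsimp : IsSimpleRing (Matrix (Fin s) (Fin s) F) := inferInstance
  have hsimp' : IsSimpleRing (Matrix (Fin r) (Fin r) (A ⊗[F] B)) :=
    IsSimpleRing.of_ringEquiv e.symm.toRingEquiv hsimp
  refine IsSimpleRing.of_eq_bot_or_eq_top (fun I => ?_)
  by_cases hI : I = ⊤
  · exact Or.inr hI
  left
  let Q := I.ringCon.Quotient
  let q : A →ₐ[F] Q := I.ringCon.mkₐ (α := F)
  have hq0 : ∀ x ∈ I, q x = 0 := by
    intro x hx
    exact (RingCon.eq I.ringCon).2 ((TwoSidedIdeal.mem_iff I x).1 hx)
  have hntQ : Nontrivial Q := by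
    refine ⟨⟨q 1, 0, fun h => hI ?_⟩⟩
    have h2 : (1 : A) ∈ I := (TwoSidedIdeal.mem_iff I 1).2 ((RingCon.eq I.ringCon).1 h)
    exact I.one_mem_iff.1 h2
  let T : A ⊗[F] B →ₐ[F] Q ⊗[F] B := Algebra.TensorProduct.map q (AlgHom.id F B)
  have hntQB : Nontrivial (Q ⊗[F] B) := inferInstance
  have hinj : Function.Injective (T.mapMatrix (m := Fin r)) :=
    RingHom.injective (T.mapMatrix (m := Fin r)).toRingHom
  refine le_antisymm (fun x hx => ?_) bot_le
  rw [TwoSidedIdeal.mem_bot]
  have h3 : T.mapMatrix (m := Fin r) (Matrix.single 0 0 (x ⊗ₜ[F] (1 : B))) = 0 := by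
    have h0 : T (x ⊗ₜ[F] (1 : B)) = 0 := by
      simp only [T, Algebra.TensorProduct.map_tmul]
      rw [hq0 x hx, TensorProduct.zero_tmul]
    ext i j
    rw [AlgHom.mapMatrix_apply, Matrix.map_apply, Matrix.single_apply, Matrix.zero_apply]
    split_ifs
    · exact h0
    · exact map_zero T
  have h4 := hinj (h3.trans (map_zero _).symm)
  have h5 : x ⊗ₜ[F] (1 : B) = 0 := by
    have := congrFun (congrFun h4 0) 0
    simpa using this
  have h6 : Function.Injective (Algebra.TensorProduct.includeLeft : A →ₐ[F] A ⊗[F] B) :=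
    Algebra.TensorProduct.includeLeft_injective (algebraMap F B).injective
  exact h6 (by simpa using h5)

theorem isSimpleRing_of_isUnit {A : Type u} [Ring A] [Algebra F A] (h : IsUnit (cls F A)) :
    IsSimpleRing A := by
  obtain ⟨b, hb⟩ := h.exists_right_inv
  induction b using Quotient.inductionOn with
  | h B =>
    have h1 : cls F (A ⊗[F] B.carrier) = cls F F := hb
    exact isSimpleRing_of_BE ((cls_eq_iff F _ _).1 h1)

theorem exists_sq_of_isUnit {A : Type u} [Ring A] [Algebra F A] [FiniteDimensional F A]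
    (h : IsUnit (cls F A)) : ∃ N : ℕ, Module.finrank F A = N * N := by
  have h1 := isSimpleRing_of_isUnit (F := AlgebraicClosure F) (A := AlgebraicClosure F ⊗[F] A)
    (by rw [← bc_cls]; exact h.map (bc F (AlgebraicClosure F)))
  obtain ⟨N, _, ⟨e⟩⟩ := IsSimpleRing.exists_algEquiv_matrix_of_isAlgClosed
    (AlgebraicClosure F) (AlgebraicClosure F ⊗[F] A)
  refine ⟨N, ?_⟩
  have h2 := e.toLinearEquiv.finrank_eq
  rw [Module.finrank_baseChange, Module.finrank_matrix] at h2
  simpa using h2

theorem finiteDimensional_of_BE {A B : Type u} [Ring A] [Algebra F A] [Ring B] [Algebra F B]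
    (h : BE F (A ⊗[F] B) F) : FiniteDimensional F A := by
  obtain ⟨hntA, hntB⟩ := nontrivial_of_BE h
  obtain ⟨r, s, hr, hs, ⟨e⟩⟩ := h
  have : NeZero r := ⟨hr⟩
  have h1 : FiniteDimensional F (Matrix (Fin r) (Fin r) (A ⊗[F] B)) :=
    Module.Finite.equiv e.symm.toLinearEquiv
  have h2 : FiniteDimensional F (A ⊗[F] B) :=
    Module.Finite.of_injective (Matrix.singleLinearMap F (0 : Fin r) (0 : Fin r)
      (α := A ⊗[F] B)) (fun x y hxy => by
        have := congrFun (congrFun hxy 0) 0
        simpa using this)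
  exact Module.Finite.of_injective (Algebra.TensorProduct.includeLeft :
    A →ₐ[F] A ⊗[F] B).toLinearMap
    (Algebra.TensorProduct.includeLeft_injective (S := F) (algebraMap F B).injective)

/-- An invertible class is represented by a division algebra of finite dimension. -/
theorem exists_division_of_isUnit {c : BrM F} (h : IsUnit c) :
    ∃ (D : Type u) (_ : DivisionRing D) (_ : Algebra F D) (_ : FiniteDimensional F D),
      cls F D = c := by
  induction c using Quotient.inductionOn with
  | h A =>
    have hsimp : IsSimpleRing A.carrier := isSimpleRing_of_isUnit h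
    obtain ⟨b, hb⟩ := h.exists_right_inv
    induction b using Quotient.inductionOn with
    | h B =>
      have h1 : cls F (A.carrier ⊗[F] B.carrier) = cls F F := hb
      have hfin : FiniteDimensional F A.carrier :=
        finiteDimensional_of_BE ((cls_eq_iff F _ _).1 h1)
      have hart : IsArtinianRing A.carrier := IsArtinianRing.of_finite F A.carrier
      obtain ⟨n, hn, D, hD, hDa, hDf, ⟨e⟩⟩ :=
        IsSimpleRing.exists_algEquiv_matrix_divisionRing_finite F A.carrier
      refine ⟨D, hD, hDa, hDf, ?_⟩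
      change cls F D = cls F A.carrier
      rw [cls_congr F e, cls_eq_iff]
      exact BE.matrix.symm

end Simple

end Pool.Agent.Lib.MP_43d240_ag
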