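import Pool.Agent.Lib.MP_43d240_ag.Blocks
import Pool.Agent.Lib.MP_43d240_ag.UnitClass

/-!
# The general tame reduction
-/

set_option autoImplicit false

open scoped TensorProduct

universe u v w x

namespace Pool.Agent.Lib.MP_43d240_ag

section Defs

variable {k K : Type u} [Field k] [Field K] [Algebra k K]

/-- The subgroup of `Kˣ` generated by the elements of the families `f j` and by the nonzero
elements of the subfield `M`. -/
def slots (M : IntermediateField k K) {s : ℕ} {g : Fin s → ℕ} (f : ∀ j, Fin (2 * g j) → Kˣ) :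
    Subgroup Kˣ :=
  Subgroup.closure ((⋃ j, Set.range (f j)) ∪ {u | (u : K) ∈ M})

end Defs

section Transfer

variable {K : Type u} [Field K] {n : ℕ} {ζ : K}

theorem sum_betaA_eq (hζ : IsPrimitiveRoot ζ n) (hn : n ≠ 0)
    (l : List (Additive Kˣ × Additive Kˣ)) :
    (((l.map (fun p => betaA hζ hn p.1 p.2)).sum.toMul : (BrM K)ˣ) : BrM K) =
      ((l.map (fun p => (p.1.toMul, p.2.toMul))).map
        (fun p : Kˣ × Kˣ => cls K (Symb n ζ (p.1 : K) (p.2 : K)))).prod := by
  induction l with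
  | nil => simp
  | cons p l ih =>
    rw [List.map_cons, List.sum_cons, toMul_add, Units.val_mul, ih, List.map_cons, List.map_cons,
      List.prod_cons]
    rfl

theorem cls_zpow_left (hζ : IsPrimitiveRoot ζ n) (hn : n ≠ 0) (a b : Kˣ) (m : ℤ) :
    cls K (Symb n ζ ((a ^ m : Kˣ) : K) (b : K)) = ((beta hζ hn a b ^ m : (BrM K)ˣ) : BrM K) := by
  rw [← beta_val hζ hn, map_zpow]
  rfl

theorem prod_cls_zpow_eq (hζ : IsPrimitiveRoot ζ n) (hn : n ≠ 0) {N : ℕ} (f : Fin N → Kˣ)
    (t : Matrix (Fin N) (Fin N) ℤ) :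
    ∏ a, ∏ b, cls K (Symb n ζ ((f a ^ t a b : Kˣ) : K) (f b : K)) =
      (((∑ a, ∑ b, t a b • betaA hζ hn (Additive.ofMul (f a)) (Additive.ofMul (f b))).toMul :
        (BrM K)ˣ) : BrM K) := by
  rw [toMul_sum, Units.coe_prod]
  refine Finset.prod_congr rfl (fun a _ => ?_)
  rw [toMul_sum, Units.coe_prod]
  refine Finset.prod_congr rfl (fun b _ => ?_)
  rw [cls_zpow_left hζ hn]
  rfl

end Transfer

section General

variable {k K : Type u} [Field k] [IsAlgClosed k] [Field K] [Algebra k K]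

/-- The image in the class group of `K` of the `n`-torsion classes of `M`. -/
noncomputable def SM (M : IntermediateField k K) (n : ℕ) : AddSubgroup (Additive (BrM K)ˣ) where
  carrier := {x | ∃ ε : (BrM M)ˣ, ε ^ n = 1 ∧ x = Additive.ofMul (Units.map (bc M K) ε)}
  add_mem' := by
    rintro _ _ ⟨a, ha, rfl⟩ ⟨b, hb, rfl⟩
    exact ⟨a * b, by rw [mul_pow, ha, hb, one_mul], by rw [map_mul, ofMul_mul]⟩
  zero_mem' := ⟨1, one_pow n, by simp⟩
  neg_mem' := by
    rintro _ ⟨a, ha, rfl⟩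
    exact ⟨a⁻¹, by rw [inv_pow, ha, inv_one], by rw [map_inv, ofMul_inv]⟩

theorem mem_SM_of_pow {M : IntermediateField k K} {n : ℕ} (hn : n ≠ 0) {x : (BrM K)ˣ}
    {ε : BrM M} (hε : ε ^ n = 1) (hx : (x : BrM K) = bc M K ε) :
    Additive.ofMul x ∈ SM M n := by
  have hu : IsUnit ε := IsUnit.of_pow_eq_one hε hn
  obtain ⟨w, rfl⟩ := hu
  refine ⟨w, Units.ext (by simpa using hε), ?_⟩
  congr 1
  exact Units.ext hx

theorem AP_SM_le {n : ℕ} (hn : n ≠ 0) {ζ : k} (hζ : IsPrimitiveRoot ζ n)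
    (hζK : IsPrimitiveRoot (algebraMap k K ζ) n) (M : IntermediateField k K) :
    AP (betaA hζK hn) (SM M n) (fieldUnits M).toAddSubgroup ≤ SM M n := by
  refine AP_le le_rfl (fun u hu v hv => ?_)
  have hζM : IsPrimitiveRoot (algebraMap k M ζ) n :=
    hζ.map_of_injective (algebraMap k M).injective
  have hu' : (u.toMul : K) ∈ M := hu
  have hv' : (v.toMul : K) ∈ M := hv
  have hu0 : (⟨(u.toMul : K), hu'⟩ : M) ≠ 0 := fun h => u.toMul.ne_zero (congrArg Subtype.val h)
  have hv0 : (⟨(v.toMul : K), hv'⟩ : M) ≠ 0 := fun h => v.toMul.ne_zero (congrArg Subtype.val h)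
  let u₀ : Mˣ := Units.mk0 _ hu0
  let v₀ : Mˣ := Units.mk0 _ hv0
  refine ⟨beta hζM hn u₀ v₀, ?_, ?_⟩
  · rw [← map_pow, beta_pow_right]
  · rw [betaA_apply]
    congr 1
    apply Units.ext
    rw [beta_val, Units.coe_map, beta_val]
    exact (bc_symb M K hζM hn hu0 hv0).symm

/-- The relation condition on a block. -/
def BlockRel (M : IntermediateField k K) (n : ℕ) (ζ : k) {g : ℕ} (f : Fin (2 * g) → Kˣ) : Prop :=
  ∃ t : Matrix (Fin (2 * g)) (Fin (2 * g)) ℤ, IsCoprime (t - t.transpose).det (n : ℤ) ∧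
    ∃ ε : BrM M, ε ^ n = 1 ∧
      ∏ a, ∏ b, cls K (Symb n (algebraMap k K ζ) ((f a ^ t a b : Kˣ) : K) (f b : K)) = bc M K ε

omit [IsAlgClosed k] in
theorem slots_le (M : IntermediateField k K) {s : ℕ} {g : Fin s → ℕ}
    (f : ∀ j, Fin (2 * g j) → Kˣ) {u : Kˣ} (hu : u ∈ slots M f) :
    Additive.ofMul u ∈ (fieldUnits M).toAddSubgroup ⊔
      AddSubgroup.closure (⋃ j, Set.range (fun i => Additive.ofMul (f j i))) := by
  unfold slots at hu
  induction hu using Subgroup.closure_induction with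
  | mem u hu =>
    rcases hu with hu | hu
    · obtain ⟨j, i, rfl⟩ := Set.mem_iUnion.1 hu
      exact (le_sup_right : _ ≤ (fieldUnits M).toAddSubgroup ⊔
        AddSubgroup.closure (⋃ j, Set.range (fun i => Additive.ofMul (f j i))))
        (AddSubgroup.subset_closure (Set.mem_iUnion.2 ⟨j, i, rfl⟩))
    · exact (le_sup_left : _ ≤ (fieldUnits M).toAddSubgroup ⊔
        AddSubgroup.closure (⋃ j, Set.range (fun i => Additive.ofMul (f j i)))) hu
  | one => rw [ofMul_one]; exact AddSubgroup.zero_mem _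
  | mul x y _ _ hx hy => rw [ofMul_mul]; exact AddSubgroup.add_mem _ hx hy
  | inv x _ hx => rw [ofMul_inv]; exact AddSubgroup.neg_mem _ hx

theorem general_decomposition {n : ℕ} (hn : n ≠ 0) {ζ : k} (hζ : IsPrimitiveRoot ζ n)
    (M : IntermediateField k K) {s : ℕ} (g : Fin s → ℕ)
    (hg : ∀ j, ∀ p : ℕ, p.Prime → p ∣ n → g j < p) (f : ∀ j, Fin (2 * g j) → Kˣ)
    (hf : ∀ j, BlockRel M n ζ (f j)) {α : BrM K}
    (hα : α ∈ Submonoid.closure
      ({c | ∃ u v : Kˣ, u ∈ slots M f ∧ v ∈ slots M f ∧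
        c = cls K (Symb n (algebraMap k K ζ) (u : K) (v : K))} ∪
        {c | ∃ ε : BrM M, ε ^ n = 1 ∧ c = bc M K ε})) :
    ∃ (l : List (Kˣ × Kˣ)) (δ : BrM M), l.length = ∑ j, g j ∧ δ ^ n = 1 ∧
      α = (l.map fun p => cls K (Symb n (algebraMap k K ζ) (p.1 : K) (p.2 : K))).prod *
        bc M K δ := by
  have hζK : IsPrimitiveRoot (algebraMap k K ζ) n :=
    hζ.map_of_injective (algebraMap k K).injective
  -- `α` is invertible and lies in `AP`
  obtain ⟨w, hw, hmem⟩ : ∃ w : (BrM K)ˣ, (w : BrM K) = α ∧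
      Additive.ofMul w ∈ AP (betaA hζK hn) (SM M n) ((fieldUnits M).toAddSubgroup ⊔
        AddSubgroup.closure (⋃ j, Set.range (fun i => Additive.ofMul (f j i)))) := by
    induction hα using Submonoid.closure_induction with
    | mem c hc =>
      rcases hc with ⟨u, v, hu, hv, rfl⟩ | ⟨ε, hε, rfl⟩
      · refine ⟨beta hζK hn u v, rfl, ?_⟩
        exact apply_mem_AP (β := betaA hζK hn) (SM M n) (u := Additive.ofMul u)
          (v := Additive.ofMul v) (slots_le M f hu) (slots_le M f hv)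
      · have hu : IsUnit (bc M K ε) := (IsUnit.of_pow_eq_one hε hn).map _
        obtain ⟨w, hw⟩ := hu
        exact ⟨w, hw, le_AP _ _ (mem_SM_of_pow hn hε hw)⟩
    | one => exact ⟨1, rfl, by rw [ofMul_one]; exact AddSubgroup.zero_mem _⟩
    | mul x y _ _ hx hy =>
      obtain ⟨w, rfl, hw⟩ := hx
      obtain ⟨w', rfl, hw'⟩ := hy
      exact ⟨w * w', rfl, by rw [ofMul_mul]; exact AddSubgroup.add_mem _ hw hw'⟩
  choose t hdet ε hε hrel using hf
  obtain ⟨l, hl, α', hα', hsum⟩ := blocks_step hn (betaA_skew hζK hn) (betaA_nsmul hζK hn)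
    g (fun j i => Additive.ofMul (f j i)) (fun j i => by
      rw [betaA_apply]
      simp only [toMul_ofMul]
      rw [beta_self_eq_one hζK hn, ofMul_one]
      exact AddSubgroup.zero_mem _) t (fun j => by
        refine mem_SM_of_pow (x := (∑ a, ∑ b, t j a b • betaA hζK hn (Additive.ofMul (f j a))
          (Additive.ofMul (f j b))).toMul) hn (hε j) ?_
        rw [← prod_cls_zpow_eq hζK hn (f j) (t j)]
        exact hrel j) hdet hg hmem
  obtain ⟨δ, hδ, hδ'⟩ := AP_SM_le hn hζ hζK M hα'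
  refine ⟨l.map (fun p => (p.1.toMul, p.2.toMul)), (δ : BrM M), by rw [List.length_map, hl], ?_, ?_⟩
  · rw [← Units.val_pow_eq_pow_val, hδ, Units.val_one]
  · have h1 : w = (l.map (fun p => betaA hζK hn p.1 p.2)).sum.toMul * Units.map (bc M K) δ := by
      have h2 := congrArg Additive.toMul hsum
      rw [toMul_add, hδ'] at h2
      exact h2
    rw [← hw, h1, Units.val_mul, sum_betaA_eq]
    rfl

/-- The index bound. -/
theorem index_dvd_of_decomposition {F K : Type u} [Field F] [Field K] [Algebra F K] {n : ℕ}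
    (hn : n ≠ 0) {ζ : K} (hζ : IsPrimitiveRoot ζ n) (l : List (Kˣ × Kˣ))
    (D : Type u) [DivisionRing D] [Algebra K D] [FiniteDimensional K D]
    (D' : Type u) [DivisionRing D'] [Algebra F D'] [FiniteDimensional F D']
    (hD' : IsUnit (cls F D'))
    (h : cls K D = (l.map fun p => cls K (Symb n ζ (p.1 : K) (p.2 : K))).prod *
      bc F K (cls F D')) :
    Nat.sqrt (Module.finrank K D) ∣ n ^ l.length * Nat.sqrt (Module.finrank F D') := by
  obtain ⟨N, hN⟩ := exists_sq_of_isUnit hD'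
  rw [hN, Nat.sqrt_eq]
  have hN0 : N ≠ 0 := by
    rintro rfl
    have := Module.finrank_pos (R := F) (M := D')
    omega
  have hfd := finiteDimensional_symbTensor hζ hn l
  have h1 : BE K D ((SymbTensor n ζ l).carrier ⊗[K] (K ⊗[F] D')) := by
    rw [← cls_eq_iff, cls_tensor, h, ← bc_cls]
    congr 1
    rw [cls_symbTensor hζ hn]
    rw [← Units.coeHom_apply, map_list_prod, List.map_map]
    rfl
  refine index_dvd_of_BE (mul_ne_zero (pow_ne_zero _ hn) hN0) ?_ h1
  rw [Module.finrank_tensorProduct, finrank_symbTensor hζ hn, Module.finrank_baseChange, hN]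
  ring

end General

end Pool.Agent.Lib.MP_43d240_ag
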