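import Pool.Agent.Lib.MP_43d240_ag.Beta
import Pool.Agent.Lib.MP_43d240_ag.Split

/-!
# Lists of symbols
-/

set_option autoImplicit false

universe u v w x

namespace Pool.Agent.Lib.MP_43d240_ag

section Lists

variable {K : Type u} [Field K] {n : ℕ} {ζ : K}

theorem prod_map_ofFn {G : Type*} [CommMonoid G] {r : ℕ} (x y : Fin r → Kˣ) (φ : Kˣ → Kˣ → G) :
    ((List.ofFn (fun i => (x i, y i))).map (fun p => φ p.1 p.2)).prod = ∏ i, φ (x i) (y i) := by
  rw [List.map_ofFn, List.prod_ofFn]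
  rfl

theorem prod_mem_PP (hζ : IsPrimitiveRoot ζ n) (hn : n ≠ 0) (S : Subgroup (BrM K)ˣ)
    (H : Subgroup Kˣ) (s : List (Kˣ × Kˣ)) (hs : ∀ p ∈ s, p.1 ∈ H ∧ p.2 ∈ H) :
    (s.map (fun p => beta hζ hn p.1 p.2)).prod ∈ PP (beta hζ hn) S H := by
  apply Subgroup.list_prod_mem
  intro z hz
  obtain ⟨p, hp, rfl⟩ := List.mem_map.1 hz
  exact apply_mem_PP S (hs p hp).1 (hs p hp).2

theorem BE_symbTensor_of_prod_eq (hζ : IsPrimitiveRoot ζ n) (hn : n ≠ 0) {s t : List (Kˣ × Kˣ)}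
    (h : (s.map (fun p => beta hζ hn p.1 p.2)).prod = (t.map (fun p => beta hζ hn p.1 p.2)).prod) :
    BE K (SymbTensor n ζ s).carrier (SymbTensor n ζ t).carrier := by
  rw [← cls_eq_iff, cls_symbTensor hζ hn, cls_symbTensor hζ hn, h]

theorem index_dvd_of_BE_symbTensor (hζ : IsPrimitiveRoot ζ n) (hn : n ≠ 0)
    {t : List (Kˣ × Kˣ)} {D : Type v} [DivisionRing D] [Algebra K D] [FiniteDimensional K D]
    (h : BE K D (SymbTensor n ζ t).carrier) :
    Nat.sqrt (Module.finrank K D) ∣ n ^ t.length :=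
  index_dvd_of_BE (pow_ne_zero _ hn) (finrank_symbTensor hζ hn t) h

end Lists

section Tsen

variable {k K : Type u} [Field k] [IsAlgClosed k] [Field K] [Algebra k K] {n : ℕ} {ζ : k}

/-- Symbols with both slots in a subfield of transcendence degree `≤ 1` are trivial. -/
theorem beta_eq_one_of_trdeg (hζ : IsPrimitiveRoot ζ n) (hn : n ≠ 0)
    (hζK : IsPrimitiveRoot (algebraMap k K ζ) n) (L : IntermediateField k K)
    (hL : Algebra.trdeg k L ≤ 1) {a b : Kˣ} (ha : (a : K) ∈ L) (hb : (b : K) ∈ L) :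
    beta hζK hn a b = 1 := by
  apply beta_eq_one
  have hζL : IsPrimitiveRoot (algebraMap k L ζ) n :=
    hζ.map_of_injective (algebraMap k L).injective
  have ha0 : (⟨(a : K), ha⟩ : L) ≠ 0 := fun h => a.ne_zero (congrArg Subtype.val h)
  have hb0 : (⟨(b : K), hb⟩ : L) ≠ 0 := fun h => b.ne_zero (congrArg Subtype.val h)
  have h := (Symb.hasRep_of_trdeg_le_one hL hn hζL ha0 hb0).baseChange (K := K)
  exact h

/-- The subgroup of units lying in a subfield. -/
def fieldUnits (M : IntermediateField k K) : Subgroup Kˣ where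
  carrier := {u | (u : K) ∈ M}
  mul_mem' := fun {a b} ha hb => by
    simp only [Set.mem_setOf_eq, Units.val_mul] at *
    exact M.mul_mem ha hb
  one_mem' := by
    simp only [Set.mem_setOf_eq, Units.val_one]
    exact M.one_mem
  inv_mem' := fun {a} ha => by
    simp only [Set.mem_setOf_eq, Units.val_inv_eq_inv_val] at *
    exact M.inv_mem ha

theorem mem_fieldUnits {M : IntermediateField k K} {u : Kˣ} :
    u ∈ fieldUnits M ↔ (u : K) ∈ M := Iff.rfl

theorem closure_le_sup {r : ℕ} (f g : Fin r → Kˣ) (M : IntermediateField k K) :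
    Subgroup.closure (Set.range f ∪ Set.range g ∪ {u | (u : K) ∈ M}) ≤
      fieldUnits M ⊔ Subgroup.closure (Set.range f ∪ Set.range g) := by
  rw [Subgroup.closure_le]
  rintro u (hu | hu)
  · exact (le_sup_right : _ ≤ fieldUnits M ⊔ Subgroup.closure (Set.range f ∪ Set.range g))
      (Subgroup.subset_closure hu)
  · exact (le_sup_left : _ ≤ fieldUnits M ⊔ Subgroup.closure (Set.range f ∪ Set.range g)) hu

theorem tame_main (hn : n ≠ 0) (hζ : IsPrimitiveRoot ζ n) {r : ℕ}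
    (L : Fin r → IntermediateField k K) (hL : ∀ i, Algebra.trdeg k (L i) ≤ 1)
    (M : IntermediateField k K) (hM : Algebra.trdeg k M ≤ 1)
    (f g : Fin r → Kˣ) (hf : ∀ i, (f i : K) ∈ L i) (hg : ∀ i, (g i : K) ∈ L i)
    (s : List (Kˣ × Kˣ))
    (hs : ∀ p ∈ s, p.1 ∈ Subgroup.closure (Set.range f ∪ Set.range g ∪ {u | (u : K) ∈ M}) ∧
      p.2 ∈ Subgroup.closure (Set.range f ∪ Set.range g ∪ {u | (u : K) ∈ M})) :
    ∃ t : List (Kˣ × Kˣ), t.length = r ∧
      BE K (SymbTensor n (algebraMap k K ζ) s).carrier (SymbTensor n (algebraMap k K ζ) t).carrier := by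
  have hζK : IsPrimitiveRoot (algebraMap k K ζ) n :=
    hζ.map_of_injective (algebraMap k K).injective
  have h1 := prod_mem_PP hζK hn ⊥ (fieldUnits M ⊔ Subgroup.closure (Set.range f ∪ Set.range g)) s
    (fun p hp => ⟨closure_le_sup f g M (hs p hp).1, closure_le_sup f g M (hs p hp).2⟩)
  obtain ⟨x, y, α', hα', h2⟩ := exists_prod_of_mem_PP_sup (beta_skew hζK hn) f g
    (fun i => Subgroup.mem_bot.2 (beta_eq_one_of_trdeg hζ hn hζK (L i) (hL i) (hf i) (hf i)))
    (fun i => Subgroup.mem_bot.2 (beta_eq_one_of_trdeg hζ hn hζK (L i) (hL i) (hf i) (hg i)))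
    (fun i => Subgroup.mem_bot.2 (beta_eq_one_of_trdeg hζ hn hζK (L i) (hL i) (hg i) (hg i))) h1
  have h3 : PP (beta hζK hn) ⊥ (fieldUnits M) ≤ ⊥ :=
    PP_le le_rfl (fun u hu v hv =>
      Subgroup.mem_bot.2 (beta_eq_one_of_trdeg hζ hn hζK M hM hu hv))
  have h4 : α' = 1 := Subgroup.mem_bot.1 (h3 hα')
  refine ⟨List.ofFn (fun i => (x i, y i)), by simp, ?_⟩
  apply BE_symbTensor_of_prod_eq hζK hn
  rw [h2, h4, mul_one, prod_map_ofFn x y (fun a b => beta hζK hn a b)]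

end Tsen

end Pool.Agent.Lib.MP_43d240_ag
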