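import Pool.Agent.Lib.MP_43d240_ag.TameGeneral

/-!
# Blocks in subfields of transcendence degree one
-/

set_option autoImplicit false

open scoped TensorProduct

universe u v w x

namespace Pool.Agent.Lib.MP_43d240_ag

section Jplus

/-- The matrix of a half of the standard symplectic form. -/
def Jplus (g : ℕ) : Matrix (Fin (2 * g)) (Fin (2 * g)) ℤ :=
  Matrix.reindex (finSumFinEquiv.trans (finCongr (two_mul g).symm))
    (finSumFinEquiv.trans (finCongr (two_mul g).symm)) (Matrix.fromBlocks 0 1 0 0)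

theorem isUnit_det_Jplus (g : ℕ) : IsUnit (Jplus g - (Jplus g).transpose).det := by
  have h1 : Jplus g - (Jplus g).transpose =
      Matrix.reindex (finSumFinEquiv.trans (finCongr (two_mul g).symm))
        (finSumFinEquiv.trans (finCongr (two_mul g).symm))
        (Matrix.fromBlocks (0 : Matrix (Fin g) (Fin g) ℤ) 1 (-1) 0) := by
    unfold Jplus
    rw [Matrix.transpose_reindex, ← Matrix.reindexLinearEquiv_apply ℤ ℤ,
      ← Matrix.reindexLinearEquiv_apply ℤ ℤ, ← map_sub, ← Matrix.reindexLinearEquiv_apply ℤ ℤ]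
    congr 1
    rw [Matrix.fromBlocks_transpose, sub_eq_add_neg, Matrix.fromBlocks_neg, Matrix.fromBlocks_add]
    simp
  rw [h1, Matrix.det_reindex_self]
  have h2 : (Matrix.fromBlocks (0 : Matrix (Fin g) (Fin g) ℤ) (1 : Matrix (Fin g) (Fin g) ℤ)
      (-1 : Matrix (Fin g) (Fin g) ℤ) (0 : Matrix (Fin g) (Fin g) ℤ)) *
      (Matrix.fromBlocks (0 : Matrix (Fin g) (Fin g) ℤ) (-1 : Matrix (Fin g) (Fin g) ℤ)
      (1 : Matrix (Fin g) (Fin g) ℤ) (0 : Matrix (Fin g) (Fin g) ℤ)) = 1 := by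
    simp [Matrix.fromBlocks_multiply]
  have h3 := congrArg Matrix.det h2
  rw [Matrix.det_mul, Matrix.det_one] at h3
  exact IsUnit.of_mul_eq_one _ h3

end Jplus

section Trdeg

variable {k K : Type u} [Field k] [IsAlgClosed k] [Field K] [Algebra k K]

theorem prod_cls_eq_one_of_trdeg {n : ℕ} (hn : n ≠ 0) {ζ : k} (hζ : IsPrimitiveRoot ζ n)
    (L : IntermediateField k K) (hL : Algebra.trdeg k L ≤ 1) {N : ℕ} (f : Fin N → Kˣ)
    (hf : ∀ a, (f a : K) ∈ L) (t : Matrix (Fin N) (Fin N) ℤ) :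
    ∏ a, ∏ b, cls K (Symb n (algebraMap k K ζ) ((f a ^ t a b : Kˣ) : K) (f b : K)) = 1 := by
  have hζK : IsPrimitiveRoot (algebraMap k K ζ) n :=
    hζ.map_of_injective (algebraMap k K).injective
  refine Finset.prod_eq_one (fun a _ => Finset.prod_eq_one (fun b _ => ?_))
  rw [cls_zpow_left hζK hn, beta_eq_one_of_trdeg hζ hn hζK L hL (hf a) (hf b), one_zpow,
    Units.val_one]

theorem blockRel_of_trdeg {n : ℕ} (hn : n ≠ 0) {ζ : k} (hζ : IsPrimitiveRoot ζ n)
    (M L : IntermediateField k K) (hL : Algebra.trdeg k L ≤ 1) {g : ℕ} (f : Fin (2 * g) → Kˣ)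
    (hf : ∀ a, (f a : K) ∈ L) : BlockRel M n ζ f :=
  ⟨Jplus g, (by
    obtain ⟨v, hv⟩ := (isUnit_det_Jplus g).exists_left_inv
    exact ⟨v, 0, by rw [hv, zero_mul, add_zero]⟩), 1, one_pow n, by
    rw [prod_cls_eq_one_of_trdeg hn hζ L hL f hf, map_one]⟩

end Trdeg

end Pool.Agent.Lib.MP_43d240_ag
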