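import Mathlib

/-!
# Tsen–Lang: the base case (algebraically closed fields)
-/

set_option autoImplicit false

universe u v w x

namespace Pool.Agent.Lib.MP_43d240_ag

open MvPolynomial

section CommonZero

variable {k : Type u} [Field k] [IsAlgClosed k] {N : ℕ}

/-- Translation by a point. -/
noncomputable def translate (x : Fin N → k) : MvPolynomial (Fin N) k ≃ₐ[k] MvPolynomial (Fin N) k :=
  AlgEquiv.ofAlgHom (aeval (fun i => X i + C (x i))) (aeval (fun i => X i - C (x i)))
    (by ext i; simp) (by ext i; simp)

theorem height_vanishingIdeal (x : Fin N → k) :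
    (vanishingIdeal k {x} : Ideal (MvPolynomial (Fin N) k)).height =
      (vanishingIdeal k {(0 : Fin N → k)} : Ideal (MvPolynomial (Fin N) k)).height := by
  have h1 : (vanishingIdeal k {x} : Ideal (MvPolynomial (Fin N) k)) =
      (vanishingIdeal k {(0 : Fin N → k)} : Ideal (MvPolynomial (Fin N) k)).comap
        (translate x).toRingEquiv := by
    ext p
    rw [mem_vanishingIdeal_singleton_iff, Ideal.mem_comap, mem_vanishingIdeal_singleton_iff]
    change _ ↔ aeval (0 : Fin N → k) (aeval (fun i => X i + C (x i)) p) = 0
    rw [← AlgHom.comp_apply, comp_aeval]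
    simp
  rw [h1, RingEquiv.height_comap]

theorem le_height_vanishingIdeal_zero {m : ℕ}
    (h : (vanishingIdeal k {(0 : Fin N → k)} : Ideal (MvPolynomial (Fin N) k)).height ≤ (m : ℕ∞)) :
    N ≤ m := by
  have h1 : ringKrullDim (MvPolynomial (Fin N) k) ≤ ((m : ℕ∞) : WithBot ℕ∞) := by
    rw [ringKrullDim_le_iff_isMaximal_height_le]
    intro I hI
    obtain ⟨x, rfl⟩ := eq_vanishingIdeal_singleton_of_isMaximal k hI
    rw [height_vanishingIdeal]
    exact_mod_cast h
  rw [MvPolynomial.ringKrullDim_of_isNoetherianRing, ringKrullDim_eq_zero_of_field, zero_add,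
    Nat.card_fin] at h1
  exact_mod_cast h1

/-- Fewer equations than unknowns, all vanishing at the origin, have a common nonzero solution. -/
theorem exists_common_zero {m : ℕ} (hmN : m < N) (f : Fin m → MvPolynomial (Fin N) k)
    (h0 : ∀ j, aeval (0 : Fin N → k) (f j) = 0) :
    ∃ x : Fin N → k, x ≠ 0 ∧ ∀ j, aeval x (f j) = 0 := by
  classical
  by_contra hcon
  push Not at hcon
  set I : Ideal (MvPolynomial (Fin N) k) := Ideal.span (Finset.univ.image f : Finset _) with hI
  have hz : zeroLocus k I = {(0 : Fin N → k)} := by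
    rw [hI, zeroLocus_span]
    ext x
    simp only [Finset.coe_image, Finset.coe_univ, Set.image_univ, Set.mem_range,
      forall_exists_index, forall_apply_eq_imp_iff, Set.mem_setOf_eq, Set.mem_singleton_iff]
    constructor
    · intro h
      by_contra hx
      obtain ⟨j, hj⟩ := hcon x hx
      exact hj (h j)
    · rintro rfl
      exact h0
  have hr : I.radical = (vanishingIdeal k {(0 : Fin N → k)} : Ideal (MvPolynomial (Fin N) k)) := by
    rw [← vanishingIdeal_zeroLocus_eq_radical (K := k), hz]
  have hm : (vanishingIdeal k {(0 : Fin N → k)} : Ideal (MvPolynomial (Fin N) k)) ∈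
      I.minimalPrimes := by
    rw [← Ideal.radical_minimalPrimes, hr, Ideal.minimalPrimes_eq_subsingleton_self]
    rfl
  have hh := Ideal.height_le_card_of_mem_minimalPrimes_span_finset hm
  have h2 : (Finset.univ.image f).card ≤ m := by
    simpa using Finset.card_image_le (s := Finset.univ) (f := f)
  have h3 := le_height_vanishingIdeal_zero (hh.trans (by exact_mod_cast h2) : _ ≤ (m : ℕ∞))
  omega

end CommonZero

end Pool.Agent.Lib.MP_43d240_ag
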